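import Pool.Agent.Lib.MP_17a322_ntTC.CDefs
import Pool.Agent.Lib.MP_17a322_ntTA.Est

/-!
Divisors `F_i = 0` on families over an abelian variety, for arbitrary forms `F_i`: definitions.
-/

set_option autoImplicit false

universe u

namespace UTH

open MvPolynomial UTA UTD UTC
open Pool.Agent.Lib.MP_17a322_nt.VA Pool.Agent.Lib.MP_17a322_nt.SL

/-- The local height at `v` of the point `(x, y)` with respect to the divisor `F = 0`, for a form `F` of degree `a`
in `x` and of multidegree `d` in `y`. -/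
noncomputable def lamF {K : Type u} [Field K] {N q m : ℕ} (a : ℕ) (d : Fin q → ℕ) (F : Fm K N q m)
    (v : AbsoluteValue K ℝ) (x : Fin (N + 1) → K) (y : Fin q → Fin (m + 1) → K) : ℝ :=
  a * Real.log (⨆ i, v (x i)) + ∑ j, d j * Real.log (⨆ l, v (y j l)) - Real.log (v (val F x y))

/-- The dimension of the space of the forms of multidegree `M` on the closed subscheme with the ideal `I` which
vanish to order at least `j` along the divisor `f = 0`, that is, which are locally multiples of the `j`-th power of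
its equation. -/
noncomputable def ordF {L : Type u} [Field L] {q m : ℕ}
    (I : Ideal (MvPolynomial (Fin q × Fin (m + 1)) L)) (M : Fin q → ℕ)
    (f : MvPolynomial (Fin q × Fin (m + 1)) L) (j : ℕ) : ℕ :=
  Module.finrank L (((MH L m M) ⊓ (sat (I ⊔ Ideal.span {f ^ j})).restrictScalars L).map
    (Ideal.Quotient.mkₐ L I).toLinearMap)

/-- The divisors `F_i = 0`, `i ∈ Q`, meet properly on the generic fibre `X_P` of `X → A`: for every set `J` of them,
the equation of a further one is not a zero divisor on the intersection of `X_P` with the `D_j`, `j ∈ J`. -/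
def PropF {K : Type u} [Field K] {N q m κ s : ℕ} (A : AV K N) (H : Fin κ → Fm K N q m) (F : Fin s → Fm K N q m)
    (Q : Finset (Fin s)) : Prop :=
  ∀ (L : Type u) [Field L] [IsAlgClosed L] [Algebra K L] (P : A.Pts L), Gen A P →
    ∀ J : Finset (Fin s), J ⊆ Q → ∀ i ∈ Q, i ∉ J → ∀ f : MvPolynomial (Fin q × Fin (m + 1)) L,
      sp (F i) (A.x P) * f ∈
        sat (fib H (A.x P) ⊔ Ideal.span ((fun j => sp (F j) (A.x P)) '' (J : Set (Fin s)))) →
      f ∈ sat (fib H (A.x P) ⊔ Ideal.span ((fun j => sp (F j) (A.x P)) '' (J : Set (Fin s))))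

/-- The indices of the joint bases: a subfamily, a grid point and a coordinate in every block. -/
abbrev IndF (s₀ s q m B : ℕ) := Fin s₀ × (Fin s → Fin (B + 1)) × (Fin q → Fin (m + 1))

/-- Joint bases of the forms of multidegree `M` on the generic fibre, for the subfamilies `Q a` of the divisors
`F_i = 0`, where `F_i` has degree `α i` in `x` and multidegree `δ i` in `y`. -/
structure BasF {K : Type u} [Field K] {N q m κ s s₀ : ℕ} (A : AV K N) (H : Fin κ → Fm K N q m)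
    (F : Fin s → Fm K N q m) (α : Fin s → ℕ) (δ : Fin s → Fin q → ℕ)
    (Q : Fin s₀ → Finset (Fin s)) (M : Fin q → ℕ) (W : Fin s → ℕ) (B r : ℕ) where
  /-- The exponents of a basis of monomials. -/
  mon : Fin r → (Fin q × Fin (m + 1)) →₀ ℕ
  mon_deg : ∀ l i, ∑ t, mon l (i, t) = M i
  mon_li : ∀ (L : Type u) [Field L] [IsAlgClosed L] [Algebra K L] (P : A.Pts L), Gen A P →
    ∀ u : Fin r → L, ∑ c, u c • monomial (mon c) (1 : L) ∈ fib H (A.x P) → u = 0
  /-- The degree in `x`. -/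
  D : ℕ
  /-- The coefficients of the bases. -/
  Λ : IndF s₀ s q m B → Fin r → Fin r → MvPolynomial (Fin (N + 1)) K
  Λ_hom : ∀ b l c, (Λ b l c).IsHomogeneous D
  Λ_li : ∀ b, ∀ (L : Type u) [Field L] [Algebra K L] (P : A.Pts L), Gen A P →
    LinearIndependent L fun l c => aeval (A.x P) (Λ b l c)
  /-- The weights of the elements of the bases. -/
  x : IndF s₀ s q m B → Fin r → ℕ
  x_sum : ∀ b, ∑ i ∈ Q b.1, (b.2.1 i : ℕ) * W i ≤ ∑ l, x b l
  E : IndF s₀ s q m B → Fin r → ℕ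
  Ex : IndF s₀ s q m B → Fin r → Finset (Fin s → ℕ)
  Ex_w : ∀ b l, ∀ a ∈ Ex b l, x b l ≤ ∑ i ∈ Q b.1, (b.2.1 i : ℕ) * a i
  Ex_le : ∀ b l, ∀ a ∈ Ex b l, ∀ j, ∑ i, a i * δ i j ≤ M j + E b l
  Ex_x : ∀ b l, ∀ a ∈ Ex b l, ∑ i, a i * α i ≤ D
  G : IndF s₀ s q m B → Fin r → (Fin s → ℕ) → Fm K N q m
  G_mh : ∀ b l, ∀ a ∈ Ex b l, Mh (G b l a) (D - ∑ i, a i * α i) fun j => M j + E b l - ∑ i, a i * δ i j
  /-- The denominator. -/
  R : MvPolynomial (Fin (N + 1)) K
  /-- The degree of the denominator. -/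
  ρ : ℕ
  R_hom : R.IsHomogeneous ρ
  R_notMem : R ∉ A.I
  rel : ∀ (L : Type u) [Field L] [Algebra K L] (P : A.Pts L) (y : Fin q → Fin (m + 1) → L),
    (∀ j, val (H j) (A.x P) y = 0) → ∀ b l,
      aeval (A.x P) R * ((∏ i, y i (b.2.2 i)) ^ E b l *
        (∑ c, aeval (A.x P) (Λ b l c) * ∏ z, y z.1 z.2 ^ mon c z) -
          ∑ a ∈ Ex b l, (∏ i, val (F i) (A.x P) y ^ a i) * val (G b l a) (A.x P) y) = 0

/-- Finitely many bases of the forms of multidegree `M` on the generic fibre with the local estimates: for every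
`a < s₀`, at every place one of them is small enough for the local gain `Φ a`, at the points where the form `F₀` does
not vanish. -/
structure EstF {K : Type u} [Field K] {N q m κ s₀ : ℕ} (A : AV K N) (H : Fin κ → Fm K N q m)
    (M : Fin q → ℕ) (r : ℕ) (F₀ : Fm K N q m)
    (Φ : Fin s₀ → AbsoluteValue K ℝ → A.Pts K → (Fin q → Fin (m + 1) → K) → ℝ) where
  mon : Fin r → (Fin q × Fin (m + 1)) →₀ ℕ
  deg : ∀ c i, ∑ l, mon c (i, l) = M i
  ind : ∀ (L : Type u) [Field L] [IsAlgClosed L] [Algebra K L] (P : A.Pts L), Gen A P →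
    ∀ u : Fin r → L, ∑ c, u c • monomial (mon c) (1 : L) ∈ fib H (A.x P) → u = 0
  s : ℕ
  D : ℕ
  Λ : Fin s → Fin r → Fin r → MvPolynomial (Fin (N + 1)) K
  Λ_hom : ∀ b l c, (Λ b l c).IsHomogeneous D
  Λ_det : ∀ b, (Matrix.of (Λ b)).det ∉ A.I
  d : ℕ
  R : MvPolynomial (Fin (N + 1)) K
  R_hom : R.IsHomogeneous d
  R_not : R ∉ A.I
  T : ℕ
  loc : ∀ v : AbsoluteValue K ℝ, ∃ C : ℝ, ∀ (P : A.Pts K) (y : Fin q → Fin (m + 1) → K),
    InX H (A.x P) y → aeval (A.x P) R ≠ 0 → (∀ i, y i 0 ≠ 0) → val F₀ (A.x P) y ≠ 0 → ∀ a : Fin s₀,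
    ∃ b : Fin s, (∀ l, ∑ c, aeval (A.x P) (Λ b l c) * ∏ z, y z.1 z.2 ^ mon c z ≠ 0) →
      Φ a v P y ≤
        ∑ l, (∑ j, M j * Real.log (⨆ t, v (y j t)) + D * Real.log (⨆ a, v (A.x P a)) -
          Real.log (v (∑ c, aeval (A.x P) (Λ b l c) * ∏ z, y z.1 z.2 ^ mon c z))) +
        T * LR d R v (A.x P) + C

end UTH
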