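import Pool.Agent.Lib.MP_17a322_ntTA.Z2
import Pool.Agent.Lib.MP_17a322_ntTA.D0
import Pool.Agent.Lib.MP_17a322_ntTH.Defs

/-!
Leaf A0: the sum of the local heights for a form `F` over the infinite places and `S` is at most the height, up to a
constant; equality up to the places outside `S`.

PROOF of A0_ub. Model: `UTA.height_mv` (ntTA/Z2: `height_eq`, `finsum` with finite supports, `S ∪ support`). For a finite
place `v`: `v (val F x y) ≤ c_v * (⨆ v x) ^ a * ∏ (⨆ v y_j) ^ d_j` with `c_v = max 1 (sup of v of the coefficients of F)`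
(ultrametric: `FinitePlace` is nonarchimedean; `val F x y` is a finite sum of coefficients in `K` times monomials), and
`c_v = 1` for all but finitely many `v` (`FinitePlace.hasFiniteMulSupport`). Product formula for `val F x y ≠ 0`
(Mathlib: `NumberField.prod_abs_eq_one` or `height_eq` for the vector with the one coordinate `val F x y`, whose
`logHeight` is 0): `∑_all log v (val F x y) = 0`. Hence `mF S = (∑_(inf, S) (a log x + ∑ d_j log y_j)) + ∑_(v ∉ S) log v (val F x y)
≤ a h(x) + ∑ d_j h(y_j) + ∑ᶠ log c_v`; `C = ∑ᶠ_v log c_v` does not depend on `S`, `x`, `y`.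
PROOF of A0_lb. `a h(x) + ∑ d_j h(y_j) = ∑_all lamF` (product formula), and the terms outside `S` are `≤ 0`.
-/

set_option autoImplicit false

universe u

namespace UTH

open MvPolynomial UTA UTD UTC Height NumberField

/-- The sum of the local heights over the infinite places and the places in `S`. -/
noncomputable def mF {K : Type u} [Field K] [NumberField K] {N q m : ℕ} (a : ℕ) (d : Fin q → ℕ) (F : Fm K N q m)
    (S : Finset (FinitePlace K)) (x : Fin (N + 1) → K) (y : Fin q → Fin (m + 1) → K) : ℝ :=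
  (∑ v : InfinitePlace K, (v.mult : ℝ) * lamF a d F v.val x y) + ∑ v ∈ S, lamF a d F v.val x y

private theorem A0_pos {ι : Type*} [Finite ι] {K : Type u} [Field K] (v : AbsoluteValue K ℝ) {x : ι → K}
    (hx : x ≠ 0) : 0 < ⨆ w, v (x w) := by
  obtain ⟨w, hw⟩ := Function.ne_iff.1 hx
  exact lt_of_lt_of_le (v.pos hw) (le_ciSup (Set.finite_range fun w => v (x w)).bddAbove w)

private theorem A0_fin {K : Type u} [Field K] [NumberField K] {ι : Type*} [Finite ι] {x : ι → K}
    (hx : x ≠ 0) : (Function.mulSupport fun v : FinitePlace K => ⨆ w, v (x w)).Finite := by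
  have h1 : (⋃ w : {w : ι // x w ≠ 0}, Function.mulSupport fun v : FinitePlace K => v (x w.1)).Finite :=
    Set.finite_iUnion fun w => FinitePlace.hasFiniteMulSupport w.2
  refine h1.subset fun v hv => ?_
  by_contra hcon
  rw [Set.mem_iUnion] at hcon
  push Not at hcon
  have h2 : ∀ w, x w ≠ 0 → v (x w) = 1 := fun w hw => by
    by_contra h
    exact hcon ⟨w, hw⟩ h
  rw [Function.mem_mulSupport] at hv
  refine hv ?_
  obtain ⟨w, hw⟩ := Function.ne_iff.1 hx
  have : Nonempty ι := ⟨w⟩
  refine le_antisymm (ciSup_le fun w' => ?_) ?_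
  · rcases eq_or_ne (x w') 0 with h | h
    · rw [h, map_zero]
      exact zero_le_one
    · exact (h2 w' h).le
  · rw [← h2 w hw]
    exact le_ciSup (Set.finite_range fun w => v (x w)).bddAbove w

private theorem A0_fin' {K : Type u} [Field K] [NumberField K] {ι : Type*} [Finite ι] {x : ι → K}
    (hx : x ≠ 0) (c : ℝ) :
    (Function.support fun v : FinitePlace K => c * Real.log (⨆ w, v (x w))).Finite := by
  refine (A0_fin hx).subset fun v hv => ?_
  rw [Function.mem_support] at hv
  rw [Function.mem_mulSupport]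
  intro h
  exact hv (by rw [h, Real.log_one, mul_zero])

/-- A finite sum of functions with finite supports. -/
private theorem A0_sumfin {α : Type*} {ι : Type*} [Fintype ι] {f : ι → α → ℝ} (h : ∀ i, (Function.support (f i)).Finite) :
    (Function.support fun v => ∑ i, f i v).Finite := by
  refine (Set.finite_iUnion h).subset fun v hv => ?_
  by_contra hcon
  rw [Set.mem_iUnion] at hcon
  push Not at hcon
  rw [Function.mem_support] at hv
  refine hv (Finset.sum_eq_zero fun i _ => ?_)
  have h4 := hcon i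
  rw [Function.mem_support, not_not] at h4
  exact h4

/-- The support of the local heights is finite. -/
private theorem A0_supp {K : Type u} [Field K] [NumberField K] {N q m : ℕ} (F : Fm K N q m) (a : ℕ) (d : Fin q → ℕ)
    {x : Fin (N + 1) → K} {y : Fin q → Fin (m + 1) → K} (hx : x ≠ 0) (hy : ∀ i, y i ≠ 0) (hF0 : val F x y ≠ 0) :
    (Function.support fun v : FinitePlace K => lamF a d F v.val x y).Finite := by
  have s1 := A0_fin' hx (a : ℝ)
  have s2 : (Function.support fun v : FinitePlace K => ∑ i, (d i : ℝ) * Real.log (⨆ t, v (y i t))).Finite :=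
    A0_sumfin fun i => A0_fin' (hy i) (d i)
  have s3 : (Function.mulSupport fun v : FinitePlace K => v (val F x y)).Finite :=
    FinitePlace.hasFiniteMulSupport hF0
  refine ((s1.union s2).union s3).subset fun v hv => ?_
  by_contra hcon
  rw [Set.mem_union, Set.mem_union, Function.mem_support, Function.mem_support, Function.mem_mulSupport] at hcon
  push Not at hcon
  obtain ⟨⟨h1, h2⟩, h3⟩ := hcon
  rw [Function.mem_support] at hv
  apply hv
  have h1' : (a : ℝ) * Real.log (⨆ i, v.val (x i)) = 0 := h1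
  have h2' : ∑ j, (d j : ℝ) * Real.log (⨆ l, v.val (y j l)) = 0 := h2
  have h3' : v.val (val F x y) = 1 := h3
  unfold lamF
  rw [h1', h2', h3', Real.log_one]
  ring

/-- The product formula for the local heights. -/
private theorem A0_prod {K : Type u} [Field K] [NumberField K] {N q m : ℕ} (F : Fm K N q m) (a : ℕ) (d : Fin q → ℕ)
    {x : Fin (N + 1) → K} {y : Fin q → Fin (m + 1) → K} (hx : x ≠ 0) (hy : ∀ i, y i ≠ 0) (hF0 : val F x y ≠ 0) :
    a * logHeight x + ∑ j, (d j : ℝ) * logHeight (y j) =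
      ∑ v : InfinitePlace K, (v.mult : ℝ) * lamF a d F v.val x y + ∑ᶠ v : FinitePlace K, lamF a d F v.val x y := by
  have hX : (a : ℝ) * logHeight x =
      ∑ v : InfinitePlace K, (v.mult : ℝ) * ((a : ℝ) * Real.log (⨆ t, v.val (x t))) +
        ∑ᶠ v : FinitePlace K, (a : ℝ) * Real.log (⨆ t, v.val (x t)) := by
    rw [height_eq hx, mul_add, mul_finsum, Finset.mul_sum]
    congr 1
    refine Finset.sum_congr rfl fun v _ => ?_
    change (a : ℝ) * ((v.mult : ℝ) * Real.log (⨆ t, v.val (x t))) = _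
    ring
  have h1 : ∀ i, (d i : ℝ) * logHeight (y i) =
      ∑ v : InfinitePlace K, (v.mult : ℝ) * ((d i : ℝ) * Real.log (⨆ t, v.val (y i t))) +
        ∑ᶠ v : FinitePlace K, (d i : ℝ) * Real.log (⨆ t, v.val (y i t)) := by
    intro i
    rw [height_eq (hy i), mul_add, mul_finsum, Finset.mul_sum]
    congr 1
    refine Finset.sum_congr rfl fun v _ => ?_
    change (d i : ℝ) * ((v.mult : ℝ) * Real.log (⨆ t, v.val (y i t))) = _
    ring
  have h2 : ∑ i, (d i : ℝ) * logHeight (y i) =
      ∑ v : InfinitePlace K, (v.mult : ℝ) * (∑ i, (d i : ℝ) * Real.log (⨆ t, v.val (y i t))) +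
        ∑ᶠ v : FinitePlace K, ∑ i, (d i : ℝ) * Real.log (⨆ t, v.val (y i t)) := by
    rw [Finset.sum_congr rfl fun i _ => h1 i, Finset.sum_add_distrib, Finset.sum_comm]
    congr 1
    · refine Finset.sum_congr rfl fun v _ => ?_
      rw [Finset.mul_sum]
    · exact (finsum_sum_comm _ _ fun i _ => A0_fin' (hy i) _).symm
  have hv : (fun _ : Unit => val F x y) ≠ 0 := fun h => hF0 (congrFun h ())
  have h3 : (0 : ℝ) = ∑ v : InfinitePlace K, (v.mult : ℝ) * Real.log (v.val (val F x y)) +
        ∑ᶠ v : FinitePlace K, Real.log (v.val (val F x y)) := by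
    have h4 := height_eq hv
    rw [logHeight_eq_zero_of_subsingleton] at h4
    rw [h4]
    congr 1
    · refine Finset.sum_congr rfl fun v _ => ?_
      rw [ciSup_unique]
      rfl
    · refine finsum_congr fun v => ?_
      rw [ciSup_unique]
      rfl
  have s1 : (Function.support fun v : FinitePlace K => (a : ℝ) * Real.log (⨆ t, v.val (x t))).Finite :=
    A0_fin' hx (a : ℝ)
  have s2 : (Function.support fun v : FinitePlace K => ∑ i, (d i : ℝ) * Real.log (⨆ t, v.val (y i t))).Finite :=
    A0_sumfin fun i => A0_fin' (hy i) (d i)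
  have s3 : (Function.support fun v : FinitePlace K => Real.log (v.val (val F x y))).Finite := by
    refine (FinitePlace.hasFiniteMulSupport hF0).subset fun v hv => ?_
    rw [Function.mem_support] at hv
    rw [Function.mem_mulSupport]
    intro h
    have h' : v.val (val F x y) = 1 := h
    exact hv (by rw [h', Real.log_one])
  have s12 : (Function.support fun v : FinitePlace K => (a : ℝ) * Real.log (⨆ t, v.val (x t)) +
      ∑ i, (d i : ℝ) * Real.log (⨆ t, v.val (y i t))).Finite :=
    (s1.union s2).subset (Function.support_add _ _)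
  have h6 : ∑ᶠ v : FinitePlace K, lamF a d F v.val x y =
      (∑ᶠ v : FinitePlace K, (a : ℝ) * Real.log (⨆ t, v.val (x t)) +
        ∑ᶠ v : FinitePlace K, ∑ i, (d i : ℝ) * Real.log (⨆ t, v.val (y i t))) -
        ∑ᶠ v : FinitePlace K, Real.log (v.val (val F x y)) := by
    rw [← finsum_add_distrib s1 s2, ← finsum_sub_distrib s12 s3]
    rfl
  have h7 : ∑ v : InfinitePlace K, (v.mult : ℝ) * lamF a d F v.val x y =
      (∑ v : InfinitePlace K, (v.mult : ℝ) * ((a : ℝ) * Real.log (⨆ t, v.val (x t))) +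
        ∑ v : InfinitePlace K, (v.mult : ℝ) * (∑ i, (d i : ℝ) * Real.log (⨆ t, v.val (y i t)))) -
        ∑ v : InfinitePlace K, (v.mult : ℝ) * Real.log (v.val (val F x y)) := by
    rw [← Finset.sum_add_distrib, ← Finset.sum_sub_distrib]
    refine Finset.sum_congr rfl fun v _ => ?_
    unfold lamF
    ring
  rw [hX, h2, h6, h7]
  linarith

/-- A partial sum of a function with a lower bound. -/
private theorem A0_part {α : Type*} {f e : α → ℝ} (hf : (Function.support f).Finite) (he : (Function.support e).Finite)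
    (he0 : ∀ v, 0 ≤ e v) (h : ∀ v, 0 ≤ f v + e v) (S : Finset α) :
    ∑ v ∈ S, f v ≤ ∑ᶠ v, f v + ∑ᶠ v, e v := by
  classical
  rw [← finsum_add_distrib hf he]
  have s3 : (Function.support fun v => f v + e v).Finite := (hf.union he).subset (Function.support_add _ _)
  rw [finsum_eq_sum_of_support_subset _ (s := S ∪ s3.toFinset) (by
    intro v hv
    simp only [Finset.coe_union, Set.Finite.coe_toFinset, Set.mem_union]
    exact Or.inr hv)]
  calc ∑ v ∈ S, f v ≤ ∑ v ∈ S, (f v + e v) := Finset.sum_le_sum fun v _ => by linarith [he0 v]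
    _ ≤ ∑ v ∈ S ∪ s3.toFinset, (f v + e v) :=
      Finset.sum_le_sum_of_subset_of_nonneg Finset.subset_union_left fun v _ _ => h v

private theorem A0_ultra {K : Type u} [Field K] [NumberField K] (v : FinitePlace K) {ι : Type*} (s : Finset ι)
    (f : ι → K) {B : ℝ} (hB : 0 ≤ B) (h : ∀ i ∈ s, v (f i) ≤ B) : v (∑ i ∈ s, f i) ≤ B := by
  classical
  induction s using Finset.induction_on with
  | empty =>
    rw [Finset.sum_empty, map_zero]
    exact hB
  | insert i s hi ih =>
    rw [Finset.sum_insert hi]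
    exact (FinitePlace.add_le v _ _).trans (max_le (h i (Finset.mem_insert_self i s))
      (ih fun j hj => h j (Finset.mem_insert_of_mem hj)))

private theorem A0_val {K : Type u} [Field K] {N q m : ℕ} (F : Fm K N q m) (x : Fin (N + 1) → K)
    (y : Fin q → Fin (m + 1) → K) :
    val F x y = ∑ μ ∈ F.support, aeval x (coeff μ F) * ∏ z, (y z.1 z.2) ^ (μ z) := by
  unfold val sp
  rw [eval_map, eval₂_eq']
  rfl

private theorem A0_mon {K : Type u} [Field K] {q m : ℕ} (v : AbsoluteValue K ℝ) (M : Fin q → ℕ)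
    (y : Fin q → Fin (m + 1) → K) (μ : (Fin q × Fin (m + 1)) →₀ ℕ) (hμ : ∀ i, ∑ l, μ (i, l) = M i) :
    v (∏ z, y z.1 z.2 ^ μ z) ≤ ∏ i, (⨆ l, v (y i l)) ^ M i := by
  rw [map_prod, Fintype.prod_prod_type]
  refine Finset.prod_le_prod (fun i _ => Finset.prod_nonneg fun l _ => v.nonneg _) fun i _ => ?_
  rw [← hμ i, ← Finset.prod_pow_eq_pow_sum]
  refine Finset.prod_le_prod (fun l _ => v.nonneg _) fun l _ => ?_
  rw [map_pow]
  exact pow_le_pow_left₀ (v.nonneg _) (le_ciSup (f := fun l => v (y i l)) (Set.finite_range _).bddAbove l) _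

private theorem A0_form {K : Type u} [Field K] [NumberField K] {N δ : ℕ} {P : MvPolynomial (Fin (N + 1)) K}
    (hP : P.IsHomogeneous δ) (v : FinitePlace K) {B : ℝ} (hB : 0 ≤ B) (h : ∀ μ ∈ P.support, v (coeff μ P) ≤ B)
    (x : Fin (N + 1) → K) : v (aeval x P) ≤ B * (⨆ i, v (x i)) ^ δ := by
  classical
  have h0 : 0 ≤ ⨆ i, v (x i) := Real.iSup_nonneg fun i => v.val.nonneg _
  rw [aeval_def, eval₂_eq']
  refine A0_ultra v _ _ (mul_nonneg hB (pow_nonneg h0 _)) fun μ hμ => ?_
  have h3 : ∑ i, μ i = δ := by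
    have h4 := hP (mem_support_iff.1 hμ)
    have h5 : Finsupp.weight (1 : Fin (N + 1) → ℕ) μ = ∑ i, μ i := by
      rw [← Finsupp.degree_eq_sum]
      exact (DFunLike.congr_fun (Finsupp.degree_eq_weight_one (σ := Fin (N + 1)) (R := ℕ)) μ).symm
    rw [← h5]
    exact h4
  rw [map_mul, map_prod]
  refine mul_le_mul (h μ hμ) ?_ (Finset.prod_nonneg fun i _ => v.val.nonneg _) hB
  rw [← h3, ← Finset.prod_pow_eq_pow_sum]
  refine Finset.prod_le_prod (fun i _ => v.val.nonneg _) fun i _ => ?_
  rw [map_pow]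
  exact pow_le_pow_left₀ (v.val.nonneg _) (le_ciSup (f := fun i => v (x i)) (Set.finite_range _).bddAbove i) _

/-- The vector of `1` and of the coefficients. -/
private noncomputable def A0_vec {K : Type u} [Field K] {N q m : ℕ} (F : Fm K N q m) :
    Option {p : ((Fin q × Fin (m + 1)) →₀ ℕ) × (Fin (N + 1) →₀ ℕ) //
      p ∈ F.support ×ˢ (F.support.biUnion fun μ => (coeff μ F).support)} → K
  | none => 1
  | some p => coeff p.1.2 (coeff p.1.1 F)

private theorem A0_le {K : Type u} [Field K] [NumberField K] {N q m : ℕ} {F : Fm K N q m} {a : ℕ} {d : Fin q → ℕ}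
    (hF : Mh F a d) (v : FinitePlace K) (x : Fin (N + 1) → K) (y : Fin q → Fin (m + 1) → K) :
    v (val F x y) ≤ (⨆ w, v (A0_vec F w)) * ((⨆ i, v (x i)) ^ a * ∏ i, (⨆ l, v (y i l)) ^ d i) := by
  classical
  have hB : 0 ≤ ⨆ w, v (A0_vec F w) := Real.iSup_nonneg fun i => v.val.nonneg _
  have h0 : 0 ≤ (⨆ i, v (x i)) ^ a := pow_nonneg (Real.iSup_nonneg fun i => v.val.nonneg _) _
  have h1 : 0 ≤ ∏ i, (⨆ l, v (y i l)) ^ d i :=
    Finset.prod_nonneg fun i _ => pow_nonneg (Real.iSup_nonneg fun l => v.val.nonneg _) _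
  rw [A0_val]
  refine A0_ultra v _ _ (mul_nonneg hB (mul_nonneg h0 h1)) fun μ hμ => ?_
  rw [map_mul, ← mul_assoc]
  refine mul_le_mul (A0_form (hF.1 μ) v hB (fun ν hν => ?_) x) (A0_mon v.val d y μ (hF.2 μ hμ)) (v.val.nonneg _)
    (mul_nonneg hB h0)
  exact le_ciSup (f := fun w => v (A0_vec F w)) (Set.finite_range _).bddAbove
    (some ⟨(μ, ν), Finset.mem_product.2 ⟨hμ, Finset.mem_biUnion.2 ⟨μ, hμ, hν⟩⟩⟩)

theorem A0_ub {K : Type u} [Field K] [NumberField K] {N q m : ℕ} {F : Fm K N q m} {a : ℕ} {d : Fin q → ℕ}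
    (hF : Mh F a d) :
    ∃ C : ℝ, ∀ (S : Finset (FinitePlace K)) (x : Fin (N + 1) → K) (y : Fin q → Fin (m + 1) → K), x ≠ 0 →
      (∀ i, y i ≠ 0) → val F x y ≠ 0 →
      mF a d F S x y ≤ a * logHeight x + ∑ j, (d j : ℝ) * logHeight (y j) + C := by
  have hz : A0_vec F ≠ 0 := fun h => one_ne_zero (α := K) (congrFun h none)
  refine ⟨∑ᶠ v : FinitePlace K, Real.log (⨆ w, v (A0_vec F w)), fun S x y hx hy hF0 => ?_⟩
  have h1 : ∀ v : FinitePlace K, 1 ≤ ⨆ w, v (A0_vec F w) := by
    intro v
    have h2 := le_ciSup (f := fun w => v (A0_vec F w)) (Set.finite_range _).bddAbove none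
    have h3 : v (A0_vec F none) = 1 := map_one v
    rw [← h3]
    exact h2
  have h4 : ∀ v : FinitePlace K, 0 ≤ lamF a d F v.val x y + Real.log (⨆ w, v (A0_vec F w)) := by
    intro v
    have hc : 0 < ⨆ w, v (A0_vec F w) := lt_of_lt_of_le one_pos (h1 v)
    have hX : 0 < ⨆ i, v (x i) := A0_pos v.val hx
    have hY : ∀ i, 0 < ⨆ l, v (y i l) := fun i => A0_pos v.val (hy i)
    have hp : 0 < v (val F x y) := v.val.pos hF0
    have h5 := Real.log_le_log hp (A0_le hF v x y)
    have h6 : (∏ i, (⨆ l, v (y i l)) ^ d i) ≠ 0 := (Finset.prod_pos fun i _ => pow_pos (hY i) _).ne'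
    rw [Real.log_mul hc.ne' (mul_ne_zero (pow_pos hX _).ne' h6), Real.log_mul (pow_pos hX _).ne' h6, Real.log_pow,
      Real.log_prod fun i _ => (pow_pos (hY i) _).ne'] at h5
    have h7 : ∑ i, Real.log ((⨆ l, v (y i l)) ^ d i) = ∑ j, (d j : ℝ) * Real.log (⨆ l, v (y j l)) :=
      Finset.sum_congr rfl fun i _ => Real.log_pow _ _
    rw [h7] at h5
    have h8 : lamF a d F v.val x y = a * Real.log (⨆ i, v (x i)) + ∑ j, (d j : ℝ) * Real.log (⨆ l, v (y j l)) -
        Real.log (v (val F x y)) := rfl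
    rw [h8]
    linarith
  have h9 := A0_part (A0_supp F a d hx hy hF0) (by
    have h10 := A0_fin' hz 1
    simp only [one_mul] at h10
    exact h10) (fun v => Real.log_nonneg (h1 v)) h4 S
  rw [A0_prod F a d hx hy hF0]
  unfold mF
  linarith

theorem A0_lb {K : Type u} [Field K] [NumberField K] {N q m : ℕ} {F : Fm K N q m} {a : ℕ} {d : Fin q → ℕ}
    (S : Finset (FinitePlace K)) {x : Fin (N + 1) → K} {y : Fin q → Fin (m + 1) → K} (hx : x ≠ 0)
    (hy : ∀ i, y i ≠ 0) (hF0 : val F x y ≠ 0) (hS : ∀ v ∉ S, lamF a d F v.val x y ≤ 0) :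
    a * logHeight x + ∑ j, (d j : ℝ) * logHeight (y j) ≤ mF a d F S x y := by
  classical
  rw [A0_prod F a d hx hy hF0]
  unfold mF
  have s3 := A0_supp F a d hx hy hF0
  have h1 : ∑ᶠ v : FinitePlace K, lamF a d F v.val x y ≤ ∑ v ∈ S, lamF a d F v.val x y := by
    rw [finsum_eq_sum_of_support_subset _ (s := S ∪ s3.toFinset) (by
      intro v hv
      simp only [Finset.coe_union, Set.Finite.coe_toFinset, Set.mem_union]
      exact Or.inr hv)]
    have h2 := Finset.sum_sdiff (f := fun v : FinitePlace K => lamF a d F v.val x y)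
      (Finset.subset_union_left (s₁ := S) (s₂ := s3.toFinset))
    rw [← h2]
    have h3 : ∑ v ∈ (S ∪ s3.toFinset) \ S, lamF a d F v.val x y ≤ 0 :=
      Finset.sum_nonpos fun v hv => hS v (Finset.mem_sdiff.1 hv).2
    linarith
  linarith

end UTH
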