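import Pool.Agent.Lib.MP_17a322_ntTD.S1
import Pool.Agent.Lib.MP_17a322_ntTH.Defs

/-!
Leaf A1: the dimensions of the forms which vanish to order `j` along `f = 0`, over `Ω` and over `k`.

PROOF. Copy of `UTD.S1_ord`: `g ^ j = C (u ^ j) * map (f ^ j)`, so `span {g ^ j} = span {map (algebraMap k Ω) (f ^ j)}` (unit), then
`S1_le`, `S1_MH`, `S1_sat`, `S1_fd`.
-/

set_option autoImplicit false

universe u

namespace UTH

open MvPolynomial UTA UTD UTC

theorem A1_ord {k : Type u} [Field k] {q m κ : ℕ} {Ω : Type u} [Field Ω] [Algebra k Ω]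
    (h : Fin κ → MvPolynomial (Fin q × Fin (m + 1)) k) (M : Fin q → ℕ)
    (f : MvPolynomial (Fin q × Fin (m + 1)) k) {g : MvPolynomial (Fin q × Fin (m + 1)) Ω} {u : Ω} (hu : u ≠ 0)
    (hg : g = C u * map (algebraMap k Ω) f) (j : ℕ) : ordF (IΩ h Ω) M g j ≤ ordF (Ik h) M f j := by
  refine S1_le h _ _ (fun f' hf π => ⟨S1_MH π hf.1, ?_⟩) (S1_fd h M _ inf_le_left)
  have h1 := hf.2
  have h2 : Ideal.span {g ^ j} = Ideal.span {map (algebraMap k Ω) (f ^ j)} := by
    rw [hg, mul_pow, map_pow]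
    exact Ideal.span_singleton_mul_left_unit (((isUnit_iff_ne_zero.2 hu).map C).pow j) _
  change f' ∈ sat (IΩ h Ω ⊔ Ideal.span {g ^ j}) at h1
  rw [h2] at h1
  exact S1_sat h _ π h1

end UTH
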