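import Pool.Agent.Lib.MP_17a322_ntTC.J5
import Pool.Agent.Lib.MP_17a322_ntTH.Defs

/-!
Leaf A2: regularity of the forms `f i` over `k`.

PROOF. Copy of `UTC.K5_reg` (and of `UTA.J5_mem`, whose proof appends the `X (j, 0)` to the list of the equations and uses
`B1_mem`; here append the `f j`, `j ∈ J`: `Ik h ⊔ span (f '' J) = Ik h'`, `IΩ h Ω ⊔ span (map f '' J) = IΩ h' Ω`). The `g j` and the
`map (f j)` differ by the units `C (u j)`: the spans are equal.
-/

set_option autoImplicit false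

universe u

namespace UTH

open MvPolynomial UTA UTD UTC

private theorem A2_append {k : Type u} [Field k] {q m κ s : ℕ}
    (h : Fin κ → MvPolynomial (Fin q × Fin (m + 1)) k)
    (f : Fin s → MvPolynomial (Fin q × Fin (m + 1)) k) (J : Finset (Fin s)) :
    ∃ (κ' : ℕ) (h' : Fin κ' → MvPolynomial (Fin q × Fin (m + 1)) k),
      Set.range h' = Set.range h ∪ f '' (J : Set (Fin s)) := by
  have h1 : (Set.range h ∪ f '' (J : Set (Fin s)) :
      Set (MvPolynomial (Fin q × Fin (m + 1)) k)).Finite :=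
    (Set.finite_range h).union (J.finite_toSet.image _)
  obtain ⟨κ', h', h2⟩ := h1.fin_param
  exact ⟨κ', h', h2.2⟩

private theorem A2_mem {k : Type u} [Field k] {q m κ s : ℕ} (h : Fin κ → MvPolynomial (Fin q × Fin (m + 1)) k)
    (Ω : Type u) [Field Ω] [Algebra k Ω] (f : Fin s → MvPolynomial (Fin q × Fin (m + 1)) k)
    (J : Finset (Fin s)) (p : MvPolynomial (Fin q × Fin (m + 1)) k) :
    map (algebraMap k Ω) p ∈
        IΩ h Ω ⊔ Ideal.span ((fun j => map (algebraMap k Ω) (f j)) '' (J : Set (Fin s))) ↔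
      p ∈ Ik h ⊔ Ideal.span (f '' (J : Set (Fin s))) := by
  obtain ⟨κ', h', h1⟩ := A2_append h f J
  have h2 : Ik h' = Ik h ⊔ Ideal.span (f '' (J : Set (Fin s))) := by
    rw [Ik, Ik, ← Ideal.span_union, h1]
  have h3 : IΩ h' Ω =
      IΩ h Ω ⊔ Ideal.span ((fun j => map (algebraMap k Ω) (f j)) '' (J : Set (Fin s))) := by
    have h4 : (Set.range fun j => map (algebraMap k Ω) (h' j)) =
        (Set.range fun j => map (algebraMap k Ω) (h j)) ∪
          (fun j => map (algebraMap k Ω) (f j)) '' (J : Set (Fin s)) := by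
      have h5 : (Set.range fun j => map (algebraMap k Ω) (h' j)) =
          (map (algebraMap k Ω)) '' (Set.range h') := Set.range_comp _ _
      have h6 : (Set.range fun j => map (algebraMap k Ω) (h j)) =
          (map (algebraMap k Ω)) '' (Set.range h) := Set.range_comp _ _
      rw [h5, h1, Set.image_union, ← h6, Set.image_image]
    rw [IΩ, IΩ, ← Ideal.span_union, h4]
  rw [← h2, ← h3]
  exact B1_mem h' p

private theorem A2_span {k : Type u} [Field k] {q m s : ℕ} (Ω : Type u) [Field Ω] [Algebra k Ω]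
    (f : Fin s → MvPolynomial (Fin q × Fin (m + 1)) k)
    (g : Fin s → MvPolynomial (Fin q × Fin (m + 1)) Ω) (u : Fin s → Ω) (hu : ∀ i, u i ≠ 0)
    (hg : ∀ i, g i = C (u i) * map (algebraMap k Ω) (f i)) (J : Finset (Fin s)) :
    Ideal.span ((fun j => g j) '' (J : Set (Fin s))) =
      Ideal.span ((fun j => map (algebraMap k Ω) (f j)) '' (J : Set (Fin s))) := by
  refine le_antisymm (Ideal.span_le.2 ?_) (Ideal.span_le.2 ?_)
  · rintro _ ⟨j, hj, rfl⟩
    change g j ∈ _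
    rw [hg j]
    exact Ideal.mul_mem_left _ _ (Ideal.subset_span ⟨j, hj, rfl⟩)
  · rintro _ ⟨j, hj, rfl⟩
    have h1 : map (algebraMap k Ω) (f j) = C (u j)⁻¹ * g j := by
      rw [hg j, ← mul_assoc, ← C_mul, inv_mul_cancel₀ (hu j), C_1, one_mul]
    change map (algebraMap k Ω) (f j) ∈ _
    rw [h1]
    exact Ideal.mul_mem_left _ _ (Ideal.subset_span ⟨j, hj, rfl⟩)

theorem A2_reg {k : Type u} [Field k] {q m κ s : ℕ} (h : Fin κ → MvPolynomial (Fin q × Fin (m + 1)) k)
    (Ω : Type u) [Field Ω] [Algebra k Ω] (Q : Finset (Fin s)) (f : Fin s → MvPolynomial (Fin q × Fin (m + 1)) k)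
    (g : Fin s → MvPolynomial (Fin q × Fin (m + 1)) Ω) (u : Fin s → Ω) (hu : ∀ i, u i ≠ 0)
    (hg : ∀ i, g i = C (u i) * map (algebraMap k Ω) (f i))
    (hreg : ∀ J : Finset (Fin s), J ⊆ Q → ∀ i ∈ Q, i ∉ J → ∀ p : MvPolynomial (Fin q × Fin (m + 1)) Ω,
      g i * p ∈ sat (IΩ h Ω ⊔ Ideal.span ((fun j => g j) '' (J : Set (Fin s)))) →
      p ∈ sat (IΩ h Ω ⊔ Ideal.span ((fun j => g j) '' (J : Set (Fin s)))))
    (lam : Fin q → Fin (m + 1)) :
    RegQ (gc (Ik h) lam) (fun i => Ideal.Quotient.mk (Ik h) (f i)) Q := by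
  intro J i hJ hi hiJ p hp
  obtain ⟨p, rfl⟩ := Ideal.Quotient.mk_surjective p
  have e1 : Ideal.span ((fun i => Ideal.Quotient.mk (Ik h) (f i)) '' (J : Set (Fin s))) =
      Ideal.map (Ideal.Quotient.mk (Ik h)) (Ideal.span (f '' (J : Set (Fin s)))) := by
    rw [Ideal.map_span, Set.image_image]
  have e2 := A2_span Ω f g u hu hg J
  rw [e1, ← map_mul, Ideal.mem_quotient_iff_mem_sup, sup_comm] at hp
  have h1 := (A2_mem h Ω f J _).2 hp
  rw [map_mul, ← e2] at h1
  have h2 : g i * map (algebraMap k Ω) p ∈ IΩ h Ω ⊔ Ideal.span ((fun j => g j) '' (J : Set (Fin s))) := by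
    rw [hg i, mul_assoc]
    exact Ideal.mul_mem_left _ _ h1
  obtain ⟨c, hc⟩ := hreg J hJ i hi hiJ _ (fun _ => ⟨0, by rw [pow_zero, one_mul]; exact h2⟩) lam
  refine ⟨c, ?_⟩
  rw [e1, ← map_pow, ← map_mul, Ideal.mem_quotient_iff_mem_sup, sup_comm]
  refine (A2_mem h Ω f J _).1 ?_
  rw [map_mul, map_pow, map_prod, ← e2]
  simp only [map_X]
  exact hc

end UTH
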