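import Pool.Agent.Lib.MP_17a322_ntTC.J6
import Pool.Agent.Lib.MP_17a322_ntTH.Defs

/-!
Leaf A3: from membership in a weighted monomial ideal in the `f i` to an identity between multihomogeneous polynomials.

PROOF. Copy of `UTA.J6_hom` (ntTC/J6) with `f i` of multidegree `δ i` in place of `X (i, 0)` (of multidegree `e_i`), `Fin s → ℕ` for the
exponents `a`; `∏ i, f i ^ a i` has multidegree `∑ i, a i • δ i` (copy of `J6_deg`).
-/

set_option autoImplicit false

universe u

namespace UTH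

open MvPolynomial UTA UTD UTC

private def A3_w (q m : ℕ) : Fin q × Fin (m + 1) → (Fin q → ℕ) := fun z => Pi.single z.1 1

private theorem A3_weight {q m : ℕ} (μ : Fin q × Fin (m + 1) →₀ ℕ) :
    Finsupp.weight (A3_w q m) μ = fun i => ∑ l, μ (i, l) := by
  funext i
  rw [Finsupp.weight_apply, Finsupp.sum_fintype μ (fun z c => c • A3_w q m z) (fun z => zero_smul ℕ (A3_w q m z)),
    Finset.sum_apply, Fintype.sum_prod_type, Finset.sum_eq_single i]
  · refine Finset.sum_congr rfl fun l _ => ?_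
    simp [A3_w]
  · intro b _ hb
    refine Finset.sum_eq_zero fun l _ => ?_
    simp [A3_w, Ne.symm hb]
  · intro h
    exact absurd (Finset.mem_univ i) h

private theorem A3_mem {k : Type u} [Field k] {q m : ℕ} {M : Fin q → ℕ} {f : MvPolynomial (Fin q × Fin (m + 1)) k} :
    f ∈ MH k m M ↔ f ∈ weightedHomogeneousSubmodule k (A3_w q m) M := by
  rw [mem_weightedHomogeneousSubmodule]
  constructor
  · intro h d hd
    rw [A3_weight]
    funext i
    exact h d (mem_support_iff.2 hd) i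
  · intro h μ hμ i
    have h1 := h (mem_support_iff.1 hμ)
    rw [A3_weight] at h1
    exact congrFun h1 i

/-- The degree of a monomial in the `f i`. -/
private theorem A3_deg {k : Type u} [Field k] {q m s : ℕ} {f : Fin s → MvPolynomial (Fin q × Fin (m + 1)) k}
    {δ : Fin s → Fin q → ℕ} (hf : ∀ i, f i ∈ MH k m (δ i)) (a : Fin s → ℕ) :
    (∏ i, f i ^ a i) ∈ weightedHomogeneousSubmodule k (A3_w q m) (fun j => ∑ i, a i * δ i j) := by
  rw [mem_weightedHomogeneousSubmodule]
  have h1 : ∀ i : Fin s, IsWeightedHomogeneous (A3_w q m) (f i) (δ i) := fun i =>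
    (mem_weightedHomogeneousSubmodule k (A3_w q m) (δ i) (f i)).1 (A3_mem.1 (hf i))
  have h2 := IsWeightedHomogeneous.prod Finset.univ (fun i : Fin s => f i ^ a i)
    (fun i => a i • δ i) fun i _ => (h1 i).pow (a i)
  have h3 : ∑ i, a i • δ i = fun j => ∑ i, a i * δ i j := by
    funext j
    rw [Finset.sum_apply]
    rfl
  rwa [h3] at h2

private theorem A3_span {k : Type u} [Field k] {q m κ s : ℕ} {h : Fin κ → MvPolynomial (Fin q × Fin (m + 1)) k}
    (f : Fin s → MvPolynomial (Fin q × Fin (m + 1)) k) (t : Fin s → ℕ) {x : ℕ}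
    {z : MvPolynomial (Fin q × Fin (m + 1)) k ⧸ Ik h}
    (hz : z ∈ wid (fun i => Ideal.Quotient.mk (Ik h) (f i)) t Finset.univ x) :
    ∃ (A : Finset (Fin s → ℕ)) (G : (Fin s → ℕ) → MvPolynomial (Fin q × Fin (m + 1)) k),
      (∀ a ∈ A, x ≤ ∑ i, t i * a i) ∧
      z = Ideal.Quotient.mk (Ik h) (∑ a ∈ A, (∏ i, f i ^ a i) * G a) := by
  classical
  unfold wid at hz
  induction hz using Submodule.span_induction with
  | mem y hy =>
    obtain ⟨a, -, h2, rfl⟩ := hy
    refine ⟨{a}, fun _ => 1, fun b hb => by rw [Finset.mem_singleton.1 hb]; exact h2, ?_⟩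
    rw [Finset.sum_singleton, mul_one, map_prod]
    exact Finset.prod_congr rfl fun i _ => (map_pow _ _ _).symm
  | zero => exact ⟨∅, fun _ => 0, fun b hb => absurd hb (Finset.notMem_empty b), by simp⟩
  | add y z _ _ hy hz =>
    obtain ⟨A, G, hA, rfl⟩ := hy
    obtain ⟨B, G', hB, rfl⟩ := hz
    refine ⟨A ∪ B, fun a => (if a ∈ A then G a else 0) + if a ∈ B then G' a else 0, fun a ha => ?_, ?_⟩
    · rcases Finset.mem_union.1 ha with h1 | h1
      · exact hA a h1
      · exact hB a h1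
    · rw [← map_add]
      congr 1
      simp only [mul_add, Finset.sum_add_distrib]
      congr 1
      · rw [← Finset.sum_subset (Finset.subset_union_left (s₁ := A) (s₂ := B)) fun a _ ha => by rw [if_neg ha, mul_zero]]
        exact Finset.sum_congr rfl fun a ha => by rw [if_pos ha]
      · rw [← Finset.sum_subset (Finset.subset_union_right (s₁ := A) (s₂ := B)) fun a _ ha => by rw [if_neg ha, mul_zero]]
        exact Finset.sum_congr rfl fun a ha => by rw [if_pos ha]
  | smul c y _ hy =>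
    obtain ⟨A, G, hA, rfl⟩ := hy
    obtain ⟨c, rfl⟩ := Ideal.Quotient.mk_surjective c
    refine ⟨A, fun a => c * G a, hA, ?_⟩
    rw [smul_eq_mul, ← map_mul, Finset.mul_sum]
    congr 1
    exact Finset.sum_congr rfl fun a _ => by ring

theorem A3_hom {k : Type u} [Field k] {q m κ s : ℕ} {h : Fin κ → MvPolynomial (Fin q × Fin (m + 1)) k}
    (hh : ∀ j, ∃ d, h j ∈ MH k m d) {f : Fin s → MvPolynomial (Fin q × Fin (m + 1)) k} {δ : Fin s → Fin q → ℕ}
    (hf : ∀ i, f i ∈ MH k m (δ i)) (t : Fin s → ℕ) {x : ℕ} {M : Fin q → ℕ}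
    {F : MvPolynomial (Fin q × Fin (m + 1)) k} (hF : F ∈ MH k m M)
    (hw : Ideal.Quotient.mk (Ik h) F ∈ wid (fun i => Ideal.Quotient.mk (Ik h) (f i)) t Finset.univ x) :
    ∃ (A : Finset (Fin s → ℕ)) (G : (Fin s → ℕ) → MvPolynomial (Fin q × Fin (m + 1)) k),
      (∀ a ∈ A, (∀ j, ∑ i, a i * δ i j ≤ M j) ∧ x ≤ ∑ i, t i * a i ∧
        G a ∈ MH k m fun j => M j - ∑ i, a i * δ i j) ∧
      F - ∑ a ∈ A, (∏ i, f i ^ a i) * G a ∈ Ik h := by
  classical
  let _ : GradedAlgebra (weightedHomogeneousSubmodule k (A3_w q m)) := weightedGradedAlgebra k (A3_w q m)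
  have hI : (Ik h).IsHomogeneous (weightedHomogeneousSubmodule k (A3_w q m)) := by
    refine Ideal.homogeneous_span _ _ ?_
    rintro _ ⟨j, rfl⟩
    obtain ⟨d, hd⟩ := hh j
    exact ⟨d, A3_mem.1 hd⟩
  obtain ⟨A, G, hA, hz⟩ := A3_span f t hw
  have h1 := hI M (Ideal.Quotient.eq.1 hz)
  refine ⟨A.filter fun a => (fun j => ∑ i, a i * δ i j) ≤ M,
    fun a => DirectSum.decompose (weightedHomogeneousSubmodule k (A3_w q m)) (G a) (M - fun j => ∑ i, a i * δ i j),
    fun a ha => ⟨fun j => (Finset.mem_filter.1 ha).2 j, hA a (Finset.mem_filter.1 ha).1, A3_mem.2 (SetLike.coe_mem _)⟩, ?_⟩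
  have h2 : (DirectSum.decompose (weightedHomogeneousSubmodule k (A3_w q m))
      (F - ∑ a ∈ A, (∏ i, f i ^ a i) * G a) M : MvPolynomial (Fin q × Fin (m + 1)) k) =
      F - ∑ a ∈ A.filter fun a => (fun j => ∑ i, a i * δ i j) ≤ M, (∏ i, f i ^ a i) *
        (DirectSum.decompose (weightedHomogeneousSubmodule k (A3_w q m)) (G a)
          (M - fun j => ∑ i, a i * δ i j) : MvPolynomial (Fin q × Fin (m + 1)) k) := by
    rw [DirectSum.decompose_sub, DirectSum.sub_apply, AddSubgroupClass.coe_sub,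
      DirectSum.decompose_of_mem_same _ (A3_mem.1 hF), DirectSum.decompose_sum, DFinsupp.finsetSum_apply,
      AddSubmonoidClass.coe_finsetSum, Finset.sum_filter]
    congr 1
    refine Finset.sum_congr rfl fun a _ => ?_
    split_ifs with ha
    · exact DirectSum.coe_decompose_mul_of_left_mem_of_le _ (A3_deg hf a) ha
    · exact DirectSum.coe_decompose_mul_of_left_mem_of_not_le _ (A3_deg hf a) ha
  rw [← h2]
  exact h1

end UTH
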