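import Pool.Agent.Lib.MP_17a322_ntTA.C2
import Pool.Agent.Lib.MP_17a322_ntTH.Defs

/-!
Leaf A5: `C2_down` with the explicit unit `x b₀ ^ a`.

PROOF. The proof of `UTA.C2_down` (ntTA/C2) gives it: copy it (with its private lemmas `C2_coeff`, `C2_mem`, `C2_kx`).
-/

set_option autoImplicit false

universe u

namespace UTH

open MvPolynomial UTA UTD UTC

private theorem A5_coeff {R σ : Type*} [CommSemiring R] (s : Finset (σ →₀ ℕ)) (b : (σ →₀ ℕ) → R) (ν : σ →₀ ℕ) [Decidable (ν ∈ s)] :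
    coeff ν (∑ μ ∈ s, monomial μ (b μ)) = if ν ∈ s then b ν else 0 := by
  classical
  rw [coeff_sum]
  simp only [coeff_monomial]
  rw [Finset.sum_ite_eq' s ν b]
  by_cases h : ν ∈ s
  · rw [if_pos h, if_pos h]
  · rw [if_neg h, if_neg h]

private theorem A5_mem {R : Type*} [CommSemiring R] {q m : ℕ} {M : Fin q → ℕ} (s : Finset (Fin q × Fin (m + 1) →₀ ℕ))
    (b : (Fin q × Fin (m + 1) →₀ ℕ) → R) (hs : ∀ μ ∈ s, ∀ i, ∑ l, μ (i, l) = M i) :
    (∑ μ ∈ s, monomial μ (b μ)) ∈ MH R m M := by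
  classical
  refine Submodule.sum_mem _ fun μ hμ => ?_
  intro μ' hμ' i
  have h : μ' = μ := by
    by_contra hne
    rw [mem_support_iff, coeff_monomial, if_neg (Ne.symm hne)] at hμ'
    exact hμ' rfl
  rw [h]
  exact hs μ hμ i

private theorem A5_kx {K : Type u} [Field K] {N : ℕ} {Ω : Type u} [Field Ω] [Algebra K Ω] {x : Fin (N + 1) → Ω}
    (b₀ : Fin (N + 1)) {g : MvPolynomial (Fin (N + 1)) K} {a : ℕ} (hg : g.IsHomogeneous a) :
    aeval x g / x b₀ ^ a ∈ kx K x := by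
  classical
  have h1 : aeval x g / x b₀ ^ a = ∑ d ∈ g.support, algebraMap K Ω (coeff d g) * ∏ i, (x i / x b₀) ^ d i := by
    rw [aeval_def, eval₂_eq', Finset.sum_div]
    refine Finset.sum_congr rfl fun d hd => ?_
    have h2 : ∑ i, d i = a := by
      have h3 := hg (mem_support_iff.1 hd)
      rw [Finsupp.weight_apply, Finsupp.sum_fintype _ _ (fun i => by simp)] at h3
      simpa using h3
    simp only [div_pow]
    rw [Finset.prod_div_distrib, Finset.prod_pow_eq_pow_sum, h2, mul_div_assoc]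
  rw [h1]
  refine sum_mem fun d _ => mul_mem ((kx K x).algebraMap_mem _) (prod_mem fun i _ => pow_mem ?_ _)
  exact IntermediateField.subset_adjoin K _ ⟨(i, b₀), rfl⟩

theorem A5_down {K : Type u} [Field K] {N q m : ℕ} {Ω : Type u} [Field Ω] [Algebra K Ω]
    {x : Fin (N + 1) → Ω} {b₀ : Fin (N + 1)} (hb : x b₀ ≠ 0) {H : Fm K N q m} {a : ℕ} {d : Fin q → ℕ}
    (hH : Mh H a d) :
    ∃ h : MvPolynomial (Fin q × Fin (m + 1)) (kx K x), h ∈ MH (kx K x) m d ∧
      sp H x = C (x b₀ ^ a) * map (algebraMap (kx K x) Ω) h := by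
  classical
  have hu : x b₀ ^ a ≠ 0 := pow_ne_zero _ hb
  refine ⟨∑ μ ∈ H.support, monomial μ (⟨aeval x (coeff μ H) / x b₀ ^ a, A5_kx b₀ (hH.1 μ)⟩ : kx K x), ?_, ?_⟩
  · exact A5_mem _ _ fun μ hμ i => hH.2 μ hμ i
  · ext μ
    unfold sp
    rw [coeff_map, coeff_C_mul, coeff_map, A5_coeff]
    by_cases h : μ ∈ H.support
    · rw [if_pos h]
      change aeval x (coeff μ H) = x b₀ ^ a * (aeval x (coeff μ H) / x b₀ ^ a)
      rw [mul_div_cancel₀ _ hu]
    · rw [if_neg h, map_zero, notMem_support_iff.1 h, map_zero, mul_zero]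

end UTH
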