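import Pool.Agent.Lib.MP_17a322_ntTA.D0
import Pool.Agent.Lib.MP_17a322_ntTA.E1
import Pool.Agent.Lib.MP_17a322_ntTH.Defs

/-!
Leaf A7: the local estimates of the joint bases.

PROOF. Copy of `UTD.V3_est` (ntTD/V3: `V3_aux`, `V3_loc`, `V3_det`, `V3_est`) with `val (F i) x y` in place of `y i 0`. For a place `v`
let `c ≥ 0` be such that `lamF (α i) (δ i) (F i) v x y + c ≥ 0` for all `i` and all `x ≠ 0`, `y` with `y j 0 ≠ 0`, `val (F i) x y ≠ 0` (`D0_bd`), and put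
`μ i = lamF .. + c ≥ 0`. In `V3_aux`: `v (val (F i) x y) = (⨆ v x) ^ α i * ∏ j, (⨆ v y_j) ^ δ i j * exp (c - μ i)`, so the term of `a ∈ Ex` is at most
`C_a * (⨆ v x) ^ D * ∏ j (⨆ v y_j) ^ (M j + E) * exp (c * ∑ a i) * exp (- z Δ)` if `t i * Δ ≤ μ i` for all `i` (`t i = 0` for `i ∉ Q`); the
`exp (c * ∑ a i)` goes into the constant. Apply `hB` to `μ` (it is `≥ 0`): `∑ i ∈ Q, (W i - η) * μ i ≤ Δ * ∑ t i * W i`, and
`∑ i ∈ Q, W' i * lamF_i ≤ ∑ i ∈ Q, W i * μ i ≤ Δ * ∑ t i * W i + η * ∑ i, μ i` (`c ≥ 0`, `0 ≤ W' i ≤ W i`, `μ i ≥ 0`), and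
`∑ i, μ i = ∑ i, lamF_i + s * c`.
-/

set_option autoImplicit false

universe u

namespace UTH

open MvPolynomial UTA UTD UTC
open Pool.Agent.Lib.MP_17a322_nt.VA Pool.Agent.Lib.MP_17a322_nt.SL

private theorem A7_v {K : Type u} [Field K] {N q m : ℕ} (a : ℕ) (d : Fin q → ℕ) (F : Fm K N q m)
    (v : AbsoluteValue K ℝ) (x : Fin (N + 1) → K) (y : Fin q → Fin (m + 1) → K)
    (hx : 0 < ⨆ i, v (x i)) (hy : ∀ j, 0 < ⨆ l, v (y j l)) (hF : val F x y ≠ 0) :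
    v (val F x y) = (⨆ i, v (x i)) ^ a * (∏ j, (⨆ l, v (y j l)) ^ d j) * Real.exp (-lamF a d F v x y) := by
  have h1 : 0 < ∏ j, (⨆ l, v (y j l)) ^ d j := Finset.prod_pos fun j _ => pow_pos (hy j) _
  have h2 : 0 < (⨆ i, v (x i)) ^ a := pow_pos hx _
  have h3 : 0 < v (val F x y) := (AbsoluteValue.pos_iff v).2 hF
  have h4 : -lamF a d F v x y =
      Real.log (v (val F x y)) - Real.log ((⨆ i, v (x i)) ^ a * ∏ j, (⨆ l, v (y j l)) ^ d j) := by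
    rw [Real.log_mul h2.ne' h1.ne', Real.log_pow, Real.log_prod (fun j _ => (pow_pos (hy j) _).ne')]
    simp only [Real.log_pow]
    unfold lamF
    ring
  rw [h4, Real.exp_sub, Real.exp_log h3, Real.exp_log (mul_pos h2 h1), mul_div_cancel₀ _ (mul_pos h2 h1).ne']

private theorem A7_prod {K : Type u} [Field K] {N q m s : ℕ} (F : Fin s → Fm K N q m) (α : Fin s → ℕ)
    (δ : Fin s → Fin q → ℕ) (a : Fin s → ℕ)
    (v : AbsoluteValue K ℝ) (x : Fin (N + 1) → K) (y : Fin q → Fin (m + 1) → K)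
    (hx : 0 < ⨆ i, v (x i)) (hy : ∀ j, 0 < ⨆ l, v (y j l)) (hF : ∀ i, val (F i) x y ≠ 0) :
    v (∏ i, val (F i) x y ^ a i) = (⨆ i, v (x i)) ^ (∑ i, a i * α i) *
      (∏ j, (⨆ l, v (y j l)) ^ (∑ i, a i * δ i j)) *
        Real.exp (-∑ i, a i * lamF (α i) (δ i) (F i) v x y) := by
  rw [map_prod, ← Finset.sum_neg_distrib, Real.exp_sum]
  have h1 : ∀ i, v (val (F i) x y ^ a i) = (⨆ i, v (x i)) ^ (a i * α i) *
      (∏ j, (⨆ l, v (y j l)) ^ (a i * δ i j)) * Real.exp (-(a i * lamF (α i) (δ i) (F i) v x y)) := by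
    intro i
    rw [map_pow, A7_v (α i) (δ i) (F i) v x y hx hy (hF i), mul_pow, mul_pow, ← pow_mul, ← Finset.prod_pow,
      ← mul_neg, Real.exp_nat_mul, mul_comm (α i)]
    congr 2
    exact Finset.prod_congr rfl fun j _ => by rw [← pow_mul, mul_comm]
  rw [Finset.prod_congr rfl fun i _ => h1 i, Finset.prod_mul_distrib, Finset.prod_mul_distrib,
    Finset.prod_pow_eq_pow_sum, Finset.prod_comm]
  congr 2
  exact Finset.prod_congr rfl fun j _ => Finset.prod_pow_eq_pow_sum _ _ _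

private theorem A7_aux {K : Type u} [Field K] {N q m s : ℕ} (v : AbsoluteValue K ℝ) (D E z : ℕ) (M : Fin q → ℕ)
    (F : Fin s → Fm K N q m) (α : Fin s → ℕ) (δ : Fin s → Fin q → ℕ) (t : Fin s → ℕ)
    (S : Finset (Fin s → ℕ)) (G : (Fin s → ℕ) → Fm K N q m) (c : ℝ)
    (hG : ∀ a ∈ S, (∀ j, ∑ i, a i * δ i j ≤ M j + E) ∧ (∑ i, a i * α i ≤ D) ∧ z ≤ ∑ i, t i * a i ∧
      Mh (G a) (D - ∑ i, a i * α i) (fun j => M j + E - ∑ i, a i * δ i j)) :
    ∃ C : ℝ, ∀ (x : Fin (N + 1) → K) (y : Fin q → Fin (m + 1) → K) (u : Fin q → Fin (m + 1)) (w : K),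
      w ≠ 0 → (0 < ⨆ a, v (x a)) → (∀ i, y i 0 ≠ 0) → (∀ i, val (F i) x y ≠ 0) →
      (∀ i l, v (y i l) ≤ v (y i (u i))) →
      (∏ i, y i (u i)) ^ E * w = ∑ a ∈ S, (∏ i, val (F i) x y ^ a i) * val (G a) x y →
      ∀ Δ : ℝ, 0 ≤ Δ → (∀ i, t i * Δ ≤ lamF (α i) (δ i) (F i) v x y + c) →
        z * Δ ≤ ∑ j, M j * Real.log (⨆ l, v (y j l)) + D * Real.log (⨆ a, v (x a)) - Real.log (v w) + C := by
  classical
  have hbd : ∀ a, ∃ C : ℝ, 0 < C ∧ (a ∈ S → ∀ (x : Fin (N + 1) → K) (y : Fin q → Fin (m + 1) → K),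
      v (val (G a) x y) ≤ C * (⨆ i, v (x i)) ^ (D - ∑ i, a i * α i) *
        ∏ j, (⨆ l, v (y j l)) ^ (M j + E - ∑ i, a i * δ i j)) := by
    intro a
    by_cases ha : a ∈ S
    · obtain ⟨C, hC, h⟩ := D0_bd (hG a ha).2.2.2 v
      exact ⟨C, hC, fun _ => h⟩
    · exact ⟨1, one_pos, fun h => absurd h ha⟩
  choose C hC hC' using hbd
  refine ⟨|Real.log (∑ a ∈ S, C a * Real.exp (c * ∑ i, (a i : ℝ)))|, fun x y u w hw hX hy hFv hu hid Δ hΔ ht => ?_⟩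
  -- the largest coordinates
  have hmax : ∀ i, (⨆ l, v (y i l)) = v (y i (u i)) := fun i =>
    le_antisymm (ciSup_le (hu i)) (le_ciSup (f := fun l => v (y i l)) (Set.finite_range _).bddAbove (u i))
  have hy0 : ∀ i, 0 < v (y i 0) := fun i => (AbsoluteValue.pos_iff v).2 (hy i)
  have hS : ∀ i, 0 < ⨆ l, v (y i l) := fun i =>
    lt_of_lt_of_le (hy0 i) (le_ciSup (f := fun l => v (y i l)) (Set.finite_range _).bddAbove 0)
  have hP : 0 < ∏ i, (⨆ l, v (y i l)) ^ (M i + E) := Finset.prod_pos fun i _ => pow_pos (hS i) _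
  -- one term
  have h1 : ∀ a ∈ S, v ((∏ i, val (F i) x y ^ a i) * val (G a) x y) ≤
      (C a * Real.exp (c * ∑ i, (a i : ℝ))) *
        ((⨆ i, v (x i)) ^ D * (∏ i, (⨆ l, v (y i l)) ^ (M i + E)) * Real.exp (-(z * Δ))) := by
    intro a ha
    obtain ⟨hG1, hG2, hG3, -⟩ := hG a ha
    rw [v.map_mul, A7_prod F α δ a v x y hX hS hFv]
    have h3 : (z : ℝ) * Δ ≤ ∑ i, a i * (lamF (α i) (δ i) (F i) v x y + c) := by
      have h4 : (z : ℝ) ≤ ∑ i, (t i : ℝ) * a i := by exact_mod_cast hG3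
      refine (mul_le_mul_of_nonneg_right h4 hΔ).trans ?_
      rw [Finset.sum_mul]
      refine Finset.sum_le_sum fun i _ => ?_
      have h5 := mul_le_mul_of_nonneg_left (ht i) (Nat.cast_nonneg (a i) : (0 : ℝ) ≤ a i)
      linarith
    have h3' : ∑ i, (a i : ℝ) * (lamF (α i) (δ i) (F i) v x y + c) =
        (∑ i, (a i : ℝ) * lamF (α i) (δ i) (F i) v x y) + c * ∑ i, (a i : ℝ) := by
      rw [Finset.mul_sum, ← Finset.sum_add_distrib]
      exact Finset.sum_congr rfl fun i _ => by ring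
    have h6 : Real.exp (-∑ i, a i * lamF (α i) (δ i) (F i) v x y) ≤
        Real.exp (c * ∑ i, (a i : ℝ)) * Real.exp (-(z * Δ)) := by
      rw [← Real.exp_add]
      refine Real.exp_le_exp.2 ?_
      rw [h3'] at h3
      linarith
    have h7 : (∏ j, (⨆ l, v (y j l)) ^ (∑ i, a i * δ i j)) *
        ∏ j, (⨆ l, v (y j l)) ^ (M j + E - ∑ i, a i * δ i j) = ∏ i, (⨆ l, v (y i l)) ^ (M i + E) := by
      rw [← Finset.prod_mul_distrib]
      refine Finset.prod_congr rfl fun j _ => ?_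
      rw [← pow_add, Nat.add_sub_cancel' (hG1 j)]
    have h7' : (⨆ i, v (x i)) ^ (∑ i, a i * α i) * (⨆ i, v (x i)) ^ (D - ∑ i, a i * α i) =
        (⨆ i, v (x i)) ^ D := by
      rw [← pow_add, Nat.add_sub_cancel' hG2]
    have h8 : 0 ≤ ∏ j, (⨆ l, v (y j l)) ^ (∑ i, a i * δ i j) :=
      Finset.prod_nonneg fun i _ => pow_nonneg (hS i).le _
    have h8' : 0 ≤ (⨆ i, v (x i)) ^ (∑ i, a i * α i) := pow_nonneg hX.le _
    calc (⨆ i, v (x i)) ^ (∑ i, a i * α i) * (∏ j, (⨆ l, v (y j l)) ^ (∑ i, a i * δ i j)) *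
          Real.exp (-∑ i, a i * lamF (α i) (δ i) (F i) v x y) * v (val (G a) x y)
        ≤ (⨆ i, v (x i)) ^ (∑ i, a i * α i) * (∏ j, (⨆ l, v (y j l)) ^ (∑ i, a i * δ i j)) *
          (Real.exp (c * ∑ i, (a i : ℝ)) * Real.exp (-(z * Δ))) *
          (C a * (⨆ i, v (x i)) ^ (D - ∑ i, a i * α i) *
            ∏ j, (⨆ l, v (y j l)) ^ (M j + E - ∑ i, a i * δ i j)) :=
          mul_le_mul (mul_le_mul_of_nonneg_left h6 (mul_nonneg h8' h8)) (hC' a ha x y) (v.nonneg _)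
            (mul_nonneg (mul_nonneg h8' h8) (mul_pos (Real.exp_pos _) (Real.exp_pos _)).le)
      _ = (C a * Real.exp (c * ∑ i, (a i : ℝ))) *
          (((⨆ i, v (x i)) ^ (∑ i, a i * α i) * (⨆ i, v (x i)) ^ (D - ∑ i, a i * α i)) *
            ((∏ j, (⨆ l, v (y j l)) ^ (∑ i, a i * δ i j)) *
              ∏ j, (⨆ l, v (y j l)) ^ (M j + E - ∑ i, a i * δ i j)) * Real.exp (-(z * Δ))) := by ring
      _ = _ := by rw [h7, h7']
  -- the sum
  obtain ⟨B, hB⟩ : ∃ B : ℝ, B = ∑ a ∈ S, C a * Real.exp (c * ∑ i, (a i : ℝ)) := ⟨_, rfl⟩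
  have h9 : v w * ∏ i, (⨆ l, v (y i l)) ^ E ≤
      B * ((⨆ i, v (x i)) ^ D * (∏ i, (⨆ l, v (y i l)) ^ (M i + E)) * Real.exp (-(z * Δ))) := by
    have h10 : v ((∏ i, y i (u i)) ^ E * w) = v w * ∏ i, (⨆ l, v (y i l)) ^ E := by
      rw [v.map_mul, map_pow, map_prod, mul_comm, ← Finset.prod_pow]
      exact congrArg _ (Finset.prod_congr rfl fun i _ => by rw [hmax i])
    rw [← h10, hid, hB, Finset.sum_mul]
    exact (v.sum_le _ _).trans (Finset.sum_le_sum h1)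
  have hPE : 0 < ∏ i, (⨆ l, v (y i l)) ^ E := Finset.prod_pos fun i _ => pow_pos (hS i) _
  have hsplit : ∏ i, (⨆ l, v (y i l)) ^ (M i + E) = (∏ i, (⨆ l, v (y i l)) ^ M i) * ∏ i, (⨆ l, v (y i l)) ^ E := by
    rw [← Finset.prod_mul_distrib]
    exact Finset.prod_congr rfl fun i _ => pow_add _ _ _
  have hPM : 0 < ∏ i, (⨆ l, v (y i l)) ^ M i := Finset.prod_pos fun i _ => pow_pos (hS i) _
  have h11 : v w ≤ B * ((⨆ i, v (x i)) ^ D * (∏ i, (⨆ l, v (y i l)) ^ M i) * Real.exp (-(z * Δ))) := by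
    refine le_of_mul_le_mul_right ?_ hPE
    refine h9.trans (le_of_eq ?_)
    rw [hsplit]
    ring
  have hw0 : 0 < v w := (AbsoluteValue.pos_iff v).2 hw
  have h12 : 0 < B * ((⨆ i, v (x i)) ^ D * (∏ i, (⨆ l, v (y i l)) ^ M i) * Real.exp (-(z * Δ))) :=
    lt_of_lt_of_le hw0 h11
  have h16 : 0 < (⨆ i, v (x i)) ^ D := pow_pos hX _
  have h13 : 0 < (⨆ i, v (x i)) ^ D * (∏ i, (⨆ l, v (y i l)) ^ M i) * Real.exp (-(z * Δ)) :=
    mul_pos (mul_pos h16 hPM) (Real.exp_pos _)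
  have h14 : 0 < B := pos_of_mul_pos_left h12 h13.le
  have h17 := Real.log_le_log hw0 h11
  rw [Real.log_mul h14.ne' h13.ne', Real.log_mul (mul_pos h16 hPM).ne' (Real.exp_pos _).ne',
    Real.log_mul h16.ne' hPM.ne', Real.log_exp,
    Real.log_pow, Real.log_prod (fun i _ => (pow_pos (hS i) _).ne')] at h17
  simp only [Real.log_pow] at h17
  have h18 := le_abs_self (Real.log B)
  rw [← hB]
  linarith

/-- the local heights are bounded below -/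
private theorem A7_low {K : Type u} [Field K] {N q m s : ℕ} {F : Fin s → Fm K N q m} {α : Fin s → ℕ}
    {δ : Fin s → Fin q → ℕ} (hF : ∀ i, Mh (F i) (α i) (δ i)) (v : AbsoluteValue K ℝ) :
    ∃ c : ℝ, 0 ≤ c ∧ ∀ (x : Fin (N + 1) → K) (y : Fin q → Fin (m + 1) → K), (0 < ⨆ a, v (x a)) →
      (∀ j, 0 < ⨆ l, v (y j l)) → ∀ i, val (F i) x y ≠ 0 → 0 ≤ lamF (α i) (δ i) (F i) v x y + c := by
  choose C hC hC' using fun i => D0_bd (hF i) v
  refine ⟨∑ i, |Real.log (C i)|, Finset.sum_nonneg fun i _ => abs_nonneg _, fun x y hx hy i hi => ?_⟩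
  have h1 : 0 < ∏ j, (⨆ l, v (y j l)) ^ δ i j := Finset.prod_pos fun j _ => pow_pos (hy j) _
  have h2 : 0 < (⨆ i, v (x i)) ^ α i := pow_pos hx _
  have h3 : 0 < v (val (F i) x y) := (AbsoluteValue.pos_iff v).2 hi
  have h4 := Real.log_le_log h3 (hC' i x y)
  rw [Real.log_mul (mul_pos (hC i) h2).ne' h1.ne', Real.log_mul (hC i).ne' h2.ne', Real.log_pow,
    Real.log_prod (fun j _ => (pow_pos (hy j) _).ne')] at h4
  simp only [Real.log_pow] at h4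
  have h5 : Real.log (C i) ≤ ∑ i, |Real.log (C i)| :=
    (le_abs_self _).trans (Finset.single_le_sum (f := fun i => |Real.log (C i)|) (fun i _ => abs_nonneg _)
      (Finset.mem_univ i))
  unfold lamF
  linarith

private theorem A7_loc {K : Type u} [Field K] {N q m κ s s₀ : ℕ} {A : AV K N} {H : Fin κ → Fm K N q m}
    {F : Fin s → Fm K N q m} {α : Fin s → ℕ} {δ : Fin s → Fin q → ℕ}
    {Q : Fin s₀ → Finset (Fin s)} {M : Fin q → ℕ} {W : Fin s → ℕ} {B r : ℕ}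
    (β : BasF A H F α δ Q M W B r) (v : AbsoluteValue K ℝ) (c : ℝ) :
    ∃ C : ℝ, ∀ (P : A.Pts K) (y : Fin q → Fin (m + 1) → K), InX H (A.x P) y → aeval (A.x P) β.R ≠ 0 →
      (0 < ⨆ a, v (A.x P a)) → (∀ i, y i 0 ≠ 0) → (∀ i, val (F i) (A.x P) y ≠ 0) →
      (∀ i, 0 ≤ lamF (α i) (δ i) (F i) v (A.x P) y + c) →
      ∀ b : IndF s₀ s q m B, (∀ i, v (y i (b.2.2 i)) = ⨆ t, v (y i t)) →
      ∀ Δ : ℝ, 0 ≤ Δ → (∀ i ∈ Q b.1, (b.2.1 i : ℝ) * Δ ≤ lamF (α i) (δ i) (F i) v (A.x P) y + c) →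
      ∀ l, ∑ c, aeval (A.x P) (β.Λ b l c) * ∏ z, y z.1 z.2 ^ β.mon c z ≠ 0 →
        (β.x b l : ℝ) * Δ ≤ ∑ j, M j * Real.log (⨆ t, v (y j t)) + β.D * Real.log (⨆ a, v (A.x P a)) -
          Real.log (v (∑ c, aeval (A.x P) (β.Λ b l c) * ∏ z, y z.1 z.2 ^ β.mon c z)) + C := by
  classical
  have haux : ∀ (b : IndF s₀ s q m B) (l : Fin r), ∃ C : ℝ, ∀ (x : Fin (N + 1) → K) (y : Fin q → Fin (m + 1) → K)
      (u : Fin q → Fin (m + 1)) (w : K),
      w ≠ 0 → (0 < ⨆ a, v (x a)) → (∀ i, y i 0 ≠ 0) → (∀ i, val (F i) x y ≠ 0) →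
      (∀ i l, v (y i l) ≤ v (y i (u i))) →
      (∏ i, y i (u i)) ^ β.E b l * w = ∑ a ∈ β.Ex b l, (∏ i, val (F i) x y ^ a i) * val (β.G b l a) x y →
      ∀ Δ : ℝ, 0 ≤ Δ → (∀ i, ((if i ∈ Q b.1 then (b.2.1 i : ℕ) else 0 : ℕ) : ℝ) * Δ ≤
        lamF (α i) (δ i) (F i) v x y + c) →
        (β.x b l : ℝ) * Δ ≤ ∑ j, M j * Real.log (⨆ l, v (y j l)) + β.D * Real.log (⨆ a, v (x a)) -
          Real.log (v w) + C := by
    intro b l
    refine A7_aux v β.D (β.E b l) (β.x b l) M F α δ (fun i => if i ∈ Q b.1 then (b.2.1 i : ℕ) else 0) (β.Ex b l)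
      (β.G b l) c fun a ha => ⟨β.Ex_le b l a ha, β.Ex_x b l a ha, ?_, β.G_mh b l a ha⟩
    refine (β.Ex_w b l a ha).trans (le_of_eq ?_)
    rw [← Finset.sum_filter_add_sum_filter_not Finset.univ (fun i => i ∈ Q b.1), Finset.sum_eq_zero (s := Finset.univ.filter fun i => i ∉ Q b.1)
      (fun i hi => by rw [if_neg (Finset.mem_filter.1 hi).2, zero_mul]), add_zero, Finset.filter_mem_eq_inter, Finset.univ_inter]
    exact Finset.sum_congr rfl fun i hi => by rw [if_pos hi]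
  choose C hC using haux
  refine ⟨∑ b, ∑ l, |C b l|, fun P y hy hR hX hy0 hFv hpos b hb Δ hΔ hlam l hw => ?_⟩
  have h1 := hC b l (A.x P) y b.2.2 (∑ c, aeval (A.x P) (β.Λ b l c) * ∏ z, y z.1 z.2 ^ β.mon c z) hw hX hy0 hFv
    (fun i t => by
      rw [hb i]
      exact le_ciSup (f := fun t => v (y i t)) (Set.finite_range _).bddAbove t)
    (by
      have h2 := β.rel K P y hy.2 b l
      exact sub_eq_zero.1 ((mul_eq_zero.1 h2).resolve_left hR)) Δ hΔ (fun i => by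
      by_cases hi : i ∈ Q b.1
      · rw [if_pos hi]
        exact hlam i hi
      · rw [if_neg hi, Nat.cast_zero, zero_mul]
        exact hpos i)
  have h4 : C b l ≤ ∑ b, ∑ l, |C b l| :=
    (le_abs_self _).trans ((Finset.single_le_sum (f := fun l => |C b l|) (fun l _ => abs_nonneg _) (Finset.mem_univ l)).trans
      (Finset.single_le_sum (f := fun b => ∑ l, |C b l|) (fun b _ => Finset.sum_nonneg fun l _ => abs_nonneg _)
        (Finset.mem_univ b)))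
  linarith

private theorem A7_det {K : Type u} [Field K] {N r : ℕ} (A : AV K N)
    (Λ : Fin r → Fin r → MvPolynomial (Fin (N + 1)) K)
    (h : ∀ (L : Type u) [Field L] [Algebra K L] (P : A.Pts L), Gen A P →
      LinearIndependent L fun l t => aeval (A.x P) (Λ l t)) : (Matrix.of Λ).det ∉ A.I := by
  intro hd
  obtain ⟨L, _, _, _, P, hP⟩ := Pool.Agent.Lib.MP_17a322_nt.EF.T_gen A
  have h1 := A.x_isPt P _ hd
  rw [AlgHom.map_det] at h1
  have h4 : IsUnit ((aeval (A.x P) : MvPolynomial (Fin (N + 1)) K →ₐ[K] L).mapMatrix (Matrix.of Λ)) :=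
    Matrix.linearIndependent_rows_iff_isUnit.1 (h L P hP)
  rw [Matrix.isUnit_iff_isUnit_det, h1] at h4
  exact not_isUnit_zero h4

private theorem A7_val {K : Type u} [Field K] {N q m s : ℕ} (F : Fin s → Fm K N q m) (x : Fin (N + 1) → K)
    (y : Fin q → Fin (m + 1) → K) (h : val (∏ i, F i) x y ≠ 0) (i : Fin s) : val (F i) x y ≠ 0 := by
  have h1 : val (∏ i, F i) x y = ∏ i, val (F i) x y := by
    unfold val UTA.sp
    rw [map_prod, map_prod]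
  rw [h1] at h
  exact Finset.prod_ne_zero_iff.1 h i (Finset.mem_univ i)

private theorem A7_fin {s : ℕ} (Q : Finset (Fin s)) (W W' : Fin s → ℕ) (hW' : ∀ i, W' i ≤ W i) (η c : ℝ)
    (hη : 0 ≤ η) (hc : 0 ≤ c) (f : Fin s → ℝ) (hf : ∀ i, 0 ≤ f i + c) :
    ∑ i ∈ Q, (W' i : ℝ) * f i - η * ∑ i, f i ≤ ∑ i ∈ Q, ((W i : ℝ) - η) * (f i + c) + η * (s * c) := by
  have h1 : ∑ i ∈ Q, (W' i : ℝ) * f i ≤ ∑ i ∈ Q, (W i : ℝ) * (f i + c) := by
    refine Finset.sum_le_sum fun i _ => ?_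
    have h2 : (W' i : ℝ) ≤ W i := by exact_mod_cast hW' i
    have h3 : (0 : ℝ) ≤ W' i := Nat.cast_nonneg _
    calc (W' i : ℝ) * f i ≤ W' i * (f i + c) := mul_le_mul_of_nonneg_left (by linarith) h3
      _ ≤ W i * (f i + c) := mul_le_mul_of_nonneg_right h2 (hf i)
  have h4 : ∑ i ∈ Q, (f i + c) ≤ ∑ i, (f i + c) :=
    Finset.sum_le_sum_of_subset_of_nonneg (Finset.subset_univ Q) fun i _ _ => hf i
  have h5 : ∑ i, (f i + c) = ∑ i, f i + s * c := by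
    rw [Finset.sum_add_distrib, Finset.sum_const, Finset.card_univ, Fintype.card_fin, nsmul_eq_mul]
  have h6 : ∑ i ∈ Q, ((W i : ℝ) - η) * (f i + c) = ∑ i ∈ Q, (W i : ℝ) * (f i + c) - η * ∑ i ∈ Q, (f i + c) := by
    rw [Finset.mul_sum, ← Finset.sum_sub_distrib]
    exact Finset.sum_congr rfl fun i _ => by ring
  rw [h5] at h4
  have h7 := mul_le_mul_of_nonneg_left h4 hη
  rw [h6]
  linarith

theorem A7_est {K : Type u} [Field K] [CharZero K] {N q m κ s s₀ : ℕ} {A : AV K N} {H : Fin κ → Fm K N q m}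
    {F : Fin s → Fm K N q m} {α : Fin s → ℕ} {δ : Fin s → Fin q → ℕ} (hF : ∀ i, Mh (F i) (α i) (δ i))
    {Q : Fin s₀ → Finset (Fin s)} {M : Fin q → ℕ} {W : Fin s → ℕ} {B r : ℕ}
    (β : BasF A H F α δ Q M W B r) (W' : Fin s → ℕ) (hW' : ∀ i, W' i ≤ W i) (η : ℝ) (hη : 0 ≤ η)
    (hB : ∀ k, ∀ lam : Fin s → ℝ, (∀ i, 0 ≤ lam i) → ∃ (t : Fin s → Fin (B + 1)) (Δ : ℝ), 0 ≤ Δ ∧
      (∀ i ∈ Q k, (t i : ℝ) * Δ ≤ lam i) ∧
      ∑ i ∈ Q k, ((W i : ℝ) - η) * lam i ≤ Δ * ((∑ i ∈ Q k, (t i : ℕ) * W i : ℕ) : ℝ)) :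
    Nonempty (EstF A H M r (∏ i, F i) fun k v P y =>
      ∑ i ∈ Q k, (W' i : ℝ) * lamF (α i) (δ i) (F i) v (A.x P) y -
        η * ∑ i, lamF (α i) (δ i) (F i) v (A.x P) y) := by
  classical
  obtain ⟨σ⟩ : Nonempty (Fin (Fintype.card (IndF s₀ s q m B)) ≃ IndF s₀ s q m B) := ⟨(Fintype.equivFin _).symm⟩
  refine ⟨{
    mon := β.mon
    deg := β.mon_deg
    ind := β.mon_li
    s := Fintype.card (IndF s₀ s q m B)
    D := β.D
    Λ := fun b => β.Λ (σ b)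
    Λ_hom := fun b => β.Λ_hom (σ b)
    Λ_det := fun b => A7_det A (β.Λ (σ b)) fun L _ _ P hP => β.Λ_li (σ b) L P hP
    d := β.ρ
    R := β.R
    R_hom := β.R_hom
    R_not := β.R_notMem
    T := 0
    loc := ?_ }⟩
  intro v
  obtain ⟨c, hc, hlow⟩ := A7_low hF v
  obtain ⟨C₀, hC₀⟩ := A7_loc β v c
  refine ⟨r * C₀ + η * (s * c), fun P y hy hR hy0 hF0 k => ?_⟩
  have hFv : ∀ i, val (F i) (A.x P) y ≠ 0 := A7_val F (A.x P) y hF0
  have hX : 0 < ⨆ a, v (A.x P a) := by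
    obtain ⟨a, ha⟩ := A.exists_x_ne P
    exact lt_of_lt_of_le ((AbsoluteValue.pos_iff v).2 ha)
      (le_ciSup (f := fun a => v (A.x P a)) (Set.finite_range _).bddAbove a)
  have hS : ∀ i, 0 < ⨆ l, v (y i l) := fun i =>
    lt_of_lt_of_le ((AbsoluteValue.pos_iff v).2 (hy0 i))
      (le_ciSup (f := fun l => v (y i l)) (Set.finite_range _).bddAbove 0)
  have hpos : ∀ i, 0 ≤ lamF (α i) (δ i) (F i) v (A.x P) y + c := fun i => hlow _ _ hX hS i (hFv i)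
  obtain ⟨t, Δ, hΔ, h1, h2⟩ := hB k (fun i => lamF (α i) (δ i) (F i) v (A.x P) y + c) hpos
  have hmax : ∀ i, ∃ a, v (y i a) = ⨆ t, v (y i t) := fun i =>
    Set.mem_range.1 ((Set.range_nonempty _).csSup_mem (Set.finite_range fun t => v (y i t)))
  choose a ha using hmax
  refine ⟨σ.symm (k, t, a), fun hne => ?_⟩
  rw [Equiv.apply_symm_apply] at hne ⊢
  have h3 : ∀ l, (β.x (k, t, a) l : ℝ) * Δ ≤
      (∑ j, M j * Real.log (⨆ t, v (y j t)) + β.D * Real.log (⨆ a, v (A.x P a)) -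
        Real.log (v (∑ c, aeval (A.x P) (β.Λ (k, t, a) l c) * ∏ z, y z.1 z.2 ^ β.mon c z))) + C₀ := fun l =>
    hC₀ P y hy hR hX hy0 hFv hpos (k, t, a) ha Δ hΔ h1 l (hne l)
  have h4 := Finset.sum_le_sum fun (l : Fin r) (_ : l ∈ Finset.univ) => h3 l
  rw [Finset.sum_add_distrib, Finset.sum_const, Finset.card_univ, Fintype.card_fin, nsmul_eq_mul,
    ← Finset.sum_mul] at h4
  have h5 := A7_fin (Q k) W W' hW' η c hη hc (fun i => lamF (α i) (δ i) (F i) v (A.x P) y) hpos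
  have h6 : Δ * ((∑ i ∈ Q k, (t i : ℕ) * W i : ℕ) : ℝ) ≤ (∑ l, (β.x (k, t, a) l : ℝ)) * Δ := by
    rw [mul_comm]
    refine mul_le_mul_of_nonneg_right ?_ hΔ
    exact_mod_cast β.x_sum (k, t, a)
  rw [Nat.cast_zero, zero_mul, add_zero]
  linarith

end UTH
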