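import Pool.Agent.Lib.MP_17a322_ntTA.Y1
import Pool.Agent.Lib.MP_17a322_ntTA.D0
import Pool.Agent.Lib.MP_17a322_ntPE.Defs
import Pool.Agent.Lib.MP_17a322_ntTD.R1
import Pool.Agent.Lib.MP_17a322_ntTH.Defs
import Pool.Agent.Lib.MP_17a322_ntTD.R2

/-!
Leaf A8: the inequality with the slope term for the local gains `Φ`.
(IMPORTS: add `Pool.Agent.Lib.MP_17a322_ntTD.R2` for `R2_one`.)

PROOF. Copy of `UTD.V4_core` (ntTD/V4). For `R2_one` one needs an `EstG A H M r g`; take `g = 0` and all the fields of `E` except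
`loc`, which for `g = 0` is: for some `b` (any), `0 ≤ ∑ l, (∑ M j log + D log - log v (∑ Λ mon)) + T * LR d R v (A.x P) + C`: the first sum
is bounded below by `D0_bd` (for the form `∑ c, C (Λ b l c) * monomial (mon c) 1` of multidegree `(D; M)`), `LR` is bounded below by
`UTA.LR_ge` (ntTA/Z5) or `E0_LR_ge`; the case `E.s = 0` first, as in V4 (`E.loc` gives some `b`). The exceptional form is the product
`(∏ c, F c) * (C E.R * ∏ i, y0 K N m i) * F₀`.
-/

set_option autoImplicit false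

universe u

namespace UTH

open MvPolynomial UTA UTD UTC Height NumberField
open Pool.Agent.Lib.MP_17a322_nt.VA
open Pool.Agent.Lib.MP_17a322_nt.SL (Gen)

private theorem A8_bd {K : Type u} [Field K] {N q m r : ℕ} {M : Fin q → ℕ} {mon : Fin r → (Fin q × Fin (m + 1)) →₀ ℕ}
    (hmon : ∀ c i, ∑ l, mon c (i, l) = M i) {D : ℕ} {Λ : Fin r → MvPolynomial (Fin (N + 1)) K}
    (hΛ : ∀ c, (Λ c).IsHomogeneous D) (v : AbsoluteValue K ℝ) :
    ∃ B : ℝ, ∀ (x : Fin (N + 1) → K) (y : Fin q → Fin (m + 1) → K), x ≠ 0 → (∀ i, y i ≠ 0) →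
      ∑ c, aeval x (Λ c) * ∏ z, y z.1 z.2 ^ mon c z ≠ 0 →
      -B ≤ ∑ j, (M j : ℝ) * Real.log (⨆ t, v (y j t)) + D * Real.log (⨆ a, v (x a)) -
        Real.log (v (∑ c, aeval x (Λ c) * ∏ z, y z.1 z.2 ^ mon c z)) := by
  classical
  have hF : Mh (∑ c, C (Λ c) * monomial (mon c) 1 : Fm K N q m) D M := by
    refine Mh_sum _ _ fun c _ => ?_
    have h := Mh_mul (Mh_C (q := q) (m := m) (hΛ c)) (Mh_monomial (K := K) (N := N) (hmon c))
    rwa [add_zero, zero_add] at h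
  obtain ⟨B, hB, hb⟩ := D0_bd hF v
  refine ⟨Real.log B, fun x y hx hy hne => ?_⟩
  have h1 : val (∑ c, C (Λ c) * monomial (mon c) 1 : Fm K N q m) x y =
      ∑ c, aeval x (Λ c) * ∏ z, y z.1 z.2 ^ mon c z := by
    have h2 : val (∑ c, C (Λ c) * monomial (mon c) 1 : Fm K N q m) x y =
        ∑ c, val (C (Λ c) * monomial (mon c) 1 : Fm K N q m) x y := by
      unfold val UTA.sp
      rw [map_sum, map_sum]
    rw [h2]
    refine Finset.sum_congr rfl fun c _ => ?_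
    rw [val_mul, val_C, val_monomial]
    rfl
  have h3 := hb x y
  rw [h1] at h3
  have hpos : ∀ {n : ℕ} (z : Fin (n + 1) → K), z ≠ 0 → 0 < ⨆ i, v (z i) := by
    intro n z hz
    obtain ⟨i, hi⟩ := Function.ne_iff.1 hz
    exact lt_of_lt_of_le ((AbsoluteValue.pos_iff v).2 hi)
      (le_ciSup (f := fun i => v (z i)) (Set.finite_range _).bddAbove i)
  have h4 : 0 < v (∑ c, aeval x (Λ c) * ∏ z, y z.1 z.2 ^ mon c z) := (AbsoluteValue.pos_iff v).2 hne
  have h5 := Real.log_le_log h4 h3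
  have h6 : 0 < (⨆ i, v (x i)) ^ D := pow_pos (hpos x hx) _
  have h7 : ∀ i, 0 < (⨆ l, v (y i l)) ^ M i := fun i => pow_pos (hpos (y i) (hy i)) _
  rw [Real.log_mul (mul_pos hB h6).ne' (Finset.prod_pos fun i _ => h7 i).ne', Real.log_mul hB.ne' h6.ne',
    Real.log_pow, Real.log_prod fun i _ => (h7 i).ne'] at h5
  simp only [Real.log_pow] at h5
  linarith

private theorem A8_LR {K : Type u} [Field K] {N : ℕ} {d : ℕ} {R : MvPolynomial (Fin (N + 1)) K}
    (hR : R.IsHomogeneous d) (v : AbsoluteValue K ℝ) :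
    ∃ B : ℝ, 0 ≤ B ∧ ∀ x : Fin (N + 1) → K, aeval x R ≠ 0 → -B ≤ LR d R v x := by
  classical
  obtain ⟨C₀, hC, hb⟩ := D0_bd (F := (C R : Fm K N 0 0)) (a := d) (d := fun _ => 0) (by
    refine ⟨fun μ => ?_, fun μ _ i => i.elim0⟩
    rw [coeff_C]
    split_ifs
    · exact hR
    · exact isHomogeneous_zero _ _ _) v
  refine ⟨|Real.log C₀|, abs_nonneg _, ?_⟩
  intro x h
  have h1 := hb x fun i => i.elim0
  have h2 : val (C R : Fm K N 0 0) x (fun i : Fin 0 => i.elim0) = aeval x R := val_C _ _ _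
  rw [h2, Fin.prod_univ_zero, mul_one] at h1
  have h3 : 0 < v (aeval x R) := (AbsoluteValue.pos_iff v).2 h
  have h4 : 0 < C₀ * (⨆ i, v (x i)) ^ d := lt_of_lt_of_le h3 h1
  have h5 : 0 < (⨆ i, v (x i)) ^ d := pos_of_mul_pos_right h4 hC.le
  have h6 := Real.log_le_log h3 h1
  rw [Real.log_mul hC.ne' h5.ne', Real.log_pow] at h6
  have h7 := le_abs_self (Real.log C₀)
  unfold LR
  linarith

private theorem A8_loc {K : Type u} [Field K] {N q m κ s₀ : ℕ} {A : AV K N} {H : Fin κ → Fm K N q m}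
    {M : Fin q → ℕ} {r : ℕ} {F₀ : Fm K N q m}
    {Φ : Fin s₀ → AbsoluteValue K ℝ → A.Pts K → (Fin q → Fin (m + 1) → K) → ℝ}
    (E : EstF A H M r F₀ Φ) (hs : 0 < E.s) (v : AbsoluteValue K ℝ) :
    ∃ C : ℝ, ∀ (P : A.Pts K) (y : Fin q → Fin (m + 1) → K),
      InX H (A.x P) y → aeval (A.x P) E.R ≠ 0 → (∀ i, y i 0 ≠ 0) →
      ∃ b : Fin E.s, (∀ l, ∑ c, aeval (A.x P) (E.Λ b l c) * ∏ z, y z.1 z.2 ^ E.mon c z ≠ 0) →
        (r : ℝ) * ∑ i : Fin q, (0 : ℝ) * lam v (y i) ≤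
          ∑ l, (∑ j, M j * Real.log (⨆ t, v (y j t)) + E.D * Real.log (⨆ a, v (A.x P a)) -
            Real.log (v (∑ c, aeval (A.x P) (E.Λ b l c) * ∏ z, y z.1 z.2 ^ E.mon c z))) +
          E.T * LR E.d E.R v (A.x P) + C := by
  classical
  choose B hB using fun l => A8_bd E.deg (E.Λ_hom ⟨0, hs⟩ l) v
  obtain ⟨B', hB'0, hB'⟩ := A8_LR E.R_hom v
  refine ⟨∑ l, B l + E.T * B', fun P y hX hR hy => ⟨⟨0, hs⟩, fun hne => ?_⟩⟩
  have h1 := Finset.sum_le_sum fun (l : Fin r) (_ : l ∈ Finset.univ) => hB l (A.x P) y (A.x_ne P) hX.1 (hne l)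
  rw [Finset.sum_neg_distrib] at h1
  have h2 := mul_le_mul_of_nonneg_left (hB' (A.x P) hR) (Nat.cast_nonneg (α := ℝ) E.T)
  simp only [zero_mul, Finset.sum_const_zero, mul_zero]
  linarith

/-- The bases with the trivial gain. -/
private noncomputable def A8_G {K : Type u} [Field K] {N q m κ s₀ : ℕ} {A : AV K N} {H : Fin κ → Fm K N q m}
    {M : Fin q → ℕ} {r : ℕ} {F₀ : Fm K N q m}
    {Φ : Fin s₀ → AbsoluteValue K ℝ → A.Pts K → (Fin q → Fin (m + 1) → K) → ℝ}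
    (E : EstF A H M r F₀ Φ) (hs : 0 < E.s) : EstG A H M r fun _ => 0 where
  mon := E.mon
  deg := E.deg
  ind := E.ind
  s := E.s
  D := E.D
  Λ := E.Λ
  Λ_hom := E.Λ_hom
  Λ_det := E.Λ_det
  d := E.d
  R := E.R
  R_hom := E.R_hom
  R_not := E.R_not
  T := E.T
  loc := fun v => A8_loc E hs v

theorem A8_core {K : Type u} [Field K] [NumberField K] {N q m κ s₀ : ℕ} (A : AV K N)
    (H : Fin κ → Fm K N q m) (hH : ∀ j, ∃ a d, Mh (H j) a d) (hC : Pr A H) {M : Fin q → ℕ} {r : ℕ}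
    {F₀ : Fm K N q m} (hF₀ : NF A H F₀)
    {Φ : Fin s₀ → AbsoluteValue K ℝ → A.Pts K → (Fin q → Fin (m + 1) → K) → ℝ}
    (E : EstF A H M r F₀ Φ) (k₀ : Fin s₀) (hr : 0 < r)
    (hrk : ∀ (L : Type u) [Field L] [IsAlgClosed L] [Algebra K L] (P : A.Pts L), Gen A P →
      hf (fib H (A.x P)) M = r)
    {n : ℕ} {mo : Fin n → (Fin q × Fin (m + 1)) →₀ ℕ} (hmo : IsMon M mo)
    {e : ℕ} (f : MvPolynomial (Fin (N + 1)) K) (hf : f.IsHomogeneous e) (hfA : f ∉ A.I)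
    (S : Finset (FinitePlace K)) (ε : ℝ) (hε : 0 < ε) :
    ∃ (C : ℝ) (G : Fm K N q m), NF A H G ∧
      ∀ (P : A.Pts K) (y : Fin q → Fin (m + 1) → K), InX H (A.x P) y → val G (A.x P) y ≠ 0 →
        (∀ i, y i 0 ≠ 0) ∧ val F₀ (A.x P) y ≠ 0 ∧ aeval (A.x P) f ≠ 0 ∧
        ∀ (ki : InfinitePlace K → Fin s₀) (kf : FinitePlace K → Fin s₀),
        ((∑ v : InfinitePlace K, (v.mult : ℝ) * Φ (ki v) v.val P y) + ∑ v ∈ S, Φ (kf v) v.val P y) +
            ((∑ v : InfinitePlace K, (v.mult : ℝ) * LR e f v.val (A.x P)) +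
            ∑ v ∈ S, LR e f v.val (A.x P)) + UPE.hPl (Rel (fib H (A.x P)) M mo) ≤
          r * ∑ i, (M i : ℝ) * logHeight (y i) +
          ε * (∑ i, (M i : ℝ) * logHeight (y i) + logHeight (A.x P)) + C := by
  classical
  have hloc : ∀ v : AbsoluteValue K ℝ, ∃ C : ℝ, ∀ (P : A.Pts K) (y : Fin q → Fin (m + 1) → K),
      InX H (A.x P) y → aeval (A.x P) E.R ≠ 0 → (∀ i, y i 0 ≠ 0) → val F₀ (A.x P) y ≠ 0 → ∀ k : Fin s₀,
      ∃ b : Fin E.s, (∀ l, ∑ c, aeval (A.x P) (E.Λ b l c) * mv (E.mon c) y ≠ 0) →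
        Φ k v P y ≤ ∑ l, (∑ j, (M j : ℝ) * Real.log (⨆ t, v (y j t)) + E.D * Real.log (⨆ a, v (A.x P a)) -
          Real.log (v (∑ c, aeval (A.x P) (E.Λ b l c) * mv (E.mon c) y))) + E.T * LR E.d E.R v (A.x P) + C := E.loc
  choose Cv hCv using hloc
  have hF0 : NF A H ((MvPolynomial.C E.R * ∏ i, y0 K N m i : Fm K N q m) * F₀) :=
    NF.mul' hC (NF.mul' hC (NF.cst' hC E.R_hom E.R_not) (NF.prod' hC _ _ fun i _ => NF.y0' hC i)) hF₀
  have hF0v : ∀ (P : A.Pts K) (y : Fin q → Fin (m + 1) → K),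
      val ((MvPolynomial.C E.R * ∏ i, y0 K N m i : Fm K N q m) * F₀) (A.x P) y ≠ 0 →
      aeval (A.x P) E.R ≠ 0 ∧ (∀ i, y i 0 ≠ 0) ∧ val F₀ (A.x P) y ≠ 0 := by
    intro P y hne
    rw [val_mul, val_mul, val_prod, val_C] at hne
    obtain ⟨h1, h2⟩ := mul_ne_zero_iff.1 hne
    obtain ⟨h3, h5⟩ := mul_ne_zero_iff.1 h1
    refine ⟨h3, fun i => ?_, h2⟩
    have h7 := Finset.prod_ne_zero_iff.1 h5 i (Finset.mem_univ i)
    rw [val_y0] at h7
    exact h7
  rcases Nat.eq_zero_or_pos E.s with hs | hs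
  · refine ⟨0, _, hF0, fun P y hX hne => ?_⟩
    obtain ⟨h1, h2, h3⟩ := hF0v P y hne
    obtain ⟨v⟩ : Nonempty (InfinitePlace K) := inferInstance
    obtain ⟨b, -⟩ := hCv v.val P y hX h1 h2 h3 k₀
    rw [hs] at b
    exact b.elim0
  · obtain ⟨cg, hcg⟩ : ∃ cg : (InfinitePlace K → Fin E.s) × (S → Fin E.s) → FinitePlace K → Fin E.s,
        ∀ c v (h : v ∈ S), cg c v = c.2 ⟨v, h⟩ :=
      ⟨fun c v => if h : v ∈ S then c.2 ⟨v, h⟩ else ⟨0, hs⟩, fun c v h => dif_pos h⟩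
    choose C F hF hmain using fun c : (InfinitePlace K → Fin E.s) × (S → Fin E.s) =>
      R2_one A H hH hC (A8_G E hs) hr hrk hmo f hf hfA S c.1 (cg c) E.T ε hε
    obtain ⟨D, hD⟩ : ∃ D : ℝ, D = (∑ c, |C c|) + |(∑ v : InfinitePlace K, (v.mult : ℝ) * Cv v.val) +
      ∑ v ∈ S, Cv v.val| := ⟨_, rfl⟩
    refine ⟨D, (∏ c, F c) * ((MvPolynomial.C E.R * ∏ i, y0 K N m i) * F₀), ?_, ?_⟩
    · exact NF.mul' hC (NF.prod' hC _ _ fun c _ => hF c) hF0
    · intro P y hX hne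
      rw [val_mul, val_prod] at hne
      obtain ⟨h1, h3⟩ := mul_ne_zero_iff.1 hne
      obtain ⟨hR, hy0, hF₀v⟩ := hF0v P y h3
      refine ⟨hy0, hF₀v, ?_⟩
      choose b hb using fun (v : AbsoluteValue K ℝ) (k : Fin s₀) => hCv v P y hX hR hy0 hF₀v k
      have hfP : aeval (A.x P) f ≠ 0 := by
        have h7 := Finset.prod_ne_zero_iff.1 h1 (fun _ => ⟨0, hs⟩, fun _ => ⟨0, hs⟩) (Finset.mem_univ _)
        exact (hmain _ P y hX h7).1
      refine ⟨hfP, fun ki kf => ?_⟩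
      obtain ⟨c, hc⟩ : ∃ c : (InfinitePlace K → Fin E.s) × (S → Fin E.s),
        c = (fun v => b v.val (ki v), fun v => b v.1.val (kf v.1)) := ⟨_, rfl⟩
      have hc1 : ∀ v : InfinitePlace K, c.1 v = b v.val (ki v) := fun v => by rw [hc]
      have hc2 : ∀ v : S, c.2 v = b v.1.val (kf v.1) := fun v => by rw [hc]
      have h7 := Finset.prod_ne_zero_iff.1 h1 c (Finset.mem_univ c)
      obtain ⟨-, h8, h9, h10⟩ := hmain c P y hX h7
      have h11 : ∀ v : InfinitePlace K, Φ (ki v) v.val P y ≤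
          LS (A8_G E hs) v.val P y (c.1 v) + E.T * LR E.d E.R v.val (A.x P) + Cv v.val := by
        intro v
        rw [hc1]
        refine hb v.val (ki v) fun l => ?_
        rw [← hc1]
        exact h8 v l
      have h12 : ∀ v ∈ S, Φ (kf v) v.val P y ≤
          LS (A8_G E hs) v.val P y (cg c v) +
            E.T * LR E.d E.R v.val (A.x P) + Cv v.val := by
        intro v hv
        have h13 : cg c v = b v.val (kf v) := by
          rw [hcg c v hv, hc2]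
        rw [h13]
        refine hb v.val (kf v) fun l => ?_
        rw [← h13]
        exact h9 v hv l
      have h13 := Finset.sum_le_sum fun (v : InfinitePlace K) (_ : v ∈ Finset.univ) =>
        mul_le_mul_of_nonneg_left (h11 v) (Nat.cast_nonneg (α := ℝ) v.mult)
      have h14 := Finset.sum_le_sum h12
      have h15 : ∑ v : InfinitePlace K, (v.mult : ℝ) * (LS (A8_G E hs) v.val P y (c.1 v) +
          E.T * LR E.d E.R v.val (A.x P) + Cv v.val) =
          (∑ v : InfinitePlace K, (v.mult : ℝ) * LS (A8_G E hs) v.val P y (c.1 v)) +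
            E.T * (∑ v : InfinitePlace K, (v.mult : ℝ) * LR E.d E.R v.val (A.x P)) +
            ∑ v : InfinitePlace K, (v.mult : ℝ) * Cv v.val := by
        rw [Finset.mul_sum, ← Finset.sum_add_distrib, ← Finset.sum_add_distrib]
        exact Finset.sum_congr rfl fun v _ => by ring
      rw [h15] at h13
      have h15' : ∑ v ∈ S, (LS (A8_G E hs) v.val P y (cg c v) +
            E.T * LR E.d E.R v.val (A.x P) + Cv v.val) =
          (∑ v ∈ S, LS (A8_G E hs) v.val P y (cg c v)) +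
            E.T * (∑ v ∈ S, LR E.d E.R v.val (A.x P)) + ∑ v ∈ S, Cv v.val := by
        rw [Finset.mul_sum, ← Finset.sum_add_distrib, ← Finset.sum_add_distrib]
      rw [h15'] at h14
      have h17 : C c ≤ ∑ c, |C c| :=
        (le_abs_self _).trans (Finset.single_le_sum (f := fun c => |C c|) (fun c _ => abs_nonneg _)
          (Finset.mem_univ c))
      have h18 := le_abs_self ((∑ v : InfinitePlace K, (v.mult : ℝ) * Cv v.val) + ∑ v ∈ S, Cv v.val)
      have h10' : ((∑ v : InfinitePlace K, (v.mult : ℝ) * LS (A8_G E hs) v.val P y (c.1 v)) +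
            ∑ v ∈ S, LS (A8_G E hs) v.val P y (cg c v)) +
          E.T * ((∑ v : InfinitePlace K, (v.mult : ℝ) * LR E.d E.R v.val (A.x P)) +
            ∑ v ∈ S, LR E.d E.R v.val (A.x P)) +
          ((∑ v : InfinitePlace K, (v.mult : ℝ) * LR e f v.val (A.x P)) +
            ∑ v ∈ S, LR e f v.val (A.x P)) +
          UPE.hPl (Rel (fib H (A.x P)) M mo) ≤
          r * ∑ i, (M i : ℝ) * logHeight (y i) +
            ε * (∑ i, (M i : ℝ) * logHeight (y i) + logHeight (A.x P)) + C c := h10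
      rw [hD]
      linarith

end UTH
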