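import Pool.Agent.Lib.MP_17a322_ntTA.C4
import Pool.Agent.Lib.MP_17a322_ntTC.K9
import Pool.Agent.Lib.MP_17a322_ntTD.S1
import Pool.Agent.Lib.MP_17a322_ntTD.S2
import Pool.Agent.Lib.MP_17a322_ntTD.S3
import Pool.Agent.Lib.MP_17a322_ntTH.A0
import Pool.Agent.Lib.MP_17a322_ntTH.A1
import Pool.Agent.Lib.MP_17a322_ntTH.A5
import Pool.Agent.Lib.MP_17a322_ntTH.A6
import Pool.Agent.Lib.MP_17a322_ntTH.A7
import Pool.Agent.Lib.MP_17a322_ntTH.A8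

/-!
Leaf A9: the inequality with the orders of vanishing along arbitrary divisors `F_i = 0`; at every place any subfamily of
the divisors which meets properly.

PROOF. Copy of `UTD.T4_max` (ntTD/V5): `C4_down` for the equations, `b₀` with `A.x P₀ b₀ ≠ 0`, `A5_down` for the `f i`,
`W i = ∑ j ∈ Icc 1 J, ordF (Ik h) M (f i) j`, `W' i =` the number in the statement, `W' i ≤ W i` by `A1_ord`; `A6_bas`, `A7_est` (with
`η = ε₁` small and `hB` from `K9_grid` as in V5), `A8_core` with `ε₂`. The term `η * ∑ i, lamF_i` summed over the places is at most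
`η * ∑ i, (α i * logHeight (A.x P) + ∑ j, δ i j * logHeight (y j) + C_i)` (`A0_ub`). Choose
`ε₁ * (1 + ∑ i, (α i + ∑ j, δ i j)) ≤ ε / 2` and `ε₂ * (1 + ∑ M i) ≤ ε / 2`.
-/

set_option autoImplicit false

universe u

namespace UTH

open MvPolynomial UTA UTD UTC Height NumberField
open Pool.Agent.Lib.MP_17a322_nt.VA
open Pool.Agent.Lib.MP_17a322_nt.SL (Gen)

private theorem A9_eps (ε D Z T c : ℝ) (hε : 0 < ε) (hD : 0 ≤ D) (hZ : 0 ≤ Z) (hT : T ≤ D * Z + c) :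
    ε / (2 * (1 + D)) * T ≤ ε / 2 * Z + ε / (2 * (1 + D)) * c := by
  have h0 : 0 ≤ ε / (2 * (1 + D)) := by positivity
  have h1 := mul_le_mul_of_nonneg_left hT h0
  have e1 : ε / (2 * (1 + D)) * (D * Z) = ε / 2 * Z * (D / (1 + D)) := by
    field_simp
  have h2 : D / (1 + D) ≤ 1 := by
    rw [div_le_iff₀ (by linarith)]
    linarith
  have h3 : ε / 2 * Z * (D / (1 + D)) ≤ ε / 2 * Z * 1 :=
    mul_le_mul_of_nonneg_left h2 (by positivity)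
  rw [mul_add (ε / (2 * (1 + D))), e1] at h1
  linarith

private theorem A9_num {q s : ℕ} (M h : Fin q → ℝ) (α : Fin s → ℝ) (δ : Fin s → Fin q → ℝ) (p c : Fin s → ℝ)
    (r ε hx Y a b C : ℝ) (hε : 0 < ε) (hM : ∀ i, 0 ≤ M i) (hα : ∀ i, 0 ≤ α i) (hδ : ∀ i j, 0 ≤ δ i j)
    (hh : ∀ i, 0 ≤ h i) (hx0 : 0 ≤ hx) (hp : ∀ i, p i ≤ α i * hx + ∑ j, δ i j * h j + c i)
    (h1 : Y - ε / (2 * (1 + ∑ i, (α i + ∑ j, δ i j))) * ∑ i, p i + a + b ≤ r * ∑ i, M i * h i +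
      ε / (2 * (1 + ∑ i, M i)) * (∑ i, M i * h i + hx) + C) :
    Y + a + b ≤ r * ∑ i, M i * h i + ε * (∑ i, h i + hx) +
      (C + ε / (2 * (1 + ∑ i, (α i + ∑ j, δ i j))) * ∑ i, c i) := by
  have hS : 0 ≤ ∑ i, M i := Finset.sum_nonneg fun i _ => hM i
  have hD : 0 ≤ ∑ i, (α i + ∑ j, δ i j) :=
    Finset.sum_nonneg fun i _ => add_nonneg (hα i) (Finset.sum_nonneg fun j _ => hδ i j)
  have hH : 0 ≤ ∑ i, h i := Finset.sum_nonneg fun i _ => hh i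
  have hZ : 0 ≤ ∑ i, h i + hx := add_nonneg hH hx0
  have hle : ∀ i, h i ≤ ∑ i, h i := fun i =>
    Finset.single_le_sum (f := h) (fun j _ => hh j) (Finset.mem_univ i)
  -- the term of the slack in the bases
  have h2 : ∑ i, p i ≤ (∑ i, (α i + ∑ j, δ i j)) * (∑ i, h i + hx) + ∑ i, c i := by
    rw [Finset.sum_mul, ← Finset.sum_add_distrib]
    refine Finset.sum_le_sum fun i _ => (hp i).trans ?_
    have e1 : α i * hx ≤ α i * (∑ i, h i + hx) :=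
      mul_le_mul_of_nonneg_left (by linarith) (hα i)
    have e2 : ∑ j, δ i j * h j ≤ (∑ j, δ i j) * (∑ i, h i + hx) := by
      rw [Finset.sum_mul]
      exact Finset.sum_le_sum fun j _ => mul_le_mul_of_nonneg_left (by linarith [hle j]) (hδ i j)
    rw [add_mul]
    linarith
  have h3 := A9_eps ε _ _ _ _ hε hD hZ h2
  -- the term of the subspace theorem
  have h4 : ∑ i, M i * h i ≤ (∑ i, M i) * ∑ i, h i := by
    rw [Finset.sum_mul]
    exact Finset.sum_le_sum fun i _ => mul_le_mul_of_nonneg_left (hle i) (hM i)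
  have h5 : ∑ i, M i * h i + hx ≤ (1 + ∑ i, M i) * (∑ i, h i + hx) := by
    nlinarith [mul_nonneg hS hx0]
  have h6 : ε / (2 * (1 + ∑ i, M i)) * (∑ i, M i * h i + hx) ≤ ε / 2 * (∑ i, h i + hx) := by
    have e2 : ε / (2 * (1 + ∑ i, M i)) * (∑ i, M i * h i + hx) =
        ε / 2 * ((∑ i, M i * h i + hx) / (1 + ∑ i, M i)) := by
      field_simp
    rw [e2]
    refine mul_le_mul_of_nonneg_left ?_ (by linarith)
    rw [div_le_iff₀ (by linarith)]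
    linarith
  linarith

private theorem A9_val {K : Type u} [Field K] {N q m s : ℕ} (F : Fin s → Fm K N q m) {L : Type u} [Field L]
    [Algebra K L] (x : Fin (N + 1) → L) (y : Fin q → Fin (m + 1) → L) :
    val (∏ i, F i) x y = ∏ i, val (F i) x y := by
  unfold val UTA.sp
  rw [map_prod, map_prod]

/-- **T4F.** -/
theorem T4F_max {K : Type u} [Field K] [NumberField K] {N q m κ s : ℕ} (A : AV K N)
    (H : Fin κ → Fm K N q m) (hX : Vars A H ∅) (F : Fin s → Fm K N q m) (α : Fin s → ℕ)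
    (δ : Fin s → Fin q → ℕ) (hF : ∀ i, Mh (F i) (α i) (δ i)) (hne : ∀ i, NF A H (F i)) {L₀ : Type u} [Field L₀]
    [IsAlgClosed L₀] [Algebra K L₀] (P₀ : A.Pts L₀) (hP₀ : Gen A P₀) (M : Fin q → ℕ) (J : ℕ)
    {n : ℕ} {mo : Fin n → (Fin q × Fin (m + 1)) →₀ ℕ} (hmo : IsMon M mo)
    {e : ℕ} (f : MvPolynomial (Fin (N + 1)) K) (hf : f.IsHomogeneous e) (hfA : f ∉ A.I)
    (S : Finset (FinitePlace K)) (ε : ℝ) (hε : 0 < ε) :
    ∃ (C : ℝ) (G : Fm K N q m), NF A H G ∧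
      ∀ (P : A.Pts K) (y : Fin q → Fin (m + 1) → K), InX H (A.x P) y → val G (A.x P) y ≠ 0 →
        (∀ i, y i 0 ≠ 0) ∧ (∀ i, val (F i) (A.x P) y ≠ 0) ∧ aeval (A.x P) f ≠ 0 ∧
        ∀ (Qi : InfinitePlace K → Finset (Fin s)) (Qf : FinitePlace K → Finset (Fin s)),
          (∀ v, PropF A H F (Qi v)) → (∀ v ∈ S, PropF A H F (Qf v)) →
          ((∑ v : InfinitePlace K, (v.mult : ℝ) * ∑ i ∈ Qi v,
              ((∑ j ∈ Finset.Icc 1 J, ordF (fib H (A.x P₀)) M (sp (F i) (A.x P₀)) j : ℕ) : ℝ) *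
                lamF (α i) (δ i) (F i) v.val (A.x P) y) +
            ∑ v ∈ S, ∑ i ∈ Qf v,
              ((∑ j ∈ Finset.Icc 1 J, ordF (fib H (A.x P₀)) M (sp (F i) (A.x P₀)) j : ℕ) : ℝ) *
                lamF (α i) (δ i) (F i) v.val (A.x P) y) +
          ((∑ v : InfinitePlace K, (v.mult : ℝ) * LR e f v.val (A.x P)) +
            ∑ v ∈ S, LR e f v.val (A.x P)) + UPE.hPl (Rel (fib H (A.x P)) M mo) ≤
          UTA.hf (fib H (A.x P₀)) M * ∑ i, (M i : ℝ) * logHeight (y i) +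
            ε * (∑ i, logHeight (y i) + logHeight (A.x P)) + C := by
  classical
  obtain ⟨h, hh, hI, -⟩ := C4_down H hX.hom (A.x_ne P₀)
  obtain ⟨b₀, hb⟩ := Function.ne_iff.1 (A.x_ne P₀)
  change A.x P₀ b₀ ≠ 0 at hb
  choose fk hfδ hfF using fun i => A5_down hb (hF i)
  have hpr : (IΩ h L₀).IsPrime := by
    rw [hI]
    exact hX.prime L₀ P₀ hP₀
  have hne' : ∀ i, X (i, 0) ∉ Ik h := by
    intro i hi
    have h1 := (B1_mem (Ω := L₀) h (X (i, 0))).2 hi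
    rw [map_X, hI] at h1
    exact hX.ne L₀ P₀ hP₀ i h1
  have hr := hf_pos h (B1_prime h hpr) hne' M
  have h3 : UTA.hf (fib H (A.x P₀)) M = UTA.hf (Ik h) M := by rw [← hI, S1_hf]
  obtain ⟨W, hW⟩ : ∃ W : Fin s → ℕ, W = fun i => ∑ j ∈ Finset.Icc 1 J, ordF (Ik h) M (fk i) j := ⟨_, rfl⟩
  obtain ⟨W', hW'⟩ : ∃ W' : Fin s → ℕ, W' = fun i =>
    ∑ j ∈ Finset.Icc 1 J, ordF (fib H (A.x P₀)) M (sp (F i) (A.x P₀)) j := ⟨_, rfl⟩
  have hWW : ∀ i, W' i ≤ W i := by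
    intro i
    rw [hW, hW']
    change ∑ j ∈ Finset.Icc 1 J, ordF (fib H (A.x P₀)) M (sp (F i) (A.x P₀)) j ≤
      ∑ j ∈ Finset.Icc 1 J, ordF (Ik h) M (fk i) j
    rw [← hI]
    exact Finset.sum_le_sum fun j _ => A1_ord h M (fk i) (pow_ne_zero _ hb) (hfF i) j
  -- the subfamilies which meet properly
  obtain ⟨s₀, Q, hQ, hQ'⟩ : ∃ (s₀ : ℕ) (Q : Fin s₀ → Finset (Fin s)), (∀ k, PropF A H F (Q k)) ∧
      ∀ Q', PropF A H F Q' → ∃ k, Q k = Q' := by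
    obtain ⟨T, hT⟩ : ∃ T : Finset (Finset (Fin s)), ∀ Q', Q' ∈ T ↔ PropF A H F Q' :=
      ⟨Finset.univ.filter fun Q' => PropF A H F Q', fun Q' => by simp⟩
    refine ⟨T.card, fun k => (T.equivFin.symm k : Finset (Fin s)), fun k => ?_, fun Q' h' => ?_⟩
    · exact (hT _).1 (T.equivFin.symm k).2
    · refine ⟨T.equivFin ⟨Q', (hT _).2 h'⟩, ?_⟩
      change ((T.equivFin.symm (T.equivFin ⟨Q', (hT _).2 h'⟩) : T) : Finset (Fin s)) = Q'
      rw [Equiv.symm_apply_apply]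
  obtain ⟨k₀, -⟩ := hQ' ∅ (fun _ _ _ _ _ _ _ _ i hi => absurd hi (Finset.notMem_empty i))
  obtain ⟨ε₁, hε₁⟩ : ∃ ε₁ : ℝ, ε₁ = ε / (2 * (1 + ∑ i, ((α i : ℝ) + ∑ j, (δ i j : ℝ)))) := ⟨_, rfl⟩
  have hε₁0 : 0 < ε₁ := by
    rw [hε₁]
    positivity
  choose B hB using fun k => K9_grid (Q k) W ε₁ hε₁0
  obtain ⟨B', hB'⟩ : ∃ B' : ℕ, ∀ k, B k ≤ B' := ⟨∑ k, B k, fun k =>
    Finset.single_le_sum (f := B) (fun _ _ => Nat.zero_le _) (Finset.mem_univ k)⟩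
  have hB2 : ∀ k, ∀ lam : Fin s → ℝ, (∀ i, 0 ≤ lam i) → ∃ (t : Fin s → Fin (B' + 1)) (Δ : ℝ), 0 ≤ Δ ∧
      (∀ i ∈ Q k, (t i : ℝ) * Δ ≤ lam i) ∧
      ∑ i ∈ Q k, ((W i : ℝ) - ε₁) * lam i ≤ Δ * ((∑ i ∈ Q k, (t i : ℕ) * W i : ℕ) : ℝ) := by
    intro k l hl
    obtain ⟨t, Δ, h0, h1, h2⟩ := hB k l hl
    exact ⟨fun i => Fin.castLE (Nat.succ_le_succ (hB' k)) (t i), Δ, h0, h1, h2⟩
  obtain ⟨β⟩ := A6_bas A H hX.hom P₀ hP₀ F α δ hF Q hQ h hh hI fk hfδ b₀ hb hfF M J B'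
  rw [← hW] at β
  obtain ⟨E⟩ := A7_est hF β W' hWW ε₁ hε₁0.le hB2
  have hrk : ∀ (L : Type u) [Field L] [IsAlgClosed L] [Algebra K L] (P : A.Pts L), Gen A P →
      UTA.hf (fib H (A.x P)) M = UTA.hf (Ik h) M := by
    intro L _ _ _ P hP
    rw [← h3]
    exact S3_gen H hX.hom P hP P₀ hP₀ M
  have hPr : Pr A H := ⟨hX.prime, hX.ne⟩
  obtain ⟨C, G, hG, hmain⟩ := A8_core A H hX.hom hPr (NF.prod' hPr Finset.univ F fun i _ => hne i) E k₀ hr hrk hmo f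
    hf hfA S (ε / (2 * (1 + ∑ i, (M i : ℝ)))) (by positivity)
  choose Cu hCu using fun i => A0_ub (hF i)
  refine ⟨C + ε₁ * ∑ i, Cu i, G, hG, fun P y hy hval => ?_⟩
  obtain ⟨h0, hF0, hf0, h1⟩ := hmain P y hy hval
  rw [A9_val, Finset.prod_ne_zero_iff] at hF0
  refine ⟨h0, fun i => hF0 i (Finset.mem_univ i), hf0, fun Qi Qf hQi hQf => ?_⟩
  choose ki hki using fun v => hQ' (Qi v) (hQi v)
  obtain ⟨kf, hkf⟩ : ∃ kf : FinitePlace K → Fin s₀, ∀ v ∈ S, Q (kf v) = Qf v := by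
    refine ⟨fun v => if hv : v ∈ S then (hQ' (Qf v) (hQf v hv)).choose else k₀, fun v hv => ?_⟩
    change Q (if hv : v ∈ S then (hQ' (Qf v) (hQf v hv)).choose else k₀) = Qf v
    rw [dif_pos hv]
    exact (hQ' (Qf v) (hQf v hv)).choose_spec
  have h2 := h1 ki kf
  have e1 : (∑ v : InfinitePlace K, (v.mult : ℝ) * (∑ i ∈ Q (ki v), (W' i : ℝ) *
        lamF (α i) (δ i) (F i) v.val (A.x P) y - ε₁ * ∑ i, lamF (α i) (δ i) (F i) v.val (A.x P) y)) +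
      ∑ v ∈ S, (∑ i ∈ Q (kf v), (W' i : ℝ) * lamF (α i) (δ i) (F i) v.val (A.x P) y -
        ε₁ * ∑ i, lamF (α i) (δ i) (F i) v.val (A.x P) y) =
      ((∑ v : InfinitePlace K, (v.mult : ℝ) * ∑ i ∈ Qi v, (W' i : ℝ) *
          lamF (α i) (δ i) (F i) v.val (A.x P) y) +
        ∑ v ∈ S, ∑ i ∈ Qf v, (W' i : ℝ) * lamF (α i) (δ i) (F i) v.val (A.x P) y) -
      ε₁ * ∑ i, mF (α i) (δ i) (F i) S (A.x P) y := by
    have e2 : ∑ i, mF (α i) (δ i) (F i) S (A.x P) y =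
        (∑ v : InfinitePlace K, (v.mult : ℝ) * ∑ i, lamF (α i) (δ i) (F i) v.val (A.x P) y) +
        ∑ v ∈ S, ∑ i, lamF (α i) (δ i) (F i) v.val (A.x P) y := by
      unfold mF
      rw [Finset.sum_add_distrib, Finset.sum_comm, Finset.sum_comm (s := (Finset.univ : Finset (Fin s))) (t := S)]
      congr 1
      exact Finset.sum_congr rfl fun v _ => (Finset.mul_sum _ _ _).symm
    have e3 : ∑ v : InfinitePlace K, (v.mult : ℝ) * (∑ i ∈ Q (ki v), (W' i : ℝ) *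
        lamF (α i) (δ i) (F i) v.val (A.x P) y - ε₁ * ∑ i, lamF (α i) (δ i) (F i) v.val (A.x P) y) =
        (∑ v : InfinitePlace K, (v.mult : ℝ) * ∑ i ∈ Qi v, (W' i : ℝ) *
          lamF (α i) (δ i) (F i) v.val (A.x P) y) -
        ε₁ * ∑ v : InfinitePlace K, (v.mult : ℝ) * ∑ i, lamF (α i) (δ i) (F i) v.val (A.x P) y := by
      rw [Finset.mul_sum, ← Finset.sum_sub_distrib]
      refine Finset.sum_congr rfl fun v _ => ?_
      rw [hki v]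
      ring
    have e4 : ∑ v ∈ S, (∑ i ∈ Q (kf v), (W' i : ℝ) * lamF (α i) (δ i) (F i) v.val (A.x P) y -
        ε₁ * ∑ i, lamF (α i) (δ i) (F i) v.val (A.x P) y) =
        (∑ v ∈ S, ∑ i ∈ Qf v, (W' i : ℝ) * lamF (α i) (δ i) (F i) v.val (A.x P) y) -
        ε₁ * ∑ v ∈ S, ∑ i, lamF (α i) (δ i) (F i) v.val (A.x P) y := by
      rw [Finset.mul_sum, ← Finset.sum_sub_distrib]
      refine Finset.sum_congr rfl fun v hv => ?_
      rw [hkf v hv]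
    rw [e2, e3, e4]
    ring
  rw [e1, hε₁] at h2
  have h4 : ∀ i, mF (α i) (δ i) (F i) S (A.x P) y ≤
      (α i : ℝ) * logHeight (A.x P) + ∑ j, (δ i j : ℝ) * logHeight (y j) + Cu i := fun i =>
    hCu i S (A.x P) y (A.x_ne P) hy.1 (hF0 i (Finset.mem_univ i))
  have h5 := A9_num (fun i => (M i : ℝ)) (fun i => logHeight (y i)) (fun i => (α i : ℝ))
    (fun i j => (δ i j : ℝ)) (fun i => mF (α i) (δ i) (F i) S (A.x P) y) Cu (UTA.hf (Ik h) M) ε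
    (logHeight (A.x P)) _ _ _ C hε (fun i => Nat.cast_nonneg _) (fun i => Nat.cast_nonneg _)
    (fun i j => Nat.cast_nonneg _) (fun i => logHeight_nonneg _) (logHeight_nonneg _) h4 h2
  rw [h3, hε₁]
  rw [hW'] at h5
  exact h5

end UTH
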