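import Mathlib

/-!
Leaf B0 (MATHLIB ONLY): a function which is eventually a polynomial and grows like `N ^ n`.

PROOF. `h (M₀ + t) = ∑ k ∈ range D, t.choose k • Δ^k h (M₀)` for all `t` (Newton: `shift_eq_sum_fwdDiff_iter`, and `Δ^k = 0` for `k ≥ D`): a real
polynomial `p` in `t` (the binomial coefficients are polynomials in `t`: `descPochhammer`). If `p` has degree `k` and leading coefficient `a`,
then `p t / t ^ k → a ≠ 0` (`Polynomial.div_tendsto_leadingCoeff_div_of_degree_eq` or `isEquivalent_atTop_lead`); the bounds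
`c N ^ n ≤ h N ≤ C N ^ n` force `k = n` and `a ≥ c > 0` (`p ≠ 0` as `h N ≥ c N ^ n > 0`). Finally `(M₀ + t) ^ n / t ^ n → 1`.
-/

set_option autoImplicit false

universe u

namespace UTH

open Filter Topology

private theorem B0_zero (j : ℕ) : (fwdDiff 1)^[j] (0 : ℕ → ℤ) = 0 := by
  induction j with
  | zero => rfl
  | succ j ih =>
    rw [Function.iterate_succ_apply', ih]
    funext t
    unfold fwdDiff
    rfl

private theorem B0_poly (f : ℕ → ℤ) (D : ℕ) (hD : (fwdDiff 1)^[D] f = 0) :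
    ∃ P : Polynomial ℝ, ∀ t : ℕ, (f t : ℝ) = P.eval (t : ℝ) := by
  refine ⟨∑ k ∈ Finset.range D, Polynomial.C (((fwdDiff 1)^[k] f 0 : ℤ) / (k.factorial : ℝ)) * descPochhammer ℝ k,
    fun t => ?_⟩
  have hz : ∀ k, D ≤ k → (fwdDiff 1)^[k] f = 0 := by
    intro k hk
    obtain ⟨j, rfl⟩ := Nat.exists_eq_add_of_le hk
    rw [add_comm, Function.iterate_add_apply, hD, B0_zero]
  have h1 := shift_eq_sum_fwdDiff_iter (1 : ℕ) f t 0
  rw [smul_eq_mul, mul_one, zero_add] at h1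
  have h2 : ∑ k ∈ Finset.range (t + 1), t.choose k • (fwdDiff 1)^[k] f 0 =
      ∑ k ∈ Finset.range D, t.choose k • (fwdDiff 1)^[k] f 0 := by
    rcases le_total (t + 1) D with hle | hle
    · refine Finset.sum_subset (Finset.range_subset_range.2 hle) fun k _ hk => ?_
      rw [Finset.mem_range, not_lt] at hk
      rw [Nat.choose_eq_zero_of_lt (by omega), zero_smul]
    · refine (Finset.sum_subset (Finset.range_subset_range.2 hle) fun k _ hk => ?_).symm
      rw [Finset.mem_range, not_lt] at hk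
      rw [hz k hk, Pi.zero_apply, smul_zero]
  rw [h1, h2, Polynomial.eval_finsetSum, Int.cast_sum]
  refine Finset.sum_congr rfl fun k _ => ?_
  rw [Polynomial.eval_mul, Polynomial.eval_C, descPochhammer_eval_eq_descFactorial,
    Nat.descFactorial_eq_factorial_mul_choose]
  have h3 : (k.factorial : ℝ) ≠ 0 := Nat.cast_ne_zero.2 (Nat.factorial_ne_zero k)
  push_cast
  rw [nsmul_eq_mul]
  push_cast
  field_simp

theorem B0_lim (h : ℕ → ℤ) (D M₀ : ℕ) (hD : ∀ t : ℕ, (fwdDiff 1)^[D] (fun t : ℕ => h (M₀ + t)) t = 0) (n : ℕ)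
    (c C : ℝ) (hc : 0 < c) (hlo : ∀ N : ℕ, c * (N : ℝ) ^ n ≤ h N)
    (hup : ∀ N : ℕ, 1 ≤ N → (h N : ℝ) ≤ C * (N : ℝ) ^ n) :
    ∃ e : ℝ, 0 < e ∧ Tendsto (fun N : ℕ => (h N : ℝ) / (N : ℝ) ^ n) atTop (𝓝 e) := by
  obtain ⟨P, hP⟩ := B0_poly (fun t : ℕ => h (M₀ + t)) D (funext hD)
  obtain ⟨Q, hQ⟩ : ∃ Q : Polynomial ℝ, ∀ N : ℕ, M₀ ≤ N → (h N : ℝ) = Q.eval (N : ℝ) := by
    refine ⟨P.comp (Polynomial.X - Polynomial.C (M₀ : ℝ)), fun N hN => ?_⟩
    rw [Polynomial.eval_comp, Polynomial.eval_sub, Polynomial.eval_X, Polynomial.eval_C, ← Nat.cast_sub hN, ← hP (N - M₀),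
      Nat.add_sub_cancel' hN]
  have hev : ∀ᶠ N : ℕ in atTop, (h N : ℝ) / (N : ℝ) ^ n = Q.eval (N : ℝ) / (Polynomial.X ^ n : Polynomial ℝ).eval (N : ℝ) := by
    filter_upwards [eventually_ge_atTop M₀] with N hN
    rw [hQ N hN, Polynomial.eval_pow, Polynomial.eval_X]
  have hcN : ∀ᶠ N : ℕ in atTop, c ≤ (h N : ℝ) / (N : ℝ) ^ n := by
    filter_upwards [eventually_ge_atTop 1] with N hN
    have h1 : (0 : ℝ) < (N : ℝ) ^ n := pow_pos (by exact_mod_cast hN) n
    rw [le_div_iff₀ h1]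
    exact hlo N
  have hCN : ∀ᶠ N : ℕ in atTop, (h N : ℝ) / (N : ℝ) ^ n ≤ C := by
    filter_upwards [eventually_ge_atTop 1] with N hN
    have h1 : (0 : ℝ) < (N : ℝ) ^ n := pow_pos (by exact_mod_cast hN) n
    rw [div_le_iff₀ h1]
    exact hup N hN
  have hX : (Polynomial.X ^ n : Polynomial ℝ) ≠ 0 := pow_ne_zero _ Polynomial.X_ne_zero
  rcases lt_trichotomy Q.degree (Polynomial.X ^ n : Polynomial ℝ).degree with hd | hd | hd
  · exfalso
    have h1 := (Polynomial.div_tendsto_atTop_zero_of_degree_lt Q (Polynomial.X ^ n : Polynomial ℝ) hd).comp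
      (tendsto_natCast_atTop_atTop (R := ℝ))
    have h2 : Tendsto (fun N : ℕ => (h N : ℝ) / (N : ℝ) ^ n) atTop (𝓝 0) := h1.congr' (by
      filter_upwards [hev] with N hN
      exact hN.symm)
    exact absurd (ge_of_tendsto h2 hcN) (not_le.2 hc)
  · refine ⟨Q.leadingCoeff / (Polynomial.X ^ n : Polynomial ℝ).leadingCoeff, ?_, ?_⟩
    · have h1 := (Polynomial.div_tendsto_atTop_leadingCoeff_div_of_degree_eq Q (Polynomial.X ^ n : Polynomial ℝ) hd).comp
        (tendsto_natCast_atTop_atTop (R := ℝ))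
      have h2 : Tendsto (fun N : ℕ => (h N : ℝ) / (N : ℝ) ^ n) atTop
          (𝓝 (Q.leadingCoeff / (Polynomial.X ^ n : Polynomial ℝ).leadingCoeff)) := h1.congr' (by
        filter_upwards [hev] with N hN
        exact hN.symm)
      exact lt_of_lt_of_le hc (ge_of_tendsto h2 hcN)
    · have h1 := (Polynomial.div_tendsto_atTop_leadingCoeff_div_of_degree_eq Q (Polynomial.X ^ n : Polynomial ℝ) hd).comp
        (tendsto_natCast_atTop_atTop (R := ℝ))
      exact h1.congr' (by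
        filter_upwards [hev] with N hN
        exact hN.symm)
  · exfalso
    have h1 := (Polynomial.abs_div_tendsto_atTop_atTop_of_degree_gt Q (Polynomial.X ^ n : Polynomial ℝ) hd hX).comp
      (tendsto_natCast_atTop_atTop (R := ℝ))
    have h2 := h1.eventually (eventually_gt_atTop (max |c| |C|))
    obtain ⟨N, h3, h4, h5, h6⟩ := (h2.and (hcN.and (hCN.and hev))).exists
    rw [Function.comp_apply, ← h6] at h3
    have h7 : |(h N : ℝ) / (N : ℝ) ^ n| ≤ max |c| |C| := abs_le_max_abs_abs h4 h5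
    exact absurd h3 (not_lt.2 h7)

end UTH
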