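import Mathlib

/-!
Leaf B1 (MATHLIB ONLY): the sum of `h (N - j d)`.

PROOF. Let `0 < δ < e` be small. There is `N₁` with `(e - δ) u ^ n ≤ h u ≤ (e + δ) u ^ n` for `u ≥ N₁`. Hence
`∑ j ∈ Icc 1 (N / d), h (N - j d) ≥ (e - δ) ∑_j (N - j d) ^ n - C₁` (the finitely many terms with `N - j d < N₁` are `≥ 0 ≥ (e - δ) u ^ n - e N₁ ^ n`, at most
`N₁ / d + 1` of them). And `∑ j ∈ Icc 1 (N / d), (N - j d) ^ n ≥ (N - d) ^ (n + 1) / (d (n + 1))` for `N ≥ d`: induction / telescoping with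
`(n + 1) d u ^ n ≥ u ^ (n + 1) - (u - d) ^ (n + 1)` for `u ≥ d` (and `(n + 1) d u ^ n ≥ u ^ (n + 1)` for `0 ≤ u < d`), from
`u ^ (n + 1) - w ^ (n + 1) ≤ (n + 1) (u - w) u ^ n` for `0 ≤ w ≤ u`. Compare with `N * h N ≤ (e + δ) N ^ (n + 1)` and let `N → ∞`, `δ → 0`.
(If `1 / ((n + 1) d) - η ≤ 0` the left-hand side is `≤ 0`.)
-/

set_option autoImplicit false

universe u

namespace UTH

open Filter Topology

private theorem B1_pow (n : ℕ) : ∀ u w : ℝ, 0 ≤ w → w ≤ u →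
    u ^ (n + 1) ≤ w ^ (n + 1) + ((n : ℝ) + 1) * (u - w) * u ^ n := by
  induction n with
  | zero =>
    intro u w _ _
    simp
  | succ n ih =>
    intro u w h0 h1
    have h2 := ih u w h0 h1
    have hu : 0 ≤ u := h0.trans h1
    have h3 : w ^ (n + 1) ≤ u ^ (n + 1) := pow_le_pow_left₀ h0 h1 _
    have h4 := mul_le_mul_of_nonneg_left h2 hu
    have h5 := mul_le_mul_of_nonneg_left h3 (sub_nonneg.mpr h1)
    calc u ^ (n + 1 + 1) = u * u ^ (n + 1) := by ring
      _ ≤ u * (w ^ (n + 1) + ((n : ℝ) + 1) * (u - w) * u ^ n) := h4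
      _ = w ^ (n + 1 + 1) + (u - w) * w ^ (n + 1) + ((n : ℝ) + 1) * (u - w) * u ^ (n + 1) := by
        ring
      _ ≤ w ^ (n + 1 + 1) + (u - w) * u ^ (n + 1) + ((n : ℝ) + 1) * (u - w) * u ^ (n + 1) := by
        linarith
      _ = w ^ (n + 1 + 1) + (((n + 1 : ℕ) : ℝ) + 1) * (u - w) * u ^ (n + 1) := by
        push_cast
        ring

private theorem B1_step (n d u : ℕ) : (u : ℝ) ^ (n + 1) ≤
    ((u - d : ℕ) : ℝ) ^ (n + 1) + ((n : ℝ) + 1) * d * (u : ℝ) ^ n := by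
  by_cases h : d ≤ u
  · have h1 := B1_pow n (u : ℝ) ((u - d : ℕ) : ℝ) (Nat.cast_nonneg _)
      (by exact_mod_cast Nat.sub_le u d)
    have h2 : (u : ℝ) - ((u - d : ℕ) : ℝ) = d := by
      rw [Nat.cast_sub h]
      ring
    rw [h2] at h1
    exact h1
  · have h1 := B1_pow n (u : ℝ) 0 le_rfl (Nat.cast_nonneg _)
    have h2 : u - d = 0 := by omega
    rw [h2, Nat.cast_zero]
    have h3 : (u : ℝ) ≤ d := by exact_mod_cast (by omega : u ≤ d)
    have h4 : ((n : ℝ) + 1) * ((u : ℝ) - 0) * (u : ℝ) ^ n ≤ ((n : ℝ) + 1) * d * (u : ℝ) ^ n := by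
      rw [sub_zero]
      refine mul_le_mul_of_nonneg_right ?_ (by positivity)
      exact mul_le_mul_of_nonneg_left h3 (by positivity)
    linarith

private theorem B1_Icc (f : ℕ → ℝ) (m : ℕ) :
    ∑ j ∈ Finset.Icc 1 m, f j = ∑ i ∈ Finset.range m, f (i + 1) := by
  induction m with
  | zero => simp
  | succ m ih => rw [Finset.sum_Icc_succ_top (by omega), ih, Finset.sum_range_succ]

private theorem B1_powsum (n d : ℕ) (hd : 0 < d) (N : ℕ) : ((N - d : ℕ) : ℝ) ^ (n + 1) ≤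
    ((n : ℝ) + 1) * d * ∑ i ∈ Finset.range (N / d), ((N - (i + 1) * d : ℕ) : ℝ) ^ n := by
  induction N using Nat.strong_induction_on with
  | _ N ih =>
    by_cases h : N < d
    · have h1 : N - d = 0 := by omega
      rw [h1, Nat.div_eq_of_lt h]
      simp
    · have hN : d ≤ N := not_lt.mp h
      have h1 : N / d = (N - d) / d + 1 := Nat.div_eq_sub_div hd hN
      rw [h1, Finset.sum_range_succ']
      have h2 := ih (N - d) (by omega)
      have h3 := B1_step n d (N - d)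
      have h4 : ∑ i ∈ Finset.range ((N - d) / d), ((N - (i + 1 + 1) * d : ℕ) : ℝ) ^ n =
          ∑ i ∈ Finset.range ((N - d) / d), ((N - d - (i + 1) * d : ℕ) : ℝ) ^ n := by
        refine Finset.sum_congr rfl fun i _ => ?_
        have h5 : N - (i + 1 + 1) * d = N - d - (i + 1) * d := by
          rw [Nat.sub_sub]
          congr 1
          ring
        rw [h5]
      rw [h4, mul_add]
      have h6 : N - (0 + 1) * d = N - d := by
        congr 1
        ring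
      rw [h6]
      linarith

private theorem B1_count (N₁ d : ℕ) (hd : 0 < d) (N : ℕ) :
    ((Finset.range (N / d)).filter fun i => N - (i + 1) * d < N₁).card ≤ N₁ := by
  have h := Finset.card_le_card_of_injOn (s := (Finset.range (N / d)).filter
    fun i => N - (i + 1) * d < N₁) (t := Finset.range N₁) (fun i => N - (i + 1) * d) ?_ ?_
  · rwa [Finset.card_range] at h
  · intro i hi
    have h1 := (Finset.mem_filter.mp (Finset.mem_coe.mp hi)).2
    exact Finset.mem_coe.mpr (Finset.mem_range.mpr h1)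
  · intro i hi j hj hij
    have h1 := Finset.mem_range.mp (Finset.mem_filter.mp (Finset.mem_coe.mp hi)).1
    have h2 := Finset.mem_range.mp (Finset.mem_filter.mp (Finset.mem_coe.mp hj)).1
    have h3 : (i + 1) * d ≤ N :=
      (Nat.mul_le_mul_right d (Nat.succ_le_of_lt h1)).trans (Nat.div_mul_le_self N d)
    have h4 : (j + 1) * d ≤ N :=
      (Nat.mul_le_mul_right d (Nat.succ_le_of_lt h2)).trans (Nat.div_mul_le_self N d)
    have h5 : N - (i + 1) * d = N - (j + 1) * d := hij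
    have h6 : (i + 1) * d = (j + 1) * d := by omega
    have h7 := Nat.eq_of_mul_eq_mul_right hd h6
    omega

theorem B1_sum (h : ℕ → ℝ) (h0 : ∀ N, 0 ≤ h N) (n : ℕ) (e : ℝ) (he : 0 < e)
    (hlim : Tendsto (fun N : ℕ => h N / (N : ℝ) ^ n) atTop (𝓝 e)) (d : ℕ) (hd : 0 < d) (η : ℝ) (hη : 0 < η) :
    ∃ N₀ : ℕ, ∀ N ≥ N₀, (1 / (((n : ℝ) + 1) * d) - η) * (N * h N) ≤ ∑ j ∈ Finset.Icc 1 (N / d), h (N - j * d) := by
  have hsum0 : ∀ N : ℕ, 0 ≤ ∑ j ∈ Finset.Icc 1 (N / d), h (N - j * d) := fun N =>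
    Finset.sum_nonneg fun j _ => h0 _
  have hd0 : (0 : ℝ) < d := by exact_mod_cast hd
  obtain ⟨c₀, hc₀⟩ : ∃ c : ℝ, c = 1 / (((n : ℝ) + 1) * d) := ⟨_, rfl⟩
  have hc₀pos : 0 < c₀ := by rw [hc₀]; positivity
  rw [← hc₀]
  by_cases hc : c₀ - η ≤ 0
  · refine ⟨0, fun N _ => ?_⟩
    have h1 : (c₀ - η) * (N * h N) ≤ 0 :=
      mul_nonpos_of_nonpos_of_nonneg hc (mul_nonneg (Nat.cast_nonneg _) (h0 N))
    exact h1.trans (hsum0 N)
  · have hc1 : 0 < c₀ - η := not_le.mp hc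
    obtain ⟨δ, hδ⟩ : ∃ δ : ℝ, δ = min (e / 2) (e * η / (4 * c₀)) := ⟨_, rfl⟩
    have hδ0 : 0 < δ := by
      rw [hδ]
      exact lt_min (by linarith) (by positivity)
    have hδ1 : δ ≤ e / 2 := by rw [hδ]; exact min_le_left _ _
    have hδ2 : δ ≤ e * η / (4 * c₀) := by rw [hδ]; exact min_le_right _ _
    have hδ3 : 4 * c₀ * δ ≤ e * η := by
      rw [le_div_iff₀ (by positivity)] at hδ2
      linarith
    -- the limit
    have hev := (Metric.tendsto_atTop.mp hlim) δ hδ0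
    obtain ⟨N₁, hN₁⟩ := hev
    have hb : ∀ u : ℕ, max N₁ 1 ≤ u → (e - δ) * (u : ℝ) ^ n ≤ h u ∧ h u ≤ (e + δ) * (u : ℝ) ^ n := by
      intro u hu
      have h1 := hN₁ u ((le_max_left _ _).trans hu)
      have hu0 : (0 : ℝ) < (u : ℝ) := by
        exact_mod_cast lt_of_lt_of_le Nat.one_pos ((le_max_right _ _).trans hu)
      have hun : (0 : ℝ) < (u : ℝ) ^ n := pow_pos hu0 n
      rw [Real.dist_eq, abs_lt] at h1
      constructor
      · have h2 : e - δ ≤ h u / (u : ℝ) ^ n := by linarith [h1.1]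
        rwa [le_div_iff₀ hun] at h2
      · have h2 : h u / (u : ℝ) ^ n ≤ e + δ := by linarith [h1.2]
        rwa [div_le_iff₀ hun] at h2
    obtain ⟨M, hM⟩ : ∃ M : ℕ, M = max N₁ 1 := ⟨_, rfl⟩
    rw [← hM] at hb
    have hed : 0 < e - δ := by linarith
    have hlow : ∀ u : ℕ, (e - δ) * (u : ℝ) ^ n - (if u < M then e * (M : ℝ) ^ n else 0) ≤ h u := by
      intro u
      by_cases hu : u < M
      · rw [if_pos hu]
        have h1 : (u : ℝ) ^ n ≤ (M : ℝ) ^ n :=
          pow_le_pow_left₀ (Nat.cast_nonneg _) (by exact_mod_cast hu.le) n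
        have h2 : (e - δ) * (u : ℝ) ^ n ≤ e * (M : ℝ) ^ n :=
          mul_le_mul (by linarith) h1 (by positivity) he.le
        linarith [h0 u]
      · rw [if_neg hu, sub_zero]
        exact (hb u (not_lt.mp hu)).1
    have hS : ∀ N : ℕ, (e - δ) * (c₀ * ((N - d : ℕ) : ℝ) ^ (n + 1)) - e * (M : ℝ) ^ n * M ≤
        ∑ j ∈ Finset.Icc 1 (N / d), h (N - j * d) := by
      intro N
      rw [B1_Icc (fun j => h (N - j * d)) (N / d)]
      have h1 := B1_powsum n d hd N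
      have h2 : c₀ * ((N - d : ℕ) : ℝ) ^ (n + 1) ≤
          ∑ i ∈ Finset.range (N / d), ((N - (i + 1) * d : ℕ) : ℝ) ^ n := by
        have h3 := mul_le_mul_of_nonneg_left h1 hc₀pos.le
        have h4 : c₀ * (((n : ℝ) + 1) * d) = 1 := by
          rw [hc₀]
          exact one_div_mul_cancel (by positivity)
        calc c₀ * ((N - d : ℕ) : ℝ) ^ (n + 1)
            ≤ c₀ * (((n : ℝ) + 1) * d *
              ∑ i ∈ Finset.range (N / d), ((N - (i + 1) * d : ℕ) : ℝ) ^ n) := h3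
          _ = (c₀ * (((n : ℝ) + 1) * d)) *
              ∑ i ∈ Finset.range (N / d), ((N - (i + 1) * d : ℕ) : ℝ) ^ n := by ring
          _ = _ := by rw [h4, one_mul]
      have h5 : ∑ i ∈ Finset.range (N / d), ((e - δ) * ((N - (i + 1) * d : ℕ) : ℝ) ^ n -
          (if N - (i + 1) * d < M then e * (M : ℝ) ^ n else 0)) ≤
          ∑ i ∈ Finset.range (N / d), h (N - (i + 1) * d) :=
        Finset.sum_le_sum fun i _ => hlow _
      rw [Finset.sum_sub_distrib, ← Finset.mul_sum, ← Finset.sum_filter, Finset.sum_const,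
        nsmul_eq_mul] at h5
      have h6 : ((((Finset.range (N / d)).filter fun i => N - (i + 1) * d < M).card : ℕ) : ℝ) ≤ M := by
        exact_mod_cast B1_count M d hd N
      have h7 : ((((Finset.range (N / d)).filter fun i => N - (i + 1) * d < M).card : ℕ) : ℝ) *
          (e * (M : ℝ) ^ n) ≤ M * (e * (M : ℝ) ^ n) :=
        mul_le_mul_of_nonneg_right h6 (by positivity)
      have h8 := mul_le_mul_of_nonneg_left h2 hed.le
      linarith
    -- comparison of the limits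
    obtain ⟨C₂, hC₂⟩ : ∃ C : ℝ, C = e * (M : ℝ) ^ n * M := ⟨_, rfl⟩
    rw [← hC₂] at hS
    have t1 : Tendsto (fun N : ℕ => (1 : ℝ) - (d : ℝ) / (N : ℝ)) atTop (𝓝 (1 - 0)) :=
      tendsto_const_nhds.sub (tendsto_const_div_atTop_nhds_zero_nat (d : ℝ))
    have t2 : Tendsto (fun N : ℕ => C₂ / (N : ℝ) ^ (n + 1)) atTop (𝓝 0) := by
      refine tendsto_const_nhds.div_atTop ?_
      exact (tendsto_pow_atTop (Nat.succ_ne_zero n)).comp tendsto_natCast_atTop_atTop
    have t3 : Tendsto (fun N : ℕ => (e - δ) * (c₀ * ((1 : ℝ) - (d : ℝ) / (N : ℝ)) ^ (n + 1)) -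
        C₂ / (N : ℝ) ^ (n + 1)) atTop (𝓝 ((e - δ) * (c₀ * (1 - 0) ^ (n + 1)) - 0)) :=
      (((t1.pow (n + 1)).const_mul c₀).const_mul (e - δ)).sub t2
    have hlt : (c₀ - η) * (e + δ) < (e - δ) * (c₀ * (1 - 0) ^ (n + 1)) - 0 := by
      rw [sub_zero, sub_zero, one_pow, mul_one]
      have h1 : 0 < η * δ := mul_pos hη hδ0
      have h2 : 0 < e * η := mul_pos he hη
      nlinarith
    have t4 := t3.eventually (lt_mem_nhds hlt)
    obtain ⟨N₂, hN₂⟩ := Filter.eventually_atTop.mp t4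
    refine ⟨max (max M d) (max N₂ 1), fun N hN => ?_⟩
    have hNM : M ≤ N := (le_max_left _ _).trans ((le_max_left _ _).trans hN)
    have hNd : d ≤ N := (le_max_right _ _).trans ((le_max_left _ _).trans hN)
    have hN2 : N₂ ≤ N := (le_max_left _ _).trans ((le_max_right _ _).trans hN)
    have hN1 : 1 ≤ N := (le_max_right _ _).trans ((le_max_right _ _).trans hN)
    have hNpos : (0 : ℝ) < (N : ℝ) := by exact_mod_cast hN1
    have hNp : (0 : ℝ) < (N : ℝ) ^ (n + 1) := pow_pos hNpos _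
    have h1 := hN₂ N hN2
    have h2 := mul_le_mul_of_nonneg_right (le_of_lt h1) hNp.le
    have h3 : ((e - δ) * (c₀ * ((1 : ℝ) - (d : ℝ) / (N : ℝ)) ^ (n + 1)) -
        C₂ / (N : ℝ) ^ (n + 1)) * (N : ℝ) ^ (n + 1) =
        (e - δ) * (c₀ * ((N - d : ℕ) : ℝ) ^ (n + 1)) - C₂ := by
      have h4 : ((N - d : ℕ) : ℝ) = (1 - (d : ℝ) / (N : ℝ)) * N := by
        rw [Nat.cast_sub hNd]
        field_simp
      rw [h4, mul_pow, sub_mul, div_mul_cancel₀ _ hNp.ne']
      ring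
    rw [h3] at h2
    have h5 := (hb N hNM).2
    have h6 : (c₀ - η) * (N * h N) ≤ (c₀ - η) * (e + δ) * (N : ℝ) ^ (n + 1) := by
      have h7 : (N : ℝ) * h N ≤ N * ((e + δ) * (N : ℝ) ^ n) :=
        mul_le_mul_of_nonneg_left h5 hNpos.le
      have h8 := mul_le_mul_of_nonneg_left h7 hc1.le
      calc (c₀ - η) * (N * h N) ≤ (c₀ - η) * (N * ((e + δ) * (N : ℝ) ^ n)) := h8
        _ = (c₀ - η) * (e + δ) * (N : ℝ) ^ (n + 1) := by ring
    exact h6.trans (h2.trans (hS N))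

end UTH
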