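import Pool.Agent.Lib.MP_17a322_ntTB.H5
import Pool.Agent.Lib.MP_17a322_ntTC.CDefs
import Pool.Agent.Lib.MP_17a322_ntTQ.Q1
import Pool.Agent.Lib.MP_17a322_ntTH.B0

/-!
Leaf B2: the Hilbert function of the generic fibre `X_P` in `ℙ^m` (one block) divided by `N ^ n` has a positive limit.

PROOF. Take `k = Ω = L₀`, `h j = sp (H j) (A.x P₀)`: `Ik h = fib H (A.x P₀)` (rfl) and `IΩ h L₀ = Ik h` (`map (algebraMap L₀ L₀) = id`).
`h j ∈ MH L₀ m d` from `hX.hom`. `Q1_poly` (any field) for `i = 0`, `M = fun _ => M₀` gives the vanishing of the `D`-th differences of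
`t ↦ hf (fun _ => M₀ + t)`; `H5_lo` (with `hbig` from `hD.big`, the points with `y i 0 ≠ 0` are the hypothesis `hz`) gives `N ^ n ≤ n! * hf`;
`H5_up` (from `hD.le`) gives `hf (fun _ => ν) ≤ C * ν ^ n`. Then `B0_lim` with `c = 1 / n!`. (`InZ h y ↔ InX H (A.x P₀) y`: `val` is `eval` of `sp`.)
-/

set_option autoImplicit false

universe u

namespace UTH

open MvPolynomial UTA UTD UTC Filter Topology
open Pool.Agent.Lib.MP_17a322_nt.VA Pool.Agent.Lib.MP_17a322_nt.SL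

theorem B2_lim {K : Type u} [Field K] {N m κ n : ℕ} (A : AV K N) (H : Fin κ → Fm K N 1 m) (hX : Vars A H ∅)
    (hD : Dim n A H) {L₀ : Type u} [Field L₀] [IsAlgClosed L₀] [Algebra K L₀] (P₀ : A.Pts L₀) (hP₀ : Gen A P₀)
    (hz : ∃ y, InX H (A.x P₀) y ∧ y 0 0 ≠ 0) :
    ∃ e : ℝ, 0 < e ∧
      Tendsto (fun ν : ℕ => (UTA.hf (fib H (A.x P₀)) (fun _ => ν) : ℝ) / (ν : ℝ) ^ n) atTop (𝓝 e) := by
  classical
  let h : Fin κ → MvPolynomial (Fin 1 × Fin (m + 1)) L₀ := fun j => sp (H j) (A.x P₀)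
  have hIk : Ik h = fib H (A.x P₀) := rfl
  have hIΩ : IΩ h L₀ = fib H (A.x P₀) := by
    rw [← hIk]
    unfold IΩ Ik
    have h1 : (fun j => map (algebraMap L₀ L₀) (h j)) = h := by
      funext j
      rw [Algebra.algebraMap_self, MvPolynomial.map_id]
    rw [h1]
  have hh : ∀ j, ∃ d, h j ∈ MH L₀ m d := by
    intro j
    obtain ⟨a, d, hM⟩ := hX.hom j
    exact ⟨d, fun μ hμ => hM.2 μ (support_map_subset _ _ hμ)⟩
  have hp : (Ik h).IsPrime := hX.prime L₀ P₀ hP₀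
  have hpΩ : (IΩ h L₀).IsPrime := by
    rw [hIΩ]
    exact hX.prime L₀ P₀ hP₀
  have hInZ : ∀ y : Fin 1 → Fin (m + 1) → L₀, InZ h y ↔ InX H (A.x P₀) y := by
    intro y
    unfold InZ InX val
    refine and_congr Iff.rfl (forall_congr' fun j => ?_)
    have h5 : (aeval (fun z : Fin 1 × Fin (m + 1) => y z.1 z.2) (h j) : L₀) =
        eval (fun z : Fin 1 × Fin (m + 1) => y z.1 z.2) (h j) := by
      rw [aeval_eq_eval]
    rw [h5]
  obtain ⟨D, M₀, hQ⟩ := UTQ.Q1_poly hh hp (hX.ne L₀ P₀ hP₀)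
  obtain ⟨C, hC⟩ := UTB.H5_up (n := n) hh L₀ (by
    obtain ⟨d, hd, f, hf1, hf2⟩ := hD.le L₀ P₀ hP₀
    exact ⟨d, hd, f, hf1, fun y hy => hf2 y ((hInZ y).1 hy)⟩)
  have hlo : ∀ M : Fin 1 → ℕ, ∀ l, (M l) ^ n ≤ n.factorial * UTA.hf (Ik h) M := by
    intro M l
    refine UTB.H5_lo L₀ hpΩ ?_ ?_ M l
    · intro i
      obtain ⟨t, ht⟩ := hD.big L₀ P₀ hP₀ i
      refine ⟨t, fun G hG => ht G ?_⟩
      rw [← hIΩ]
      exact hG
    · intro i
      obtain ⟨y, hy, hy0⟩ := hz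
      refine ⟨y, (hInZ y).2 hy, ?_⟩
      have hi : i = 0 := Subsingleton.elim _ _
      rw [hi]
      exact hy0
  have hfac : (0 : ℝ) < (n.factorial : ℝ) := by exact_mod_cast n.factorial_pos
  obtain ⟨e, he, hlim⟩ := B0_lim (fun ν : ℕ => (UTA.hf (fib H (A.x P₀)) (fun _ => ν) : ℤ)) D M₀ (by
    intro t
    have h1 := (hQ 0 (fun _ => M₀) (fun _ => le_refl _)).1 t
    have h2 : (fun t : ℕ => (UTA.hf (Ik h) ((fun _ => M₀) + t • Pi.single (0 : Fin 1) 1) : ℤ)) =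
        fun t : ℕ => (UTA.hf (fib H (A.x P₀)) (fun _ => M₀ + t) : ℤ) := by
      funext t
      have h3 : ((fun _ => M₀) + t • Pi.single (0 : Fin 1) 1 : Fin 1 → ℕ) = fun _ => M₀ + t := by
        funext i
        have hi : i = 0 := Subsingleton.elim _ _
        rw [hi, Pi.add_apply, Pi.smul_apply, Pi.single_eq_same, smul_eq_mul, mul_one]
      rw [h3, hIk]
    rw [h2] at h1
    exact h1) n (1 / n.factorial) C (by positivity) (by
    intro ν
    have h1 := hlo (fun _ => ν) 0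
    have h2 : ((ν : ℝ)) ^ n ≤ (n.factorial : ℝ) * (UTA.hf (Ik h) (fun _ : Fin 1 => ν) : ℝ) := by
      exact_mod_cast h1
    rw [Int.cast_natCast, one_div, inv_mul_le_iff₀ hfac]
    exact h2) (by
    intro ν hν
    rw [Int.cast_natCast]
    exact hC ν hν)
  refine ⟨e, he, ?_⟩
  have h4 : (fun ν : ℕ => (((UTA.hf (fib H (A.x P₀)) (fun _ => ν) : ℕ) : ℤ) : ℝ) / (ν : ℝ) ^ n) =
      fun ν : ℕ => ((UTA.hf (fib H (A.x P₀)) (fun _ => ν) : ℕ) : ℝ) / (ν : ℝ) ^ n := by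
    funext ν
    rw [Int.cast_natCast]
  rw [← h4]
  exact hlim

end UTH
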