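import Pool.Agent.Lib.MP_17a322_ntTA.B3
import Pool.Agent.Lib.MP_17a322_ntTH.Defs

/-!
Leaf B3: the multiples of `f ^ j` vanish to order `j`.

PROOF. The map `p ↦ f ^ j * p` sends `MH L m M'` to `MH L m M ⊓ sat (I ⊔ span {f ^ j})` and induces an injective linear map between
the images in the ring modulo `I` (`I` is prime and `f ∉ I`); the target is finite dimensional (`B3_fd`). (Model: `UTB` ntTB/H1 `H1_step`.)
-/

set_option autoImplicit false

universe u

namespace UTH

open MvPolynomial UTA UTD UTC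

private theorem B3_pow {L : Type u} [Field L] {q m : ℕ} {f : MvPolynomial (Fin q × Fin (m + 1)) L} {δ : Fin q → ℕ}
    (hfδ : f ∈ MH L m δ) (j : ℕ) : f ^ j ∈ MH L m (j • δ) := by
  induction j with
  | zero =>
    intro μ hμ i
    rw [pow_zero, mem_support_iff, coeff_one] at hμ
    have h1 : (0 : Fin q × Fin (m + 1) →₀ ℕ) = μ := by
      by_contra h1
      exact hμ (if_neg h1)
    rw [← h1, zero_smul]
    simp
  | succ j ih =>
    rw [pow_succ, succ_nsmul]
    exact B3_mul ih hfδ

theorem B3_ord {L : Type u} [Field L] {q m : ℕ} {I : Ideal (MvPolynomial (Fin q × Fin (m + 1)) L)} (hI : I.IsPrime)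
    {f : MvPolynomial (Fin q × Fin (m + 1)) L} {δ : Fin q → ℕ} (hfδ : f ∈ MH L m δ) (hfI : f ∉ I)
    {M M' : Fin q → ℕ} {j : ℕ} (hM : M = M' + j • δ) : UTA.hf I M' ≤ ordF I M f j := by
  have := hI
  have : IsDomain (MvPolynomial (Fin q × Fin (m + 1)) L ⧸ I) := Ideal.Quotient.isDomain I
  have h0 := B3_fd (k := L) (m := m) M
  have hne : Ideal.Quotient.mk I (f ^ j) ≠ 0 := by
    intro h
    rw [Ideal.Quotient.eq_zero_iff_mem] at h
    exact hfI (hI.mem_of_pow_mem j h)
  have hfd : FiniteDimensional L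
      ((MH L m M) ⊓ (sat (I ⊔ Ideal.span {f ^ j})).restrictScalars L : Submodule L _) :=
    Submodule.finiteDimensional_of_le inf_le_left
  have hfd2 : FiniteDimensional L (((MH L m M) ⊓ (sat (I ⊔ Ideal.span {f ^ j})).restrictScalars L).map
      (Ideal.Quotient.mkₐ L I).toLinearMap) := Module.Finite.map _ _
  have hmem : ∀ x ∈ (MH L m M').map (Ideal.Quotient.mkₐ L I).toLinearMap,
      LinearMap.mulLeft L (Ideal.Quotient.mk I (f ^ j)) x ∈
        ((MH L m M) ⊓ (sat (I ⊔ Ideal.span {f ^ j})).restrictScalars L).map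
          (Ideal.Quotient.mkₐ L I).toLinearMap := by
    intro x hx
    obtain ⟨p, hp, rfl⟩ := Submodule.mem_map.1 hx
    refine Submodule.mem_map.2 ⟨f ^ j * p, Submodule.mem_inf.2 ⟨?_, ?_⟩, ?_⟩
    · rw [hM, add_comm M' (j • δ)]
      exact B3_mul (B3_pow hfδ j) hp
    · have h1 : f ^ j * p ∈ I ⊔ Ideal.span {f ^ j} :=
        Ideal.mem_sup_right (Ideal.mul_mem_right p _ (Ideal.mem_span_singleton_self _))
      intro l
      refine ⟨0, ?_⟩
      rw [pow_zero, one_mul]
      exact h1
    · exact map_mul (Ideal.Quotient.mk I) (f ^ j) p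
  let φ : (MH L m M').map (Ideal.Quotient.mkₐ L I).toLinearMap →ₗ[L]
      ((MH L m M) ⊓ (sat (I ⊔ Ideal.span {f ^ j})).restrictScalars L).map
        (Ideal.Quotient.mkₐ L I).toLinearMap :=
    (LinearMap.mulLeft L (Ideal.Quotient.mk I (f ^ j))).restrict hmem
  have hφ : Function.Injective φ := by
    intro x y hxy
    apply Subtype.ext
    have h1 : Ideal.Quotient.mk I (f ^ j) * (x : MvPolynomial (Fin q × Fin (m + 1)) L ⧸ I) =
        Ideal.Quotient.mk I (f ^ j) * (y : MvPolynomial (Fin q × Fin (m + 1)) L ⧸ I) :=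
      congrArg Subtype.val hxy
    exact mul_left_cancel₀ hne h1
  exact LinearMap.finrank_le_finrank_of_injective hφ

end UTH
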