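import Pool.Agent.Lib.MP_17a322_nt.EF.T1
import Pool.Agent.Lib.MP_17a322_ntTA.Y1
import Pool.Agent.Lib.MP_17a322_ntTH.A9
import Pool.Agent.Lib.MP_17a322_ntTH.B1
import Pool.Agent.Lib.MP_17a322_ntTH.B2
import Pool.Agent.Lib.MP_17a322_ntTH.B3

/-!
Leaf B4: the theorem of Evertse and Ferretti over an abelian variety.

PROOF. `T_gen A` gives `L₀`, `P₀`; `h ν = hf (fib H (A.x P₀)) (fun _ => ν)`, `h ν / ν ^ n → e > 0` (`B2_lim`; the point with `y 0 0 ≠ 0` from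
`NF.exc' hC (NF.y0' hC 0)`, as in: `obtain ⟨y, hy, hy0⟩ := (NF.exc' hC (NF.y0' hC 0)).2 L₀ P₀ hP₀; rwa [val_y0] at hy0`). Let `η > 0` be small. By `B1_sum` for the finitely many `d i` and for `e > 0` there is `ν ≥ 1`
with `h ν ≥ 1` and `(1 / ((n + 1) d_i) - η) ν (h ν) ≤ ∑ j ∈ Icc 1 (ν / d i), h (ν - j * d i)` for all `i`. Take `M = fun _ => ν`, `J = ν` in `T4F_max`, with
`f = 1`, `e = 0` (`LR 0 1 v x = 0`), `mo` from `exists_isMon`, `hPl ≥ 0` (`logHeight_nonneg`); by `B3_ord` (`M' = fun _ => ν - j * d i`) the number `W i` in `T4F_max` is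
`≥ ∑ j ∈ Icc 1 (ν / d i), h (ν - j * d i) ≥ w_i := (1 / ((n + 1) d_i) - η) ν (h ν)`. All `lamF ≥ -c_v` (`D0_bd`), so `W i * lamF ≥ w_i * lamF - (W i - w_i) c_v`
if `W i ≥ w_i`; multiply by `(n + 1) / (ν h ν)`: `∑ i ∈ Q, (1 / d_i - (n + 1) η) lamF_i ≤ ...`, and `(n + 1) η ∑ i ∈ Q, lamF_i ≤ (n + 1) η ∑ i, (lamF_i + c_v)`, which sums over the
places to at most `(n + 1) η (∑ i, (α i * logHeight (A.x P) + d i * logHeight (y 0)) + C)` by `A0_ub`. Choose `η` with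
`(n + 1) η ∑ i, (α i + d i) ≤ ε / 2` and the `ε` of `T4F_max` with `ε₂ (n + 1) / (ν h ν) ≤ ε / 2`.
-/

set_option autoImplicit false

universe u

namespace UTH

open MvPolynomial UTA UTD UTC Height NumberField
open Pool.Agent.Lib.MP_17a322_nt.VA
open Pool.Agent.Lib.MP_17a322_nt.SL (Gen)

private theorem B4_hom {K : Type u} [Field K] {N q m : ℕ} {F : Fm K N q m} {a : ℕ} {d : Fin q → ℕ} (hF : Mh F a d)
    {L : Type u} [Field L] [Algebra K L] (x : Fin (N + 1) → L) : sp F x ∈ MH L m d := by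
  classical
  intro μ hμ
  refine hF.2 μ (mem_support_iff.2 fun h0 => ?_)
  rw [mem_support_iff, UTA.sp, coeff_map, h0, map_zero] at hμ
  exact hμ rfl

/-- The sum at one place. -/
private theorem B4_loc {s : ℕ} (Q : Finset (Fin s)) (k w W lam b : Fin s → ℝ) (κ η : ℝ) (hκ : 0 ≤ κ) (hη : 0 ≤ η)
    (hk : ∀ i, k i = κ * w i + η) (hw : ∀ i, w i ≤ W i) (hb : ∀ i, 0 ≤ b i) (hl : ∀ i, - b i ≤ lam i) :
    ∑ i ∈ Q, k i * lam i ≤ κ * ∑ i ∈ Q, W i * lam i + η * ∑ i, lam i + ∑ i, (κ * (W i - w i) * b i + η * b i) := by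
  have h1 : ∀ i, k i * lam i ≤ κ * (W i * lam i) + (κ * (W i - w i) * b i + η * (lam i + b i)) := by
    intro i
    have h2 : 0 ≤ κ * ((W i - w i) * (lam i + b i)) :=
      mul_nonneg hκ (mul_nonneg (sub_nonneg.2 (hw i)) (by linarith [hl i]))
    have h3 : 0 ≤ η * b i := mul_nonneg hη (hb i)
    rw [hk]
    nlinarith [h2, h3]
  have h2 : ∀ i, 0 ≤ κ * (W i - w i) * b i + η * (lam i + b i) := by
    intro i
    have h3 : 0 ≤ κ * (W i - w i) * b i := mul_nonneg (mul_nonneg hκ (sub_nonneg.2 (hw i))) (hb i)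
    have h4 : 0 ≤ η * (lam i + b i) := mul_nonneg hη (by linarith [hl i])
    linarith
  calc ∑ i ∈ Q, k i * lam i ≤ ∑ i ∈ Q, (κ * (W i * lam i) + (κ * (W i - w i) * b i + η * (lam i + b i))) :=
        Finset.sum_le_sum fun i _ => h1 i
    _ = κ * ∑ i ∈ Q, W i * lam i + ∑ i ∈ Q, (κ * (W i - w i) * b i + η * (lam i + b i)) := by
        rw [Finset.sum_add_distrib, Finset.mul_sum]
    _ ≤ κ * ∑ i ∈ Q, W i * lam i + ∑ i, (κ * (W i - w i) * b i + η * (lam i + b i)) := by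
        have h3 : ∑ i ∈ Q, (κ * (W i - w i) * b i + η * (lam i + b i)) ≤
            ∑ i, (κ * (W i - w i) * b i + η * (lam i + b i)) :=
          Finset.sum_le_sum_of_subset_of_nonneg (Finset.subset_univ _) fun i _ _ => h2 i
        linarith
    _ = _ := by
        have h4 : ∑ i, (κ * (W i - w i) * b i + η * (lam i + b i)) =
            η * ∑ i, lam i + ∑ i, (κ * (W i - w i) * b i + η * b i) := by
          rw [Finset.mul_sum, ← Finset.sum_add_distrib]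
          refine Finset.sum_congr rfl fun i _ => ?_
          ring
        rw [h4, add_assoc]

/-- The local height is bounded from below. -/
private theorem B4_low {K : Type u} [Field K] {N q m : ℕ} {F : Fm K N q m} {a : ℕ} {d : Fin q → ℕ} (hF : Mh F a d)
    (v : AbsoluteValue K ℝ) : ∃ b : ℝ, 0 ≤ b ∧ ∀ (x : Fin (N + 1) → K) (y : Fin q → Fin (m + 1) → K), x ≠ 0 →
      (∀ i, y i ≠ 0) → val F x y ≠ 0 → - b ≤ lamF a d F v x y := by
  obtain ⟨C, hC, h⟩ := D0_bd hF v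
  have hsup : ∀ {r : ℕ} (z : Fin (r + 1) → K), z ≠ 0 → 0 < ⨆ i, v (z i) := by
    intro r z hz
    obtain ⟨i, hi⟩ := Function.ne_iff.1 hz
    exact (v.pos hi).trans_le (le_ciSup (f := fun i => v (z i)) (Set.finite_range _).bddAbove i)
  refine ⟨|Real.log C|, abs_nonneg _, fun x y hx hy hv => ?_⟩
  have h1 := h x y
  have h2 : 0 < v (val F x y) := v.pos hv
  have h3 := Real.log_le_log h2 h1
  have h4 : (⨆ i, v (x i)) ^ a ≠ 0 := (pow_pos (hsup x hx) _).ne'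
  have h5 : ∀ i, (⨆ l, v (y i l)) ^ d i ≠ 0 := fun i => (pow_pos (hsup (y i) (hy i)) _).ne'
  rw [Real.log_mul (mul_ne_zero hC.ne' h4) (Finset.prod_ne_zero_iff.2 fun i _ => h5 i), Real.log_mul hC.ne' h4,
    Real.log_pow, Real.log_prod (fun i _ => h5 i)] at h3
  simp only [Real.log_pow] at h3
  have h6 := le_abs_self (Real.log C)
  unfold lamF
  linarith

/-- The choice of the degree. -/
private theorem B4_nu {s n : ℕ} (h : ℕ → ℝ) (h0 : ∀ N, 0 ≤ h N) (e : ℝ) (he : 0 < e)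
    (hlim : Filter.Tendsto (fun N : ℕ => h N / (N : ℝ) ^ n) Filter.atTop (nhds e)) (d : Fin s → ℕ)
    (hd : ∀ i, 0 < d i) (η : ℝ) (hη : 0 < η) : ∃ ν : ℕ, 0 < ν ∧ 0 < h ν ∧
      ∀ i, (1 / (((n : ℝ) + 1) * d i) - η) * (ν * h ν) ≤ ∑ j ∈ Finset.Icc 1 (ν / d i), h (ν - j * d i) := by
  choose N₀ hN₀ using fun i => B1_sum h h0 n e he hlim (d i) (hd i) η hη
  obtain ⟨N₁, hN₁⟩ := Filter.eventually_atTop.1 (hlim.eventually (lt_mem_nhds he))
  refine ⟨∑ i, N₀ i + N₁ + 1, by omega, ?_, fun i => hN₀ i _ ?_⟩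
  · have h1 := hN₁ (∑ i, N₀ i + N₁ + 1) (by omega)
    by_contra hcon
    have h2 : h (∑ i, N₀ i + N₁ + 1) = 0 := le_antisymm (not_lt.1 hcon) (h0 _)
    rw [h2, zero_div] at h1
    exact lt_irrefl _ h1
  · have h1 := Finset.single_le_sum (f := N₀) (fun i _ => Nat.zero_le _) (Finset.mem_univ i)
    omega

/-- **T6, the inequality.** -/
theorem EF_max {K : Type u} [Field K] [NumberField K] {N m κ s n : ℕ} (A : AV K N)
    (H : Fin κ → Fm K N 1 m) (hX : Vars A H ∅) (hD : Dim n A H) (F : Fin s → Fm K N 1 m) (α d : Fin s → ℕ)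
    (hd : ∀ i, 0 < d i) (hF : ∀ i, Mh (F i) (α i) fun _ => d i) (hne : ∀ i, NF A H (F i))
    (S : Finset (FinitePlace K)) (ε : ℝ) (hε : 0 < ε) :
    ∃ (C : ℝ) (G : Fm K N 1 m), NF A H G ∧
      ∀ (P : A.Pts K) (y : Fin 1 → Fin (m + 1) → K), InX H (A.x P) y → val G (A.x P) y ≠ 0 →
        y 0 0 ≠ 0 ∧ (∀ i, val (F i) (A.x P) y ≠ 0) ∧
        ∀ (Qi : InfinitePlace K → Finset (Fin s)) (Qf : FinitePlace K → Finset (Fin s)),
          (∀ v, PropF A H F (Qi v)) → (∀ v ∈ S, PropF A H F (Qf v)) →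
          (∑ v : InfinitePlace K, (v.mult : ℝ) * ∑ i ∈ Qi v,
              1 / (d i : ℝ) * lamF (α i) (fun _ => d i) (F i) v.val (A.x P) y) +
            ∑ v ∈ S, ∑ i ∈ Qf v, 1 / (d i : ℝ) * lamF (α i) (fun _ => d i) (F i) v.val (A.x P) y ≤
          (n + 1 + ε) * logHeight (y 0) + ε * logHeight (A.x P) + C := by
  have hC : Pr A H := ⟨hX.prime, hX.ne⟩
  obtain ⟨L₀, i1, i2, i3, P₀, hP₀⟩ := Pool.Agent.Lib.MP_17a322_nt.EF.T_gen A
  have hz : ∃ y, InX H (A.x P₀) y ∧ y 0 0 ≠ 0 := by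
    obtain ⟨y, hy, hy0⟩ := (NF.exc' hC (NF.y0' hC 0)).2 L₀ P₀ hP₀
    rw [val_y0] at hy0
    exact ⟨y, hy, hy0⟩
  obtain ⟨e, he, hlim⟩ := B2_lim A H hX hD P₀ hP₀ hz
  obtain ⟨I₀, hI₀⟩ : ∃ I₀, I₀ = fib H (A.x P₀) := ⟨_, rfl⟩
  have hn1 : (0 : ℝ) < (n : ℝ) + 1 := by positivity
  -- the first small number
  obtain ⟨Td, hTd⟩ : ∃ T : ℝ, T = ∑ i, ((α i : ℝ) + d i) := ⟨_, rfl⟩
  have hT0 : 0 ≤ Td := by
    rw [hTd]
    exact Finset.sum_nonneg fun i _ => by positivity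
  obtain ⟨η, hηdef⟩ : ∃ η : ℝ, η = ε / (2 * ((n : ℝ) + 1) * (1 + Td)) := ⟨_, rfl⟩
  have hη : 0 < η := by
    rw [hηdef]
    positivity
  have hηε : ((n : ℝ) + 1) * η * Td ≤ ε / 2 := by
    have h1 : ((n : ℝ) + 1) * η * (1 + Td) = ε / 2 := by
      rw [hηdef]
      field_simp
    have h2 : 0 ≤ ((n : ℝ) + 1) * η := by positivity
    nlinarith [h1, h2]
  obtain ⟨ν, hν, hhν, hsum⟩ := B4_nu (fun ν => (hf (fib H (A.x P₀)) (fun _ => ν) : ℝ)) (fun _ => Nat.cast_nonneg _) e he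
    hlim d hd η hη
  obtain ⟨c, hc⟩ : ∃ c : ℝ, c = (hf (fib H (A.x P₀)) (fun _ : Fin 1 => ν) : ℝ) * ν := ⟨_, rfl⟩
  have hν0 : (0 : ℝ) < ν := by exact_mod_cast hν
  have hc0 : 0 < c := by
    rw [hc]
    exact mul_pos hhν hν0
  obtain ⟨W, hW⟩ : ∃ W : Fin s → ℝ, ∀ i, W i =
    ((∑ j ∈ Finset.Icc 1 ν, ordF (fib H (A.x P₀)) (fun _ : Fin 1 => ν) (sp (F i) (A.x P₀)) j : ℕ) : ℝ) :=
    ⟨_, fun _ => rfl⟩
  have hwW : ∀ i, (1 / (((n : ℝ) + 1) * d i) - η) * c ≤ W i := by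
    intro i
    have h1 := hsum i
    have h2 : (∑ j ∈ Finset.Icc 1 (ν / d i), (hf (fib H (A.x P₀)) (fun _ : Fin 1 => ν - j * d i) : ℝ)) ≤ W i := by
      rw [hW]
      push_cast
      calc ∑ j ∈ Finset.Icc 1 (ν / d i), (hf (fib H (A.x P₀)) (fun _ : Fin 1 => ν - j * d i) : ℝ)
          ≤ ∑ j ∈ Finset.Icc 1 (ν / d i),
            (ordF (fib H (A.x P₀)) (fun _ : Fin 1 => ν) (sp (F i) (A.x P₀)) j : ℝ) := by
            refine Finset.sum_le_sum fun j hj => ?_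
            refine Nat.cast_le.2 (B3_ord (hX.prime L₀ P₀ hP₀) (B4_hom (hF i) _) ((hne i).2 L₀ P₀ hP₀) ?_)
            funext t
            show ν = (ν - j * d i) + j * d i
            have h3 : j * d i ≤ ν := (Nat.le_div_iff_mul_le (hd i)).1 (Finset.mem_Icc.1 hj).2
            omega
        _ ≤ _ := Finset.sum_le_sum_of_subset_of_nonneg
            (Finset.Icc_subset_Icc le_rfl (Nat.div_le_self _ _)) fun j _ _ => Nat.cast_nonneg _
    refine le_trans (le_of_eq ?_) (h1.trans h2)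
    rw [hc]
    ring
  -- the inequality with the orders
  obtain ⟨r, mo, hmo⟩ := exists_isMon (m := m) (fun _ : Fin 1 => ν)
  obtain ⟨ε₂, hε₂def⟩ : ∃ ε₂ : ℝ, ε₂ = ε * c / (2 * ((n : ℝ) + 1)) := ⟨_, rfl⟩
  have hε₂ : 0 < ε₂ := by
    rw [hε₂def]
    positivity
  have hprime : A.I.IsPrime := Z_prime A
  have h1I : (1 : MvPolynomial (Fin (N + 1)) K) ∉ A.I := fun h => hprime.ne_top ((Ideal.eq_top_iff_one _).2 h)
  obtain ⟨C₁, G, hG, hmain⟩ := T4F_max A H hX F α (fun i _ => d i) hF hne P₀ hP₀ (fun _ : Fin 1 => ν) ν hmo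
    (1 : MvPolynomial (Fin (N + 1)) K) (isHomogeneous_one _ _) h1I S ε₂ hε₂
  choose Cub hCub using fun i => A0_ub (hF i)
  choose b hb0 hb using fun (i : Fin s) (v : AbsoluteValue K ℝ) => B4_low (hF i) v
  obtain ⟨κ', hκ'⟩ : ∃ κ' : ℝ, κ' = ((n : ℝ) + 1) / c := ⟨_, rfl⟩
  have hκ0 : 0 ≤ κ' := by
    rw [hκ']
    positivity
  obtain ⟨cs, hcs⟩ : ∃ cs : AbsoluteValue K ℝ → ℝ, ∀ v, cs v =
    ∑ i, (κ' * (W i - (1 / (((n : ℝ) + 1) * d i) - η) * c) * b i v + ((n : ℝ) + 1) * η * b i v) := ⟨_, fun _ => rfl⟩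
  refine ⟨κ' * C₁ + ((n : ℝ) + 1) * η * ∑ i, Cub i +
    ((∑ v : InfinitePlace K, (v.mult : ℝ) * cs v.val) + ∑ v ∈ S, cs v.val), G, hG, fun P y hXy hGy => ?_⟩
  obtain ⟨g1, g2, -, g3⟩ := hmain P y hXy hGy
  refine ⟨g1 0, g2, fun Qi Qf hQi hQf => ?_⟩
  have g4 := g3 Qi Qf hQi hQf
  have hx0 : A.x P ≠ 0 := by
    obtain ⟨a, ha⟩ := A.exists_x_ne P
    exact fun h => ha (congrFun h a)
  have hloc : ∀ (v : AbsoluteValue K ℝ) (Q : Finset (Fin s)),
      ∑ i ∈ Q, 1 / (d i : ℝ) * lamF (α i) (fun _ => d i) (F i) v (A.x P) y ≤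
        κ' * ∑ i ∈ Q, W i * lamF (α i) (fun _ => d i) (F i) v (A.x P) y +
          ((n : ℝ) + 1) * η * ∑ i, lamF (α i) (fun _ => d i) (F i) v (A.x P) y + cs v := by
    intro v Q
    rw [hcs]
    refine B4_loc Q (fun i => 1 / (d i : ℝ)) (fun i => (1 / (((n : ℝ) + 1) * d i) - η) * c) W
      (fun i => lamF (α i) (fun _ => d i) (F i) v (A.x P) y) (fun i => b i v) κ' (((n : ℝ) + 1) * η) hκ0
      (by positivity) (fun i => ?_) hwW (fun i => hb0 i v) fun i => hb i v (A.x P) y hx0 hXy.1 (g2 i)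
    have hdi : (d i : ℝ) ≠ 0 := by
      have := (hd i).ne'
      exact_mod_cast this
    show 1 / (d i : ℝ) = κ' * ((1 / (((n : ℝ) + 1) * d i) - η) * c) + ((n : ℝ) + 1) * η
    rw [hκ']
    field_simp
    ring
  -- the sum over the places
  have hs1 : (∑ v : InfinitePlace K, (v.mult : ℝ) * ∑ i ∈ Qi v,
        1 / (d i : ℝ) * lamF (α i) (fun _ => d i) (F i) v.val (A.x P) y) ≤
      κ' * (∑ v : InfinitePlace K, (v.mult : ℝ) * ∑ i ∈ Qi v, W i * lamF (α i) (fun _ => d i) (F i) v.val (A.x P) y) +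
        ((n : ℝ) + 1) * η * (∑ v : InfinitePlace K, (v.mult : ℝ) * ∑ i, lamF (α i) (fun _ => d i) (F i) v.val (A.x P) y) +
          ∑ v : InfinitePlace K, (v.mult : ℝ) * cs v.val := by
    rw [Finset.mul_sum, Finset.mul_sum, ← Finset.sum_add_distrib, ← Finset.sum_add_distrib]
    refine Finset.sum_le_sum fun v _ => ?_
    have h1 := mul_le_mul_of_nonneg_left (hloc v.val (Qi v)) (Nat.cast_nonneg (α := ℝ) v.mult)
    refine h1.trans (le_of_eq ?_)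
    ring
  have hs2 : (∑ v ∈ S, ∑ i ∈ Qf v, 1 / (d i : ℝ) * lamF (α i) (fun _ => d i) (F i) v.val (A.x P) y) ≤
      κ' * (∑ v ∈ S, ∑ i ∈ Qf v, W i * lamF (α i) (fun _ => d i) (F i) v.val (A.x P) y) +
        ((n : ℝ) + 1) * η * (∑ v ∈ S, ∑ i, lamF (α i) (fun _ => d i) (F i) v.val (A.x P) y) + ∑ v ∈ S, cs v.val := by
    rw [Finset.mul_sum, Finset.mul_sum, ← Finset.sum_add_distrib, ← Finset.sum_add_distrib]
    exact Finset.sum_le_sum fun v _ => hloc v.val (Qf v)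
  -- the heights
  have hub : (∑ v : InfinitePlace K, (v.mult : ℝ) * ∑ i, lamF (α i) (fun _ => d i) (F i) v.val (A.x P) y) +
      ∑ v ∈ S, ∑ i, lamF (α i) (fun _ => d i) (F i) v.val (A.x P) y ≤
      ∑ i, ((α i : ℝ) * logHeight (A.x P) + (d i : ℝ) * logHeight (y 0) + Cub i) := by
    have h1 : (∑ v : InfinitePlace K, (v.mult : ℝ) * ∑ i, lamF (α i) (fun _ => d i) (F i) v.val (A.x P) y) +
        ∑ v ∈ S, ∑ i, lamF (α i) (fun _ => d i) (F i) v.val (A.x P) y =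
        ∑ i, mF (α i) (fun _ => d i) (F i) S (A.x P) y := by
      unfold mF
      rw [Finset.sum_add_distrib]
      congr 1
      · simp only [Finset.mul_sum]
        exact Finset.sum_comm
      · exact Finset.sum_comm
    rw [h1]
    refine Finset.sum_le_sum fun i _ => ?_
    have h2 := hCub i S (A.x P) y hx0 hXy.1 (g2 i)
    rw [Fin.sum_univ_one] at h2
    exact h2
  have hHx : 0 ≤ logHeight (A.x P) := logHeight_nonneg _
  have hHy : 0 ≤ logHeight (y 0) := logHeight_nonneg _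
  have hub2 : ∑ i, ((α i : ℝ) * logHeight (A.x P) + (d i : ℝ) * logHeight (y 0) + Cub i) ≤
      Td * (logHeight (A.x P) + logHeight (y 0)) + ∑ i, Cub i := by
    rw [Finset.sum_add_distrib, hTd, Finset.sum_mul]
    have h1 : ∑ i, ((α i : ℝ) * logHeight (A.x P) + (d i : ℝ) * logHeight (y 0)) ≤
        ∑ i, ((α i : ℝ) + d i) * (logHeight (A.x P) + logHeight (y 0)) := by
      refine Finset.sum_le_sum fun i _ => ?_
      have h2 : 0 ≤ (α i : ℝ) * logHeight (y 0) := by positivity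
      have h3 : 0 ≤ (d i : ℝ) * logHeight (A.x P) := by positivity
      nlinarith [h2, h3]
    linarith
  -- the terms which are zero or nonnegative
  have hLR : ∀ v : AbsoluteValue K ℝ, LR 0 (1 : MvPolynomial (Fin (N + 1)) K) v (A.x P) = 0 := by
    intro v
    unfold LR
    rw [map_one, v.map_one, Real.log_one, Nat.cast_zero, zero_mul, sub_zero]
  have hPl0 : 0 ≤ UPE.hPl (Rel (fib H (A.x P)) (fun _ : Fin 1 => ν) mo) := by
    unfold UPE.hPl
    exact logHeight_nonneg _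
  simp only [hLR, mul_zero, Finset.sum_const_zero, add_zero, Fin.sum_univ_one, ← hW] at g4
  have g5 : (∑ v : InfinitePlace K, (v.mult : ℝ) * ∑ i ∈ Qi v, W i * lamF (α i) (fun _ => d i) (F i) v.val (A.x P) y) +
      (∑ v ∈ S, ∑ i ∈ Qf v, W i * lamF (α i) (fun _ => d i) (F i) v.val (A.x P) y) ≤
      c * logHeight (y 0) + ε₂ * (logHeight (y 0) + logHeight (A.x P)) + C₁ := by
    rw [hc]
    linarith
  have g6 := mul_le_mul_of_nonneg_left g5 hκ0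
  have h2 : 0 ≤ ((n : ℝ) + 1) * η := by positivity
  have g7 := mul_le_mul_of_nonneg_left (hub.trans hub2) h2
  have h3 : κ' * (c * logHeight (y 0) + ε₂ * (logHeight (y 0) + logHeight (A.x P)) + C₁) =
      ((n : ℝ) + 1) * logHeight (y 0) + ε / 2 * (logHeight (y 0) + logHeight (A.x P)) + κ' * C₁ := by
    rw [hκ', hε₂def]
    field_simp
  have h4 : ((n : ℝ) + 1) * η * (Td * (logHeight (A.x P) + logHeight (y 0)) + ∑ i, Cub i) ≤
      ε / 2 * (logHeight (A.x P) + logHeight (y 0)) + ((n : ℝ) + 1) * η * ∑ i, Cub i := by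
    have h5 := mul_le_mul_of_nonneg_right hηε (add_nonneg hHx hHy)
    nlinarith [h5]
  rw [h3] at g6
  have g8 := g7.trans h4
  rw [mul_add] at g6 g8
  nlinarith [hs1, hs2, g6, g8]

end UTH
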