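import Pool.Agent.Lib.MP_17a322_ntTA.Defs

/-!
Leaf B6: finitely many points of `A` of bounded height.

PROOF. For every `b` the points with `A.x P b ≠ 0` and height `≤ B`: the map `P ↦ (A.x P a / A.x P b)_a` is injective on them (model: the
end of the proof of `UTA.pt_unique`, ntTA/Z6: a point of `ℙ` is determined by its representative up to a factor) and its values have
`logHeight₁ ≤ B` in every coordinate (model: `UTA.fin_y`, ntTA/Z6), so they lie in a finite set (`Northcott.finite_le`). Finite union
over `b` (`A.x P ≠ 0`).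
-/

set_option autoImplicit false

universe u

namespace UTH

open MvPolynomial UTA Height NumberField
open Pool.Agent.Lib.MP_17a322_nt.VA

theorem B6_fin {K : Type u} [Field K] [NumberField K] {N : ℕ} (A : AV K N) (B : ℝ) :
    {P : A.Pts K | logHeight (A.x P) ≤ B}.Finite := by
  classical
  have h0 : ∀ b : Fin (N + 1), {P : A.Pts K | A.x P b ≠ 0 ∧ logHeight (A.x P) ≤ B}.Finite := by
    intro b
    have h1 : {x : K | logHeight₁ x ≤ B}.Finite := Northcott.finite_le B
    refine Set.Finite.of_injOn (f := fun P : A.Pts K => fun a => A.x P a / A.x P b)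
      (t := Set.pi Set.univ fun _ : Fin (N + 1) => {x : K | logHeight₁ x ≤ B}) ?_ ?_ (Set.Finite.pi fun _ => h1)
    · rintro P ⟨hb, hP⟩ a _
      show logHeight₁ (A.x P a / A.x P b) ≤ B
      rw [logHeight₁_div_eq_logHeight]
      have h2 : (![A.x P a, A.x P b] : Fin 2 → K) = A.x P ∘ ![a, b] := by
        funext k
        fin_cases k
        · rfl
        · rfl
      rw [h2]
      exact (logHeight_comp_le _ _).trans hP
    · rintro P ⟨hb, -⟩ P' ⟨hb', -⟩ h
      have h2 : ∀ a, A.x P a / A.x P b = A.x P' a / A.x P' b := fun a => congrFun h a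
      apply Subtype.ext
      rw [← P.1.mk_rep, ← P'.1.mk_rep, Projectivization.mk_eq_mk_iff']
      refine ⟨A.x P b / A.x P' b, ?_⟩
      funext a
      change A.x P b / A.x P' b * A.x P' a = A.x P a
      have h3 := h2 a
      rw [div_eq_div_iff hb hb'] at h3
      rw [div_mul_eq_mul_div, div_eq_iff hb']
      linear_combination -h3
  refine (Set.finite_iUnion h0).subset fun P hP => ?_
  have h1 : A.x P ≠ 0 := P.1.rep_nonzero
  obtain ⟨b, hb⟩ := Function.ne_iff.1 h1
  exact Set.mem_iUnion.2 ⟨b, hb, hP⟩

end UTH
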