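import Pool.Agent.Lib.MP_17a322_ntTA.Z6
import Pool.Agent.Lib.MP_17a322_ntTH.B4
import Pool.Agent.Lib.MP_17a322_ntTH.B6

/-!
Leaf B5: integral points.

PROOF. Apply `EF_max` with `Qi = Qf = univ`: the left-hand side is `∑ i, 1 / d i * mF (α i) (fun _ => d i) (F i) S ..`, and for a point of the set
`mF .. ≥ α i * logHeight (A.x P) + d i * logHeight (y 0)` (`A0_lb`, the sum over `Fin 1`). So with `h = logHeight (y 0)`, `k = logHeight (A.x P)`,
`a = ∑ i, α i / d i`: `s * h + a * k ≤ (n + 1 + ε) h + ε k + C`, `s ≥ n + 2`. Case `∃ i, 0 < α i`: `a > 0`, `ε = min (1 / 2) (a / 2)`: `h` and `k` are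
bounded: the set is finite (`fin_y`, `B6_fin`, a product of two finite sets). Case `IsMap A H p`: `hP_le` (ntTA/Z6) gives `k ≤ C₁ + c h` where
some `p b (y) ≠ 0`: add the factor `up N (p b)` to `G` (`hp.2.2 : ∃ b, Exc ..`; `NF.of_exc`, `NF.mul'`, `val_up`, as in `UTA.fin_of_ineqR`, ntTA/Y3), `ε = 1 / (2 (1 + c))`: `h` is
bounded and `P` is determined by `y` (`pt_unique`).
-/

set_option autoImplicit false

universe u

namespace UTH

open MvPolynomial UTA UTD UTC Height NumberField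
open Pool.Agent.Lib.MP_17a322_nt.VA
open Pool.Agent.Lib.MP_17a322_nt.SL (Gen)

/-- The inequality for the heights of the integral points. -/
private theorem B5_ineq {K : Type u} [Field K] [NumberField K] {N m κ s n : ℕ} (A : AV K N)
    (H : Fin κ → Fm K N 1 m) (hX : Vars A H ∅) (hD : Dim n A H) (F : Fin s → Fm K N 1 m) (α d : Fin s → ℕ)
    (hd : ∀ i, 0 < d i) (hF : ∀ i, Mh (F i) (α i) fun _ => d i) (hne : ∀ i, NF A H (F i))
    (hprop : PropF A H F Finset.univ) (S : Finset (FinitePlace K)) (ε : ℝ) (hε : 0 < ε) :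
    ∃ (C : ℝ) (G : Fm K N 1 m), NF A H G ∧
      ∀ (P : A.Pts K) (y : Fin 1 → Fin (m + 1) → K), InX H (A.x P) y → val G (A.x P) y ≠ 0 →
        (∀ i, ∀ v ∉ S, lamF (α i) (fun _ => d i) (F i) v.val (A.x P) y ≤ 0) →
        (s : ℝ) * logHeight (y 0) + (∑ i, (α i : ℝ) / d i) * logHeight (A.x P) ≤
          (n + 1 + ε) * logHeight (y 0) + ε * logHeight (A.x P) + C := by
  obtain ⟨C, G, hG, hmain⟩ := EF_max A H hX hD F α d hd hF hne S ε hε
  refine ⟨C, G, hG, fun P y hy hyG hS => ?_⟩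
  obtain ⟨-, h2, h3⟩ := hmain P y hy hyG
  have h4 := h3 (fun _ => Finset.univ) (fun _ => Finset.univ) (fun _ => hprop) (fun _ _ => hprop)
  refine le_trans ?_ h4
  have h5 : (∑ v : InfinitePlace K, (v.mult : ℝ) * ∑ i, 1 / (d i : ℝ) *
        lamF (α i) (fun _ => d i) (F i) v.val (A.x P) y) +
      ∑ v ∈ S, ∑ i, 1 / (d i : ℝ) * lamF (α i) (fun _ => d i) (F i) v.val (A.x P) y =
      ∑ i, 1 / (d i : ℝ) * mF (α i) (fun _ => d i) (F i) S (A.x P) y := by
    unfold mF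
    simp only [mul_add, Finset.mul_sum, Finset.sum_add_distrib]
    congr 1
    · rw [Finset.sum_comm]
      exact Finset.sum_congr rfl fun i _ => Finset.sum_congr rfl fun v _ => by ring
    · rw [Finset.sum_comm]
  rw [h5]
  have h6 : (s : ℝ) * logHeight (y 0) + (∑ i, (α i : ℝ) / d i) * logHeight (A.x P) =
      ∑ i, 1 / (d i : ℝ) * (α i * logHeight (A.x P) + d i * logHeight (y 0)) := by
    have h7 : ∀ i, 1 / (d i : ℝ) * (α i * logHeight (A.x P) + d i * logHeight (y 0)) =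
        (α i : ℝ) / d i * logHeight (A.x P) + logHeight (y 0) := by
      intro i
      have h8 : (d i : ℝ) ≠ 0 := by exact_mod_cast (hd i).ne'
      field_simp
    rw [Finset.sum_congr rfl fun i _ => h7 i, Finset.sum_add_distrib, Finset.sum_const, Finset.card_univ,
      Fintype.card_fin, nsmul_eq_mul, ← Finset.sum_mul]
    ring
  rw [h6]
  refine Finset.sum_le_sum fun i _ => ?_
  refine mul_le_mul_of_nonneg_left ?_ (by positivity)
  have h7 := A0_lb (F := F i) (a := α i) (d := fun _ => d i) S (x := A.x P) (y := y) P.1.rep_nonzero hy.1 (h2 i)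
    (hS i)
  rw [Fin.sum_univ_one] at h7
  exact h7

/-- **T6, integral points.** -/
theorem EF_int {K : Type u} [Field K] [NumberField K] {N m κ s n : ℕ} (A : AV K N)
    (H : Fin κ → Fm K N 1 m) (hX : Vars A H ∅) (hD : Dim n A H) (F : Fin s → Fm K N 1 m) (α d : Fin s → ℕ)
    (hd : ∀ i, 0 < d i) (hF : ∀ i, Mh (F i) (α i) fun _ => d i) (hne : ∀ i, NF A H (F i))
    (hprop : PropF A H F Finset.univ) (hs : n + 2 ≤ s)
    (hp : (∃ i, 0 < α i) ∨ ∃ p : Fin (N + 1) → MvPolynomial (Fin 1 × Fin (m + 1)) K, IsMap A H p)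
    (S : Finset (FinitePlace K)) :
    ∃ G : Fm K N 1 m, UTA.Exc A H G ∧
      {z : A.Pts K × (Fin 1 → Fin (m + 1) → K) | InX H (A.x z.1) z.2 ∧ (∀ i, z.2 i 0 = 1) ∧
        (∀ i, ∀ v ∉ S, lamF (α i) (fun _ => d i) (F i) v.val (A.x z.1) z.2 ≤ 0) ∧
        val G (A.x z.1) z.2 ≠ 0}.Finite := by
  have hC : Pr A H := ⟨hX.prime, hX.ne⟩
  have hs' : (n : ℝ) + 2 ≤ s := by exact_mod_cast hs
  have ha0 : 0 ≤ ∑ i, (α i : ℝ) / d i := Finset.sum_nonneg fun i _ => by positivity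
  rcases hp with ⟨i₀, hi₀⟩ | ⟨p, hp⟩
  · obtain ⟨a, ha⟩ : ∃ a : ℝ, a = ∑ i, (α i : ℝ) / d i := ⟨_, rfl⟩
    have hapos : 0 < a := by
      rw [ha]
      have h1 : 0 < (α i₀ : ℝ) / d i₀ := by
        have h2 := hd i₀
        positivity
      exact h1.trans_le (Finset.single_le_sum (f := fun i => (α i : ℝ) / d i) (fun i _ => by positivity)
        (Finset.mem_univ i₀))
    obtain ⟨ε, hεd⟩ : ∃ ε : ℝ, ε = min (1 / 2) (a / 2) := ⟨_, rfl⟩
    have hε : 0 < ε := by
      rw [hεd]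
      exact lt_min (by norm_num) (by positivity)
    have hε1 : ε ≤ 1 / 2 := hεd ▸ min_le_left _ _
    have hε2 : ε ≤ a / 2 := hεd ▸ min_le_right _ _
    obtain ⟨C, G, hG, hmain⟩ := B5_ineq A H hX hD F α d hd hF hne hprop S ε hε
    refine ⟨G, NF.exc' hC hG, ?_⟩
    refine ((B6_fin A (2 * C / a)).prod (fin_y (q := 1) (m := m) (2 * C))).subset ?_
    rintro ⟨P, y⟩ ⟨hy, hy0, hS, hyG⟩
    have h1 := hmain P y hy hyG hS
    rw [← ha] at h1
    have hh : 0 ≤ logHeight (y 0) := logHeight_nonneg _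
    have hk : 0 ≤ logHeight (A.x P) := logHeight_nonneg _
    have h2 : ((n : ℝ) + 2) * logHeight (y 0) ≤ s * logHeight (y 0) := mul_le_mul_of_nonneg_right hs' hh
    have h3 : ε * logHeight (y 0) ≤ 1 / 2 * logHeight (y 0) := mul_le_mul_of_nonneg_right hε1 hh
    have h4 : ε * logHeight (A.x P) ≤ a / 2 * logHeight (A.x P) := mul_le_mul_of_nonneg_right hε2 hk
    have h5 : 1 / 2 * logHeight (y 0) + a / 2 * logHeight (A.x P) ≤ C := by linarith
    have h6 : 0 ≤ a / 2 * logHeight (A.x P) := by positivity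
    refine ⟨?_, hy0, fun i => ?_⟩
    · show logHeight (A.x P) ≤ 2 * C / a
      rw [le_div_iff₀ hapos]
      linarith
    · show logHeight (y i) ≤ 2 * C
      rw [Subsingleton.elim i 0]
      linarith
  · obtain ⟨b, hb⟩ := hp.2.2
    obtain ⟨C₁, c, h1⟩ := hP_le hp
    obtain ⟨ε, hεd⟩ : ∃ ε : ℝ, ε = 1 / (2 * (1 + c)) := ⟨_, rfl⟩
    have hε : 0 < ε := by
      rw [hεd]
      positivity
    have hεc : ε * (1 + c) = 1 / 2 := by
      rw [hεd]
      field_simp
    obtain ⟨C, G, hG, hmain⟩ := B5_ineq A H hX hD F α d hd hF hne hprop S ε hε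
    have hpb : Exc A H (up N (p b)) := hb
    refine ⟨G * up N (p b), NF.exc' hC (NF.mul' hC hG (NF.of_exc hpb)), ?_⟩
    refine Set.Finite.of_finite_image (f := Prod.snd)
      ((fin_y (q := 1) (m := m) (2 * (ε * C₁ + C))).subset ?_) ?_
    · rintro _ ⟨⟨P, y⟩, ⟨hy, hy0, hS, hyG⟩, rfl⟩
      rw [val_mul, val_up] at hyG
      obtain ⟨hne1, hne2⟩ := mul_ne_zero_iff.1 hyG
      have h2 := hmain P y hy hne1 hS
      have h3 := h1 P y hy hy0 ⟨b, hne2⟩
      rw [Fin.sum_univ_one] at h3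
      have hh : 0 ≤ logHeight (y 0) := logHeight_nonneg _
      have hk : 0 ≤ logHeight (A.x P) := logHeight_nonneg _
      have h4 : ((n : ℝ) + 2) * logHeight (y 0) ≤ s * logHeight (y 0) := mul_le_mul_of_nonneg_right hs' hh
      have h5 := mul_nonneg ha0 hk
      have h6 := mul_le_mul_of_nonneg_left h3 hε.le
      have h7 : ε * (C₁ + c * logHeight (y 0)) + ε * logHeight (y 0) = ε * C₁ + 1 / 2 * logHeight (y 0) := by
        rw [← hεc]
        ring
      refine ⟨hy0, fun i => ?_⟩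
      show logHeight (y i) ≤ 2 * (ε * C₁ + C)
      rw [Subsingleton.elim i 0]
      linarith
    · rintro ⟨P, y⟩ ⟨hy, hy0, hS, hyG⟩ ⟨P', y'⟩ ⟨hy', hy0', hS', hyG'⟩ hyy
      have h2 : y = y' := hyy
      subst h2
      rw [val_mul, val_up] at hyG
      obtain ⟨hne1, hne2⟩ := mul_ne_zero_iff.1 hyG
      have h3 : P = P' := pt_unique hp hy hy' hne2
      rw [h3]

end UTH
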